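import Pool.Agent.H392.Sys
import Pool.Graph.R_seed8.R693.G.Rep

/-!
Explicit point representations of the prime quotients of the enveloping algebra of `W_{≥-1}`.
-/

set_option autoImplicit false
set_option linter.unusedSectionVars false

namespace Pool.Agent.H392

open Finset Pool.Agent.R693.C

section one
variable {K : Type} [Field K] [CharZero K] {V : Type} [AddCommGroup V] [Module K V]
variable {E : ℕ → Module.End K V}

/-- Operators commuting with `E` lift. -/
lemma hat_eq (M : ℕ) (a : Cz E) : hat E M a = hU K (UU E M) (res E M a) := rfl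

/-- One point. -/
theorem point1 [Nontrivial V]
    (hbr : ∀ a b, E a * E b - E b * E a = ((b : K) - a) • E (a + b - 1))
    (hsm : ∀ v, ∃ M, ∀ l, M ≤ l → E l v = 0) :
    (∃ (W : Type) (_ : AddCommGroup W) (_ : Module K W) (Φ : W →ₗ[K] V), Nontrivial W ∧
      Function.Injective Φ ∧ (∀ l w, E l (Φ w) = 0) ∧
      ∀ a : Module.End K V, (∀ l, a * E l = E l * a) → ∃ x : Module.End K W,
        ∀ w, Φ (x w) = a (Φ w)) ∨
    (∃ (W : Type) (_ : AddCommGroup W) (_ : Module K W) (Φ : W →ₗ[K] V) (D y : Module.End K W)
      (Z : ℕ → Module.End K W), Nontrivial W ∧ Function.Injective Φ ∧ D * y = y * D + 1 ∧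
      (∀ l, D * Z l = Z l * D) ∧ (∀ l, y * Z l = Z l * y) ∧ Z 0 = 0 ∧
      (∀ a b, 1 ≤ a → 1 ≤ b → Z a * Z b - Z b * Z a = ((b : ℤ) - a) • Z (a + b - 1)) ∧
      (∃ M, ∀ l, M ≤ l → Z l = 0) ∧ (∀ l w, E l (Φ w) = Φ (Ef D y Z l w)) ∧
      ∀ a : Module.End K V, (∀ l, a * E l = E l * a) → ∃ x : Module.End K W,
        (∀ w, Φ (x w) = a (Φ w)) ∧ x * D = D * x ∧ x * y = y * x ∧ ∀ l, x * Z l = Z l * x) := by
  classical
  have hex : ∃ M, UU E M ≠ ⊥ := by
    obtain ⟨v, hv⟩ := exists_ne (0 : V)
    obtain ⟨M, hM⟩ := hsm v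
    refine ⟨M, fun h => hv ?_⟩
    have : v ∈ UU E M := hM
    rwa [h, Submodule.mem_bot] at this
  rcases hfind : Nat.find hex with _ | m
  · left
    have h0 : UU E 0 ≠ ⊥ := by
      have := Nat.find_spec hex
      rwa [hfind] at this
    refine ⟨UU E 0, inferInstance, inferInstance, (UU E 0).subtype,
      (Submodule.nontrivial_iff_ne_bot).mpr h0, Subtype.val_injective,
      fun l w => w.2 l (Nat.zero_le _), fun a ha => ⟨res E 0 ⟨a, mem_Cz ha⟩, fun w => rfl⟩⟩
  · right
    have h0 : UU E (m + 1) ≠ ⊥ := by
      have := Nat.find_spec hex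
      rwa [hfind] at this
    have hmin : ∀ v ∈ UU E (m + 1), E m v = 0 → v = 0 := by
      intro v hv h
      have h1 : UU E m = ⊥ := by
        by_contra hne
        exact Nat.find_min hex (m := m) (by omega) hne
      have h2 : v ∈ UU E m := by
        intro l hl
        rcases Nat.eq_or_lt_of_le hl with rfl | hl
        · exact h
        · exact hv l hl
      rwa [h1, Submodule.mem_bot] at h2
    set M := m + 1 with hM
    set Z : ℕ → Module.End K (ℕ →₀ UU E M) := fun l =>
      if l = 0 then 0 else hU K (UU E M) (ZZ E M l) with hZ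
    have hZ0 : Z 0 = 0 := if_pos rfl
    have hZl : ∀ l, 1 ≤ l → Z l = hU K (UU E M) (ZZ E M l) := fun l hl => if_neg (by omega)
    have hZc : ∀ l (b : Cz E), Z l * hU K (UU E M) (res E M b) = hU K (UU E M) (res E M b) * Z l := by
      intro l b
      rcases Nat.eq_zero_or_pos l with rfl | hl
      · rw [hZ0, zero_mul, mul_zero]
      · rw [hZl l hl, ← map_mul, ← map_mul, ZZ_res hbr hl]
    have hDZ : ∀ l, Dh K (UU E M) * Z l = Z l * Dh K (UU E M) := by
      intro l
      rcases Nat.eq_zero_or_pos l with rfl | hl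
      · rw [hZ0, zero_mul, mul_zero]
      · rw [hZl l hl]; exact Dh_hU _
    have hyZ : ∀ l, yh K (UU E M) * Z l = Z l * yh K (UU E M) := by
      intro l
      rcases Nat.eq_zero_or_pos l with rfl | hl
      · rw [hZ0, zero_mul, mul_zero]
      · rw [hZl l hl]; exact yh_hU _
    have hZbr : ∀ a b, 1 ≤ a → 1 ≤ b → Z a * Z b - Z b * Z a = ((b : ℤ) - a) • Z (a + b - 1) := by
      intro a b ha hb
      rw [hZl a ha, hZl b hb, hZl (a + b - 1) (by omega), ← map_mul, ← map_mul]
      refine (map_sub (hU K (UU E M)) _ _).symm.trans ?_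
      refine Eq.trans ?_ (Int.cast_smul_eq_zsmul K ((b : ℤ) - a) _)
      rw [ZZ_br hbr ha hb, map_smul]
      push_cast
      rfl
    have hZf : ∀ l, M ≤ l → Z l = 0 := by
      intro l hl
      rw [hZl l (by omega), ZZ_zero hbr (by omega) hl, map_zero]
    have : Nontrivial (UU E M) := (Submodule.nontrivial_iff_ne_bot).mpr h0
    refine ⟨ℕ →₀ UU E M, inferInstance, inferInstance, Ph E M, Dh K (UU E M), yh K (UU E M), Z,
      inferInstance, Ph_inj hbr hmin, Dh_yh, hDZ, hyZ, hZ0, hZbr, ⟨M, hZf⟩, ?_, ?_⟩
    · intro l w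
      rw [← Ph_Eh hbr M l]
      congr 1
      unfold Eh Ef
      rw [LinearMap.add_apply, LinearMap.add_apply, LinearMap.sum_apply, LinearMap.sum_apply]
      congr 1
      refine Finset.sum_congr rfl fun j hj => ?_
      have h1 := Finset.mem_range.mp hj
      rw [hZl (l - j) (by omega), LinearMap.smul_apply, LinearMap.smul_apply,
        Nat.cast_smul_eq_nsmul]
    · intro a ha
      refine ⟨hat E M ⟨a, mem_Cz ha⟩, fun w => Ph_hat M _ w, ?_, ?_, ?_⟩
      · rw [hat_eq]; exact (Dh_hU _).symm
      · rw [hat_eq]; exact (yh_hU _).symm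
      · intro l
        rw [hat_eq]; exact (hZc l _).symm

/-- Several points. -/
theorem multi1 {ι : Type} (s : Finset ι) : ∀ (V : Type) [AddCommGroup V] [Module K V]
    [Nontrivial V] (E : ι → ℕ → Module.End K V),
    (∀ c ∈ s, ∀ c' ∈ s, c ≠ c' → ∀ l l', E c l * E c' l' = E c' l' * E c l) →
    (∀ c ∈ s, ∀ a b, E c a * E c b - E c b * E c a = ((b : K) - a) • E c (a + b - 1)) →
    (∀ c ∈ s, ∀ v, ∃ M, ∀ l, M ≤ l → E c l v = 0) →
    ∃ (W : Type) (_ : AddCommGroup W) (_ : Module K W) (Φ : W →ₗ[K] V) (C : Type) (_ : Fintype C)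
      (_ : DecidableEq C) (κ : C → ι) (D y : C → Module.End K W) (Z : C → ℕ → Module.End K W),
      Nontrivial W ∧ Function.Injective Φ ∧ Function.Injective κ ∧ (∀ c, κ c ∈ s) ∧ Sys C D y Z ∧
      (∀ c l w, E (κ c) l (Φ w) = Φ (Ef (D c) (y c) (Z c) l w)) ∧
      (∀ i ∈ s, (∀ c, κ c ≠ i) → ∀ l w, E i l (Φ w) = 0) ∧
      ∀ a : Module.End K V, (∀ i ∈ s, ∀ l, a * E i l = E i l * a) → ∃ x : Module.End K W,
        (∀ w, Φ (x w) = a (Φ w)) ∧ (∀ c, x * D c = D c * x) ∧ (∀ c, x * y c = y c * x) ∧
        ∀ c l, x * Z c l = Z c l * x := by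
  classical
  induction s using Finset.induction_on with
  | empty =>
    intro V _ _ _ E _ _ _
    refine ⟨V, inferInstance, inferInstance, LinearMap.id, Empty, inferInstance, inferInstance,
      fun c => c.elim, fun c => c.elim, fun c => c.elim, fun c => c.elim, inferInstance,
      Function.injective_id, fun c => c.elim, fun c => c.elim,
      ⟨fun c => c.elim, fun c => c.elim, fun c => c.elim, fun c => c.elim, fun c => c.elim,
        fun c => c.elim, fun c => c.elim, fun c => c.elim, fun c => c.elim, fun c => c.elim⟩,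
      fun c => c.elim, fun i hi => absurd hi (Finset.notMem_empty i),
      fun a _ => ⟨a, fun w => rfl, fun c => c.elim, fun c => c.elim, fun c => c.elim⟩⟩
  | insert i s his ih =>
    intro V _ _ _ E hEE hbr hsm
    have hi := Finset.mem_insert_self i s
    have hs : ∀ c' ∈ s, c' ∈ insert i s := fun c' h => Finset.mem_insert_of_mem h
    have hne : ∀ c' ∈ s, c' ≠ i := fun c' h h' => his (h' ▸ h)
    rcases point1 (hbr i hi) (hsm i hi) with h | h
    · -- the point is dropped
      obtain ⟨W₁, _, _, Φ₁, hW₁, hΦ₁, hE₁, hl₁⟩ := h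
      have huniq : ∀ y z : Module.End K W₁, (∀ w, Φ₁ (y w) = Φ₁ (z w)) → y = z := fun y z h =>
        LinearMap.ext fun w => hΦ₁ (h w)
      have hlift : ∀ c' ∈ s, ∀ l, ∃ x : Module.End K W₁, ∀ w, Φ₁ (x w) = E c' l (Φ₁ w) :=
        fun c' hc' l => hl₁ _ fun l' => hEE c' (hs c' hc') i hi (hne c' hc') l l'
      choose! E' hE' using hlift
      obtain ⟨W, _, _, Φ, C, _, _, κ, D, y, Z, hW, hΦ, hκ, hκs, hsys, hf, h0, hl⟩ := ih W₁ E'
        (by
          intro c hc c' hc' hcc l l'
          apply huniq
          intro w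
          rw [Module.End.mul_apply, Module.End.mul_apply, hE' c hc, hE' c' hc', hE' c' hc',
            hE' c hc]
          exact LinearMap.congr_fun (hEE c (hs c hc) c' (hs c' hc') hcc l l') (Φ₁ w))
        (by
          intro c hc a b
          apply huniq
          intro w
          rw [LinearMap.sub_apply, map_sub, Module.End.mul_apply, Module.End.mul_apply,
            LinearMap.smul_apply, map_smul, hE' c hc, hE' c hc, hE' c hc, hE' c hc, hE' c hc]
          exact LinearMap.congr_fun (hbr c (hs c hc) a b) (Φ₁ w))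
        (by
          intro c hc v
          obtain ⟨M, hM⟩ := hsm c (hs c hc) (Φ₁ v)
          refine ⟨M, fun l hl => ?_⟩
          apply hΦ₁
          rw [hE' c hc, map_zero]
          exact hM l hl)
      refine ⟨W, inferInstance, inferInstance, Φ₁ ∘ₗ Φ, C, inferInstance, inferInstance, κ, D, y, Z,
        hW, hΦ₁.comp hΦ, hκ, fun c => hs _ (hκs c), hsys, ?_, ?_, ?_⟩
      · intro c l w
        rw [LinearMap.comp_apply, LinearMap.comp_apply, ← hE' _ (hκs c), hf]
      · intro j hj hjc l w
        rw [LinearMap.comp_apply]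
        rcases Finset.mem_insert.mp hj with rfl | hj
        · exact hE₁ _ _
        · rw [← hE' j hj, h0 j hj hjc, map_zero]
      · intro a ha
        obtain ⟨x, hx⟩ := hl₁ a fun l => ha i hi l
        obtain ⟨x', hx', h1, h2, h3⟩ := hl x (by
          intro c hc l
          apply huniq
          intro w
          rw [Module.End.mul_apply, Module.End.mul_apply, hx, hE' c hc, hE' c hc, hx]
          exact LinearMap.congr_fun (ha c (hs c hc) l) (Φ₁ w))
        refine ⟨x', fun w => ?_, h1, h2, h3⟩
        rw [LinearMap.comp_apply, LinearMap.comp_apply, hx', hx]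
    · -- the point is kept
      obtain ⟨W₁, _, _, Φ₁, D₁, y₁, Z₁, hW₁, hΦ₁, hDy₁, hDZ₁, hyZ₁, hZ0₁, hZbr₁, hZf₁, hE₁, hl₁⟩ := h
      have huniq : ∀ y z : Module.End K W₁, (∀ w, Φ₁ (y w) = Φ₁ (z w)) → y = z := fun y z h =>
        LinearMap.ext fun w => hΦ₁ (h w)
      have hlift : ∀ c' ∈ s, ∀ l, ∃ x : Module.End K W₁, (∀ w, Φ₁ (x w) = E c' l (Φ₁ w)) ∧
          x * D₁ = D₁ * x ∧ x * y₁ = y₁ * x ∧ ∀ l, x * Z₁ l = Z₁ l * x :=
        fun c' hc' l => hl₁ _ fun l' => hEE c' (hs c' hc') i hi (hne c' hc') l l'
      choose! E' hE' hE'D hE'y hE'Z using hlift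
      obtain ⟨W, _, _, Φ, C, _, _, κ, D, y, Z, hW, hΦ, hκ, hκs, hsys, hf, h0, hl⟩ := ih W₁ E'
        (by
          intro c hc c' hc' hcc l l'
          apply huniq
          intro w
          rw [Module.End.mul_apply, Module.End.mul_apply, hE' c hc, hE' c' hc', hE' c' hc',
            hE' c hc]
          exact LinearMap.congr_fun (hEE c (hs c hc) c' (hs c' hc') hcc l l') (Φ₁ w))
        (by
          intro c hc a b
          apply huniq
          intro w
          rw [LinearMap.sub_apply, map_sub, Module.End.mul_apply, Module.End.mul_apply,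
            LinearMap.smul_apply, map_smul, hE' c hc, hE' c hc, hE' c hc, hE' c hc, hE' c hc]
          exact LinearMap.congr_fun (hbr c (hs c hc) a b) (Φ₁ w))
        (by
          intro c hc v
          obtain ⟨M, hM⟩ := hsm c (hs c hc) (Φ₁ v)
          refine ⟨M, fun l hl => ?_⟩
          apply hΦ₁
          rw [hE' c hc, map_zero]
          exact hM l hl)
      have huniq' : ∀ y z : Module.End K W, (∀ w, Φ (y w) = Φ (z w)) → y = z := fun y z h =>
        LinearMap.ext fun w => hΦ (h w)
      obtain ⟨D₂, hD₂, hD₂D, hD₂y, hD₂Z⟩ := hl D₁ (fun c hc l => (hE'D c hc l).symm)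
      obtain ⟨y₂, hy₂, hy₂D, hy₂y, hy₂Z⟩ := hl y₁ (fun c hc l => (hE'y c hc l).symm)
      choose Z₂ hZ₂ hZ₂D hZ₂y hZ₂Z using fun l => hl (Z₁ l) (fun c hc l' => (hE'Z c hc l' l).symm)
      have hpow : ∀ (n : ℕ) w, Φ ((y₂ ^ n) w) = (y₁ ^ n) (Φ w) := by
        intro n
        induction n with
        | zero => intro w; rfl
        | succ n ih =>
          intro w
          rw [pow_succ, pow_succ, Module.End.mul_apply, Module.End.mul_apply, ih, hy₂]
      let κ' : Option C → ι := fun c => c.elim i κ
      let D' : Option C → Module.End K W := fun c => c.elim D₂ D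
      let y' : Option C → Module.End K W := fun c => c.elim y₂ y
      let Z' : Option C → ℕ → Module.End K W := fun c => c.elim Z₂ Z
      refine ⟨W, inferInstance, inferInstance, Φ₁ ∘ₗ Φ, Option C, inferInstance, inferInstance, κ',
        D', y', Z', hW, hΦ₁.comp hΦ, ?_, ?_, ?_, ?_, ?_, ?_⟩
      · rintro (_ | c) (_ | c') h
        · rfl
        · exact absurd h.symm (hne _ (hκs c'))
        · exact absurd h (hne _ (hκs c))
        · exact congrArg some (hκ h)
      · rintro (_ | c)
        · exact hi
        · exact hs _ (hκs c)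
      · refine ⟨?_, ?_, ?_, ?_, ?_, ?_, ?_, ?_, ?_, ?_⟩
        · rintro (_ | c)
          · apply huniq'
            intro w
            change Φ ((D₂ * y₂) w) = Φ ((y₂ * D₂ + 1) w)
            rw [Module.End.mul_apply, LinearMap.add_apply, Module.End.mul_apply, map_add,
              hD₂, hy₂, hy₂, hD₂]
            exact LinearMap.congr_fun hDy₁ (Φ w)
          · exact hsys.DT c
        · rintro (_ | c) (_ | d) hcd
          · exact absurd rfl hcd
          · exact hD₂y d
          · exact (hy₂D c).symm
          · exact hsys.DT' c d fun h => hcd (congrArg some h)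
        · rintro (_ | c) (_ | d)
          · rfl
          · exact hD₂D d
          · exact (hD₂D c).symm
          · exact hsys.DD c d
        · rintro (_ | c) (_ | d)
          · rfl
          · exact hy₂y d
          · exact (hy₂y c).symm
          · exact hsys.TT c d
        · rintro (_ | c) (_ | d) l
          · apply huniq'
            intro w
            change Φ ((D₂ * Z₂ l) w) = Φ ((Z₂ l * D₂) w)
            rw [Module.End.mul_apply, Module.End.mul_apply, hD₂, hZ₂, hZ₂, hD₂]
            exact LinearMap.congr_fun (hDZ₁ l) (Φ w)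
          · exact hD₂Z d l
          · exact (hZ₂D l c).symm
          · exact hsys.DZ c d l
        · rintro (_ | c) (_ | d) l
          · apply huniq'
            intro w
            change Φ ((y₂ * Z₂ l) w) = Φ ((Z₂ l * y₂) w)
            rw [Module.End.mul_apply, Module.End.mul_apply, hy₂, hZ₂, hZ₂, hy₂]
            exact LinearMap.congr_fun (hyZ₁ l) (Φ w)
          · exact hy₂Z d l
          · exact (hZ₂y l c).symm
          · exact hsys.TZ c d l
        · rintro (_ | c) (_ | d) hcd l m
          · exact absurd rfl hcd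
          · exact hZ₂Z l d m
          · exact (hZ₂Z m c l).symm
          · exact hsys.ZZ c d (fun h => hcd (congrArg some h)) l m
        · rintro (_ | c)
          · apply huniq'
            intro w
            change Φ (Z₂ 0 w) = Φ ((0 : Module.End K W) w)
            rw [hZ₂, hZ0₁, LinearMap.zero_apply, LinearMap.zero_apply, map_zero]
          · exact hsys.Z0 c
        · rintro (_ | c) a b ha hb
          · apply huniq'
            intro w
            change Φ ((Z₂ a * Z₂ b - Z₂ b * Z₂ a) w) = Φ ((((b : ℤ) - a) • Z₂ (a + b - 1)) w)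
            rw [LinearMap.sub_apply, map_sub, Module.End.mul_apply, Module.End.mul_apply,
              LinearMap.smul_apply, map_zsmul, hZ₂, hZ₂, hZ₂, hZ₂, hZ₂]
            exact LinearMap.congr_fun (hZbr₁ a b ha hb) (Φ w)
          · exact hsys.br c a b ha hb
        · rintro (_ | c)
          · obtain ⟨M, hM⟩ := hZf₁
            refine ⟨M, fun l hl => ?_⟩
            apply huniq'
            intro w
            change Φ (Z₂ l w) = Φ ((0 : Module.End K W) w)
            rw [hZ₂, hM l hl, LinearMap.zero_apply, LinearMap.zero_apply, map_zero]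
          · exact hsys.fin c
      · rintro (_ | c) l w
        · change E i l (Φ₁ (Φ w)) = Φ₁ (Φ (Ef D₂ y₂ Z₂ l w))
          rw [hE₁]
          congr 1
          unfold Ef
          rw [LinearMap.add_apply, LinearMap.add_apply, LinearMap.sum_apply, LinearMap.sum_apply,
            map_add, map_sum, Module.End.mul_apply, Module.End.mul_apply, hD₂, hpow]
          congr 1
          refine Finset.sum_congr rfl fun j _ => ?_
          rw [LinearMap.smul_apply, LinearMap.smul_apply, map_nsmul, Module.End.mul_apply,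
            Module.End.mul_apply, hpow, hZ₂]
        · change E (κ c) l (Φ₁ (Φ w)) = Φ₁ (Φ (Ef (D c) (y c) (Z c) l w))
          rw [← hE' _ (hκs c), hf]
      · intro j hj hjc l w
        rw [LinearMap.comp_apply]
        rcases Finset.mem_insert.mp hj with rfl | hj
        · exact absurd rfl (hjc none)
        · rw [← hE' j hj, h0 j hj (fun c => hjc (some c)), map_zero]
      · intro a ha
        obtain ⟨x, hx, hxD, hxy, hxZ⟩ := hl₁ a fun l => ha i hi l
        obtain ⟨x', hx', h1, h2, h3⟩ := hl x (by
          intro c hc l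
          apply huniq
          intro w
          rw [Module.End.mul_apply, Module.End.mul_apply, hx, hE' c hc, hE' c hc, hx]
          exact LinearMap.congr_fun (ha c (hs c hc) l) (Φ₁ w))
        refine ⟨x', fun w => ?_, ?_, ?_, ?_⟩
        · rw [LinearMap.comp_apply, LinearMap.comp_apply, hx', hx]
        · rintro (_ | c)
          · apply huniq'
            intro w
            change Φ ((x' * D₂) w) = Φ ((D₂ * x') w)
            rw [Module.End.mul_apply, Module.End.mul_apply, hx', hD₂, hD₂, hx']
            exact LinearMap.congr_fun hxD (Φ w)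
          · exact h1 c
        · rintro (_ | c)
          · apply huniq'
            intro w
            change Φ ((x' * y₂) w) = Φ ((y₂ * x') w)
            rw [Module.End.mul_apply, Module.End.mul_apply, hx', hy₂, hy₂, hx']
            exact LinearMap.congr_fun hxy (Φ w)
          · exact h2 c
        · rintro (_ | c) l
          · apply huniq'
            intro w
            change Φ ((x' * Z₂ l) w) = Φ ((Z₂ l * x') w)
            rw [Module.End.mul_apply, Module.End.mul_apply, hx', hZ₂, hZ₂, hx']
            exact LinearMap.congr_fun (hxZ l) (Φ w)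
          · exact h3 c l

open Polynomial in
lemma taylor_sum {M : Type} [AddCommGroup M] [Module K M] (c : K) (j : ℕ) (f : ℕ → M) :
    ((Polynomial.taylor c (Polynomial.monomial j (1 : K))).sum fun i a => a • f i) =
      ∑ i ∈ range (j + 1), (j.choose i) • (c ^ (j - i) • f i) := by
  refine (Polynomial.sum_over_range' _ (f := fun i a => a • f i) (fun i => zero_smul K (f i))
    (j + 1) ?_).trans ?_
  swap
  · refine Finset.sum_congr rfl fun i _ => ?_
    rw [Polynomial.taylor_monomial, Polynomial.coeff_C_mul, Polynomial.coeff_X_add_C_pow, one_mul,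
      ← Nat.cast_smul_eq_nsmul K, smul_smul, mul_comm]
  · rw [Polynomial.natDegree_taylor]
    exact Nat.lt_succ_of_le (Polynomial.natDegree_monomial_le _)

end one

section rep
variable {F A : Type} [Field F] [CharZero F] [Ring A] [Algebra F A] {e : ℕ → A}

open Pool.Agent.R693.W (IsW Lab Fl wd wd_nil wd_cons IsPrimeT) in
/-- The explicit representation. -/
theorem rep (he : IsW F e) (hgen : ∀ x : A, ∃ k, x ∈ Fl F e k) {P : TwoSidedIdeal A}
    (hfib : FibC F A P e) :
    ∃ (B : Type) (_ : Ring B) (_ : Algebra F B) (C : Type) (_ : Fintype C)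
      (_ : DecidableEq C) (D T : C → B) (Z : C → ℕ → B) (ψ : A →ₐ[F] B),
      Sys C D T Z ∧ (∀ n, ψ (e n) = Th D T Z n) ∧ ∀ a, ψ a = 0 ↔ a ∈ P := by
  classical
  obtain ⟨K, V, _, _, _, _, _, φ, μ, s, hφ, hP0, hP1, hsm⟩ := hfib
  set ρ := rhoP (fun j => μ (e j)) with hρ
  have hbr := rhoP_br (K := K) (V := V) he μ
  have hsm' : ∀ v : V, ∃ M, Kl s ρ M v := hsm
  obtain ⟨W, _, _, Φ, C, _, _, κ, D, y, Z, hW, hΦ, hκ, hκs, hsys, hf, h0, -⟩ :=
    multi1 s V (fun c l => EE hsm' c l)
    (fun c hc c' hc' hcc l l' => EE_comm hsm' hbr hcc hc hc' l l')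
    (fun c _ a b => EE_br hsm' hbr c a b)
    (fun c _ v => by
      obtain ⟨M, hM⟩ := EE_kill hsm' v
      exact ⟨M, fun l hl => hM c l hl⟩)
  have huniq : ∀ y z : Module.End K W, (∀ w, Φ (y w) = Φ (z w)) → y = z := fun y z h =>
    LinearMap.ext fun w => hΦ (h w)
  set b : C → Module.End K W := fun c => algebraMap K _ (κ c) with hb
  have hbc : ∀ c x, b c * x = x * b c := fun c x => Algebra.commutes _ _
  set T : C → Module.End K W := fun c => b c + y c with hT
  have hsysT : Sys C D T Z :=
    { DT := fun c => by rw [hT]; beta_reduce; rw [mul_add, add_mul, hbc, hsys.DT]; abel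
      DT' := fun c d hcd => by
        rw [hT]; beta_reduce; rw [mul_add, add_mul, hbc, hsys.DT' c d hcd]
      DD := hsys.DD
      TT := fun c d => by
        have h1 : Commute (b c) (b d + y d) := hbc c _
        have h2 : Commute (y c) (b d + y d) :=
          Commute.add_right (hbc d (y c)).symm (hsys.TT c d)
        exact Commute.add_left h1 h2
      DZ := hsys.DZ
      TZ := fun c d l => by
        rw [hT]; beta_reduce; rw [mul_add, add_mul, hbc, hsys.TZ]
      ZZ := hsys.ZZ
      Z0 := hsys.Z0
      br := hsys.br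
      fin := hsys.fin }
  have hTe : ∀ j w, Φ (Th D T Z j w) = μ (e j) (Φ w) := by
    intro j w
    have h1 : μ (e j) = ρ (Polynomial.monomial j 1) := by
      rw [hρ, rhoP_monomial, one_smul]
    rw [h1, rho_EE hsm', LinearMap.sum_apply]
    have h2 : ∀ c ∈ s, ((Polynomial.taylor c (Polynomial.monomial j (1 : K))).sum
        fun i a => a • EE hsm' c i) (Φ w) =
        ∑ i ∈ range (j + 1), (j.choose i) • (c ^ (j - i) • EE hsm' c i (Φ w)) := by
      intro c _
      rw [taylor_sum, LinearMap.sum_apply]
      rfl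
    rw [Finset.sum_congr rfl h2]
    have h3 : Finset.univ.image κ ⊆ s := by
      intro c hc
      obtain ⟨c', -, rfl⟩ := Finset.mem_image.mp hc
      exact hκs c'
    rw [← Finset.sum_subset h3, Finset.sum_image fun c _ c' _ h => hκ h]
    · unfold Th
      rw [LinearMap.sum_apply, map_sum]
      refine Finset.sum_congr rfl fun c _ => ?_
      rw [show T c = b c + y c from rfl, th_eq (hsys.Z0 c) (hbc c _) (hbc c _), LinearMap.sum_apply,
        map_sum]
      refine Finset.sum_congr rfl fun i _ => ?_
      rw [hf, hb, LinearMap.smul_apply, map_nsmul, Module.End.mul_apply]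
      beta_reduce
      rw [← map_pow, Module.algebraMap_end_apply, map_smul]
    · intro c hc hcκ
      refine Finset.sum_eq_zero fun i _ => ?_
      rw [h0 c hc (fun c' h => hcκ (Finset.mem_image.mpr ⟨c', Finset.mem_univ _, h⟩)), smul_zero,
        smul_zero]
  have hTA : ∀ a, ∃ x : Module.End K W, ∀ w, Φ (x w) = μ a (Φ w) := by
    intro a
    obtain ⟨k, hk⟩ := hgen a
    unfold Fl at hk
    induction hk using Submodule.span_induction with
    | mem z hz =>
      obtain ⟨w, -, rfl⟩ := hz
      induction w with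
      | nil => exact ⟨1, fun w => by rw [wd_nil, map_one]; rfl⟩
      | cons v w ih =>
        obtain ⟨x, hx⟩ := ih
        exact ⟨Th D T Z v * x, fun w => by
          rw [wd_cons, map_mul, Module.End.mul_apply, Module.End.mul_apply, hTe, hx]⟩
    | zero => exact ⟨0, fun w => by rw [map_zero]; exact map_zero _⟩
    | add y z _ _ hy hz =>
      obtain ⟨x, hx⟩ := hy
      obtain ⟨x', hx'⟩ := hz
      exact ⟨x + x', fun w => by
        rw [map_add, LinearMap.add_apply, LinearMap.add_apply, map_add, hx, hx']⟩
    | smul r y _ hy =>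
      obtain ⟨x, hx⟩ := hy
      have h1 : μ (r • y) = algebraMap K _ (φ r) * μ y := by
        rw [Algebra.smul_def, map_mul, hφ]
      exact ⟨φ r • x, fun w => by
        rw [h1, Module.End.mul_apply, Module.algebraMap_end_apply,
          LinearMap.smul_apply, map_smul, hx]⟩
  choose x hx using hTA
  let _ : Algebra F (Module.End K W) := RingHom.toAlgebra'
    ((algebraMap K (Module.End K W)).comp φ)
    (fun c x => Algebra.commutes (R := K) (A := Module.End K W) (φ c) x)
  refine ⟨Module.End K W, inferInstance, inferInstance, C, inferInstance, inferInstance, D, T, Z,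
    { toFun := x
      map_one' := huniq _ _ fun w => by
        rw [hx, map_one]; rfl
      map_mul' := fun a b => huniq _ _ fun w => by
        rw [hx, map_mul, Module.End.mul_apply, Module.End.mul_apply, hx, hx]
      map_zero' := huniq _ _ fun w => by
        rw [hx, map_zero, LinearMap.zero_apply, LinearMap.zero_apply, map_zero]
      map_add' := fun a b => huniq _ _ fun w => by
        rw [hx, map_add, LinearMap.add_apply, LinearMap.add_apply, map_add, hx, hx]
      commutes' := fun r => huniq _ _ fun w => by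
        change Φ (x (algebraMap F A r) w) = Φ (algebraMap K (Module.End K W) (φ r) w)
        rw [hx, hφ, Module.algebraMap_end_apply, Module.algebraMap_end_apply, map_smul] },
    hsysT, fun n => ?_, fun a => ⟨fun h => ?_, fun h => ?_⟩⟩
  · apply huniq
    intro w
    change Φ (x (e n) w) = _
    rw [hx, hTe]
  · have h1 : x a = 0 := h
    obtain ⟨w, hw⟩ := exists_ne (0 : W)
    refine hP1 (Φ w) (fun h => hw (hΦ (by rw [h, map_zero]))) a fun b => ?_
    rw [← hx b w, ← hx a, h1, LinearMap.zero_apply, map_zero]
  · apply huniq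
    intro w
    change Φ (x a w) = Φ ((0 : Module.End K W) w)
    rw [hx, hP0 a h, LinearMap.zero_apply, LinearMap.zero_apply, map_zero]

end rep

end Pool.Agent.H392
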