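import Pool.Agent.H392.Ind
import Pool.Agent.H392.Rep1

/-!
The induced modules with support at several points: smoothness and simplicity.
-/

set_option autoImplicit false
set_option linter.unusedSectionVars false

namespace Pool.Agent.H392

open Finset Pool.Agent.R693.C
open Polynomial (X taylor)

section delta
variable {F : Type} [Field F] [CharZero F] {C : Type} [Fintype C] [DecidableEq C] {N V : Type}
  [AddCommGroup N] [Module F N] [AddCommGroup V] [Module F V] {j : N →ₗ[F] V}
  {lam : Module.End F N →ₐ[F] Module.End F V} {D y : C → Module.End F V}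
  {Zn : C → ℕ → Module.End F N} {b : C → F}

/-- The system on the induced module. -/
lemma IsInd.sys (h : IsInd j lam D y)
    (hZZ : ∀ c d, c ≠ d → ∀ l m, Zn c l * Zn d m = Zn d m * Zn c l) (hZ0 : ∀ c, Zn c 0 = 0)
    (hbr : ∀ c a b, 1 ≤ a → 1 ≤ b →
      Zn c a * Zn c b - Zn c b * Zn c a = ((b : ℤ) - a) • Zn c (a + b - 1))
    (hfin : ∀ c, ∃ M, ∀ l, M ≤ l → Zn c l = 0) :
    Sys C D (fun c => algebraMap F _ (b c) + y c) (fun c l => lam (Zn c l)) := by
  have hbc : ∀ c (x : Module.End F V), algebraMap F _ (b c) * x = x * algebraMap F _ (b c) :=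
    fun c x => Algebra.commutes _ _
  exact
    { DT := fun c => by rw [mul_add, add_mul, hbc, h.Dy]; abel
      DT' := fun c d hcd => by rw [mul_add, add_mul, hbc, h.Dy' c d hcd]
      DD := h.DD
      TT := fun c d => by
        have h1 : Commute (algebraMap F (Module.End F V) (b c))
          (algebraMap F (Module.End F V) (b d) + y d) := hbc c _
        have h2 : Commute (y c) (algebraMap F (Module.End F V) (b d) + y d) :=
          Commute.add_right (hbc d (y c)).symm (h.yy c d)
        exact Commute.add_left h1 h2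
      DZ := fun c d l => h.Dlam c _
      TZ := fun c d l => by rw [mul_add, add_mul, hbc, h.ylam]
      ZZ := fun c d hcd l m => by rw [← map_mul, hZZ c d hcd, map_mul]
      Z0 := fun c => by rw [hZ0, map_zero]
      br := fun c a b ha hb => by
        rw [← map_mul, ← map_mul, ← map_sub, hbr c a b ha hb, map_zsmul]
      fin := fun c => by
        obtain ⟨M, hM⟩ := hfin c
        exact ⟨M, fun l hl => by rw [hM l hl, map_zero]⟩ }

variable (lam D y Zn b) in
/-- The vector fields on the induced module. -/
noncomputable def thV (n : ℕ) : Module.End F V :=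
  Th D (fun c => algebraMap F _ (b c) + y c) (fun c l => lam (Zn c l)) n

variable (lam D y Zn) in
/-- The local vector fields on the induced module. -/
noncomputable def EfV (c : C) (l : ℕ) : Module.End F V :=
  Ef (D c) (y c) (fun l => lam (Zn c l)) l

lemma EfV_def (c : C) (l : ℕ) : EfV lam D y Zn c l =
    (∑ i ∈ range l, (l.choose i) • (y c ^ i * lam (Zn c (l - i)))) + D c * y c ^ l := rfl

lemma thV_eq (hZ0 : ∀ c, Zn c 0 = 0) (n : ℕ) :
    thV lam D y Zn b n = ∑ c, ∑ i ∈ range (n + 1),
      (n.choose i) • (b c ^ (n - i) • EfV lam D y Zn c i) := by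
  unfold thV Th
  refine Finset.sum_congr rfl fun c _ => ?_
  rw [th_eq (by beta_reduce; rw [hZ0, map_zero]) (Algebra.commutes _ _) (Algebra.commutes _ _)]
  refine Finset.sum_congr rfl fun i _ => ?_
  rw [← map_pow, ← Algebra.smul_def]
  rfl

lemma rho_thV (hZ0 : ∀ c, Zn c 0 = 0) (p : Polynomial F) :
    rhoP (thV lam D y Zn b) p =
      ∑ c, (taylor (b c) p).sum fun i a => a • EfV lam D y Zn c i := by
  induction p using Polynomial.induction_on' with
  | add p q hp hq =>
    rw [map_add, hp, hq, ← Finset.sum_add_distrib]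
    refine Finset.sum_congr rfl fun c _ => ?_
    rw [map_add]
    exact (Polynomial.sum_add_index _ _ (fun i a => a • EfV lam D y Zn c i)
      (fun i => zero_smul _ _) (fun i a a' => add_smul _ _ _)).symm
  | monomial n a =>
    have h1 : Polynomial.monomial n a = a • Polynomial.monomial n (1 : F) := by
      rw [Polynomial.smul_monomial, smul_eq_mul, mul_one]
    rw [h1, map_smul, rhoP_monomial, one_smul, thV_eq hZ0, Finset.smul_sum]
    refine Finset.sum_congr rfl fun c _ => ?_
    rw [map_smul, ← taylor_sum]
    rw [Polynomial.sum_smul_index _ _ (fun i a => a • EfV lam D y Zn c i)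
      (fun i => zero_smul _ _)]
    unfold Polynomial.sum
    rw [Finset.smul_sum]
    refine Finset.sum_congr rfl fun i _ => ?_
    rw [smul_smul]

lemma coeff_taylor_of_dvd {c : F} {M : ℕ} {p : Polynomial F} (h : (X - Polynomial.C c) ^ M ∣ p)
    {i : ℕ} (hi : i < M) : (taylor c p).coeff i = 0 := by
  obtain ⟨q, rfl⟩ := h
  rw [Polynomial.taylor_mul, Polynomial.taylor_pow, map_sub, Polynomial.taylor_X,
    Polynomial.taylor_C, add_sub_cancel_right, Polynomial.coeff_X_pow_mul', if_neg (by omega)]

/-- The action of a polynomial on a vector killed by the `E c l`, `l ≥ M`. -/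
lemma rho_apply (hZ0 : ∀ c, Zn c 0 = 0) {M : ℕ} {v : V}
    (hv : ∀ c l, M ≤ l → EfV lam D y Zn c l v = 0) (p : Polynomial F) :
    rhoP (thV lam D y Zn b) p v =
      ∑ c, ∑ i ∈ range M, (taylor (b c) p).coeff i • EfV lam D y Zn c i v := by
  rw [rho_thV hZ0, LinearMap.sum_apply]
  refine Finset.sum_congr rfl fun c _ => ?_
  set q := taylor (b c) p with hq
  rw [Polynomial.sum_over_range' q (f := fun i a => a • EfV lam D y Zn c i)
    (fun i => zero_smul _ _) (max M (q.natDegree + 1)) (by omega), LinearMap.sum_apply]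
  symm
  apply Finset.sum_subset
  · intro i hi
    rw [Finset.mem_range] at hi ⊢
    omega
  · intro i _ hi
    rw [Finset.mem_range, not_lt] at hi
    rw [hv c i hi, smul_zero]

lemma rho_zero (hZ0 : ∀ c, Zn c 0 = 0) {M : ℕ} {v : V}
    (hv : ∀ c l, M ≤ l → EfV lam D y Zn c l v = 0) {p : Polynomial F}
    (hp : ∀ c, (X - Polynomial.C (b c)) ^ M ∣ p) : rhoP (thV lam D y Zn b) p v = 0 := by
  rw [rho_apply hZ0 hv]
  refine Finset.sum_eq_zero fun c _ => Finset.sum_eq_zero fun i hi => ?_
  rw [coeff_taylor_of_dvd (hp c) (Finset.mem_range.mp hi), zero_smul]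

/-- Smoothness. -/
lemma smoothV (h : IsInd j lam D y) (hfin : ∀ c, ∃ M, ∀ l, M ≤ l → Zn c l = 0) (v : V) :
    ∃ M, ∀ c l, M ≤ l → EfV lam D y Zn c l v = 0 := by
  have h1 : ∀ c, ∃ M, ∀ l, M ≤ l → EfV lam D y Zn c l v = 0 := by
    intro c
    obtain ⟨k, hk⟩ := h.ynil c v
    obtain ⟨M, hM⟩ := hfin c
    have hk' : ∀ i, k ≤ i → (y c ^ i) v = 0 := by
      intro i hi
      obtain ⟨i, rfl⟩ := Nat.exists_eq_add_of_le hi
      rw [add_comm, pow_add, Module.End.mul_apply, hk, map_zero]
    refine ⟨k + M, fun l hl => ?_⟩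
    rw [EfV_def, LinearMap.add_apply, LinearMap.sum_apply, Module.End.mul_apply, hk' l (by omega), map_zero,
      add_zero]
    refine Finset.sum_eq_zero fun i hi => ?_
    have hi' := Finset.mem_range.mp hi
    rw [LinearMap.smul_apply]
    rcases Nat.lt_or_ge i k with h2 | h2
    · rw [hM (l - i) (by omega), map_zero, mul_zero, LinearMap.zero_apply, smul_zero]
    · have h3 : y c ^ i * lam (Zn c (l - i)) = lam (Zn c (l - i)) * y c ^ i :=
        (Commute.pow_left (h.ylam c _) i).eq
      rw [h3, Module.End.mul_apply, hk' i h2, map_zero, smul_zero]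
  choose M hM using h1
  refine ⟨∑ c, M c, fun c l hl => hM c l (le_trans ?_ hl)⟩
  exact Finset.single_le_sum (fun _ _ => Nat.zero_le _) (Finset.mem_univ c)

/-- Stable subspaces are stable under the local vector fields. -/
lemma stable_Ef (h : IsInd j lam D y) (hZ0 : ∀ c, Zn c 0 = 0)
    (hfin : ∀ c, ∃ M, ∀ l, M ≤ l → Zn c l = 0) (hb : Function.Injective b)
    {S : Submodule F V} (hS : ∀ n, ∀ v ∈ S, thV lam D y Zn b n v ∈ S) (c : C) (l : ℕ) {v : V}
    (hv : v ∈ S) : EfV lam D y Zn c l v ∈ S := by
  classical
  have hrho : ∀ p : Polynomial F, rhoP (thV lam D y Zn b) p v ∈ S := by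
    intro p
    induction p using Polynomial.induction_on' with
    | add p q hp hq => rw [map_add, LinearMap.add_apply]; exact S.add_mem hp hq
    | monomial n a => rw [rhoP_monomial, LinearMap.smul_apply]; exact S.smul_mem _ (hS n v hv)
  obtain ⟨M, hM⟩ := smoothV h hfin v
  rcases Nat.lt_or_ge l M with hl | hl
  · obtain ⟨ε, hε1, hε2⟩ := exists_eps (Finset.univ.image b) (b c) M
    have h1 := hrho (ε * (X - Polynomial.C (b c)) ^ l)
    rw [rho_apply hZ0 hM, Finset.sum_eq_single c] at h1
    · have h2 : ∀ i ∈ range M, (taylor (b c) (ε * (X - Polynomial.C (b c)) ^ l)).coeff i =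
          if i = l then 1 else 0 := by
        intro i hi
        have hi' := Finset.mem_range.mp hi
        have h3 : ε * (X - Polynomial.C (b c)) ^ l =
            (ε - 1) * (X - Polynomial.C (b c)) ^ l + (X - Polynomial.C (b c)) ^ l := by ring
        rw [h3, map_add, Polynomial.coeff_add,
          coeff_taylor_of_dvd (Dvd.dvd.mul_right hε1 _) hi', zero_add, Polynomial.taylor_pow,
          map_sub, Polynomial.taylor_X, Polynomial.taylor_C, add_sub_cancel_right,
          Polynomial.coeff_X_pow]
      rw [Finset.sum_congr rfl fun i hi => by rw [h2 i hi], Finset.sum_eq_single l] at h1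
      · rw [if_pos rfl, one_smul] at h1
        exact h1
      · intro i _ hi
        rw [if_neg hi, zero_smul]
      · intro hl'
        exact absurd (Finset.mem_range.mpr hl) hl'
    · intro d _ hdc
      refine Finset.sum_eq_zero fun i hi => ?_
      rw [coeff_taylor_of_dvd (Dvd.dvd.mul_right (hε2 (b d) (Finset.mem_image.mpr
        ⟨d, Finset.mem_univ d, rfl⟩) fun h => hdc (hb h)) _) (Finset.mem_range.mp hi), zero_smul]
    · intro hc
      exact absurd (Finset.mem_univ c) hc
  · rw [hM c l hl]
    exact S.zero_mem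

/-- Simplicity. -/
theorem simpleV (h : IsInd j lam D y) (hZ0 : ∀ c, Zn c 0 = 0) {M : C → ℕ}
    (hM1 : ∀ c, 1 ≤ M c) (hM : ∀ c l, M c < l → Zn c l = 0)
    (hinj : ∀ c, Function.Injective (Zn c (M c))) (hb : Function.Injective b)
    (hN : ∀ S : Submodule F N, (∀ c l, ∀ n ∈ S, Zn c l n ∈ S) → S ≠ ⊥ → S = ⊤)
    {S : Submodule F V} (hS : ∀ n, ∀ v ∈ S, thV lam D y Zn b n v ∈ S) (h0 : S ≠ ⊥) : S = ⊤ := by
  classical
  have hfin : ∀ c, ∃ M, ∀ l, M ≤ l → Zn c l = 0 := fun c =>
    ⟨M c + 1, fun l hl => hM c l (by omega)⟩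
  have hE : ∀ c l, ∀ v ∈ S, EfV lam D y Zn c l v ∈ S := fun c l v hv =>
    stable_Ef h hZ0 hfin hb hS c l hv
  have key : ∀ S' : Finset C, ∃ v ∈ S, v ≠ 0 ∧ ∀ c ∈ S', y c v = 0 := by
    intro S'
    induction S' using Finset.induction_on with
    | empty =>
      obtain ⟨v, hv, hv0⟩ := (Submodule.ne_bot_iff _).mp h0
      exact ⟨v, hv, hv0, fun c hc => absurd hc (Finset.notMem_empty c)⟩
    | insert d S' hd ih =>
      obtain ⟨v, hv, hv0, hvy⟩ := ih
      have hex := h.ynil d v
      rcases hk : Nat.find hex with _ | k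
      · have := Nat.find_spec hex
        rw [hk, pow_zero] at this
        exact absurd this hv0
      · have hk1 : (y d ^ (k + 1)) v = 0 := by
          have := Nat.find_spec hex
          rwa [hk] at this
        have hk0 : (y d ^ k) v ≠ 0 := Nat.find_min hex (m := k) (by omega)
        have hk2 : ∀ i, k < i → (y d ^ i) v = 0 := by
          intro i hi
          obtain ⟨i, rfl⟩ := Nat.exists_eq_add_of_le hi
          rw [add_comm, pow_add, Module.End.mul_apply, hk1, map_zero]
        have hEv : EfV lam D y Zn d (k + M d) v =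
            ((k + M d).choose k) • lam (Zn d (M d)) ((y d ^ k) v) := by
          have hMd := hM1 d
          rw [EfV_def, LinearMap.add_apply, LinearMap.sum_apply, Module.End.mul_apply,
            hk2 _ (by omega), map_zero, add_zero, Finset.sum_eq_single k]
          · have h3 : y d ^ k * lam (Zn d (M d)) = lam (Zn d (M d)) * y d ^ k :=
              (Commute.pow_left (h.ylam d _) k).eq
            rw [LinearMap.smul_apply, Nat.add_sub_cancel_left, h3, Module.End.mul_apply]
          · intro i hi hik
            have hi' := Finset.mem_range.mp hi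
            rw [LinearMap.smul_apply]
            rcases Nat.lt_or_ge i k with h2 | h2
            · rw [hM d _ (by omega), map_zero, mul_zero, LinearMap.zero_apply, smul_zero]
            · have h3 : y d ^ i * lam (Zn d (k + M d - i)) = lam (Zn d (k + M d - i)) * y d ^ i :=
                (Commute.pow_left (h.ylam d _) i).eq
              rw [h3, Module.End.mul_apply, hk2 i (by omega), map_zero, smul_zero]
          · intro h2
            exact absurd (Finset.mem_range.mpr (by omega)) h2
        refine ⟨_, hE d (k + M d) v hv, ?_, ?_⟩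
        · rw [hEv]
          intro h1
          rw [← Nat.cast_smul_eq_nsmul F, smul_eq_zero] at h1
          rcases h1 with h1 | h1
          · have h2 : (k + M d).choose k ≠ 0 := (Nat.choose_pos (by omega)).ne'
            exact absurd h1 (Nat.cast_ne_zero.mpr h2)
          · apply hk0
            apply h.laminj _ (hinj d)
            rw [h1, map_zero]
        · intro c hc
          rw [hEv, map_nsmul, ← Module.End.mul_apply, h.ylam, Module.End.mul_apply,
            ← Module.End.mul_apply (y c), (Commute.pow_right (h.yy c d) k).eq,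
            Module.End.mul_apply]
          rcases Finset.mem_insert.mp hc with rfl | hc
          · have h4 : (y c ^ k) (y c v) = 0 := by
              rw [← Module.End.mul_apply, ← pow_succ]
              exact hk1
            rw [h4, map_zero, smul_zero]
          · rw [hvy c hc, map_zero, map_zero, smul_zero]
  obtain ⟨v, hv, hv0, hvy⟩ := key Finset.univ
  obtain ⟨n, hn⟩ := h.ker v fun c => hvy c (Finset.mem_univ c)
  have hEj : ∀ c l, 1 ≤ l → ∀ n, EfV lam D y Zn c l (j n) = j (Zn c l n) := by
    intro c l hl n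
    have hyj : ∀ i, 1 ≤ i → (y c ^ i) (j n) = 0 := by
      intro i hi
      obtain ⟨i, rfl⟩ := Nat.exists_eq_add_of_le' hi
      rw [pow_succ, Module.End.mul_apply, h.yj, map_zero]
    rw [EfV_def, LinearMap.add_apply, LinearMap.sum_apply, Module.End.mul_apply, hyj l hl, map_zero,
      add_zero, Finset.sum_eq_single 0]
    · rw [LinearMap.smul_apply, Nat.choose_zero_right, one_smul, pow_zero, one_mul, Nat.sub_zero,
        h.lamj]
    · intro i _ hi
      have h3 : y c ^ i * lam (Zn c (l - i)) = lam (Zn c (l - i)) * y c ^ i :=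
        (Commute.pow_left (h.ylam c _) i).eq
      rw [LinearMap.smul_apply, h3, Module.End.mul_apply, hyj i (by omega), map_zero, smul_zero]
    · intro h2
      exact absurd (Finset.mem_range.mpr (by omega)) h2
  have hj : S.comap j = ⊤ := by
    apply hN
    · intro c l n hn
      rw [Submodule.mem_comap] at hn ⊢
      rcases Nat.eq_zero_or_pos l with rfl | hl
      · rw [hZ0, LinearMap.zero_apply, map_zero]
        exact S.zero_mem
      · rw [← hEj c l hl]
        exact hE c l _ hn
    · intro h1
      have h2 : n ∈ S.comap j := by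
        rw [Submodule.mem_comap, ← hn]
        exact hv
      rw [h1, Submodule.mem_bot] at h2
      apply hv0
      rw [hn, h2, map_zero]
  apply h.gen S
  · intro n
    have : n ∈ S.comap j := by rw [hj]; trivial
    exact this
  · intro c v hv
    have h1 := hE c 0 v hv
    rw [EfV_def] at h1
    simpa using h1

end delta

end Pool.Agent.H392
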