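import Mathlib

/-!
Weyl pairs over a subalgebra: an isomorphism of subalgebras extends to the algebras generated by
commuting Weyl pairs.  (Stated with the graph of the isomorphism.)
-/

set_option autoImplicit false
set_option linter.unusedSectionVars false

namespace Pool.Agent.H392.Gr

open Polynomial

section one
variable {F : Type} [Field F] [CharZero F] {B : Type} [Ring B] [Algebra F B]

lemma comm_pow {X Y : B} (h : X * Y = Y * X + 1) (k : ℕ) :
    X ^ k * Y = Y * X ^ k + (k : B) * X ^ (k - 1) := by
  induction k with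
  | zero => simp
  | succ k ih =>
    rw [pow_succ', mul_assoc, ih, mul_add, ← mul_assoc, h, Nat.add_sub_cancel]
    rcases k with _ | k
    · simp
    · rw [Nat.add_sub_cancel]
      have h1 : X * ((k + 1 : ℕ) : B) = ((k + 1 : ℕ) : B) * X := (Nat.cast_commute _ _).symm
      rw [← mul_assoc X, h1, mul_assoc _ X, ← pow_succ']
      push_cast
      noncomm_ring

lemma comm_eval {X Y : B} (h : X * Y = Y * X + 1) (P : B[X])
    (hP : ∀ k, P.coeff k * Y = Y * P.coeff k) :
    P.eval X * Y - Y * P.eval X = (derivative P).eval X := by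
  rw [eval_eq_sum_range, derivative_eval, Polynomial.sum_over_range' _ (by simp) (P.natDegree + 1)
    (by omega), Finset.sum_mul, Finset.mul_sum, ← Finset.sum_sub_distrib]
  refine Finset.sum_congr rfl fun k _ => ?_
  rw [mul_assoc, comm_pow h, mul_add, ← mul_assoc, hP, ← mul_assoc, mul_assoc Y]
  noncomm_ring

variable (F) in
include F in
lemma eval_inj {X Y : B} (h : X * Y = Y * X + 1) : ∀ (n : ℕ) (P : B[X]), P.natDegree ≤ n →
    (∀ k, P.coeff k * Y = Y * P.coeff k) → P.eval X = 0 → P = 0 := by
  have hB : ∀ (n : ℕ) (b : B), b * ((n + 1 : ℕ) : B) = 0 → b = 0 := by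
    intro n b hb
    have h1 : ((n + 1 : ℕ) : F) • b = 0 := by
      rw [Nat.cast_smul_eq_nsmul, nsmul_eq_mul]
      rw [← (Nat.cast_commute (n + 1) b).eq] at hb
      exact hb
    rcases smul_eq_zero.mp h1 with h2 | h2
    · exact absurd h2 (Nat.cast_ne_zero.mpr (by omega))
    · exact h2
  intro n
  induction n with
  | zero =>
    intro P hn _ h0
    rw [eq_C_of_natDegree_le_zero hn, eval_C] at h0
    rw [eq_C_of_natDegree_le_zero hn, h0, C_0]
  | succ n ih =>
    intro P hn hP h0
    have h1 := comm_eval h P hP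
    rw [h0, zero_mul, mul_zero, sub_self] at h1
    have h2 : derivative P = 0 := by
      apply ih _ _ _ h1.symm
      · have := natDegree_derivative_le P
        omega
      · intro k
        rw [coeff_derivative, mul_assoc]
        have h3 : ((k : B) + 1) * Y = Y * ((k : B) + 1) := by
          have := (Nat.cast_commute (k + 1) Y).eq
          push_cast at this
          exact this
        rw [h3, ← mul_assoc, hP, mul_assoc]
    have h3 : ∀ k, P.coeff (k + 1) = 0 := by
      intro k
      have h4 : (derivative P).coeff k = 0 := by rw [h2, coeff_zero]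
      rw [coeff_derivative] at h4
      apply hB k
      push_cast
      exact h4
    have h4 : P = C (P.coeff 0) := by
      ext k
      rcases k with _ | k
      · rw [coeff_C_zero]
      · rw [h3, coeff_C, if_neg (by omega)]
    rw [h4, eval_C] at h0
    rw [h4, h0, C_0]

/-- The span of `r X^k`. -/
def PS (R : Subalgebra F B) (X : B) : Submodule F B :=
  Submodule.span F {y | ∃ r ∈ R, ∃ k : ℕ, y = r * X ^ k}

lemma PS_form {R : Subalgebra F B} {X x : B} (hx : x ∈ PS R X) :
    ∃ P : B[X], (∀ k, P.coeff k ∈ R) ∧ P.eval X = x := by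
  unfold PS at hx
  induction hx using Submodule.span_induction with
  | mem y hy =>
    obtain ⟨r, hr, k, rfl⟩ := hy
    refine ⟨monomial k r, fun j => ?_, eval_monomial⟩
    rw [coeff_monomial]
    split_ifs
    · exact hr
    · exact R.zero_mem
  | zero => exact ⟨0, fun k => by rw [coeff_zero]; exact R.zero_mem, eval_zero⟩
  | add y z _ _ hy hz =>
    obtain ⟨P, hP, rfl⟩ := hy
    obtain ⟨Q, hQ, rfl⟩ := hz
    exact ⟨P + Q, fun k => by rw [coeff_add]; exact R.add_mem (hP k) (hQ k), eval_add⟩
  | smul a y _ hy =>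
    obtain ⟨P, hP, rfl⟩ := hy
    refine ⟨C (algebraMap F B a) * P, fun k => ?_, ?_⟩
    · rw [coeff_C_mul]; exact R.mul_mem (R.algebraMap_mem a) (hP k)
    · rw [eval_C_mul, Algebra.smul_def]

/-- If the commutators with `X` preserve `R`, the span contains the algebra generated. -/
lemma adjoin_le_PS {R : Subalgebra F B} {X : B} (hX : ∀ r ∈ R, X * r - r * X ∈ R) :
    ∀ x ∈ Algebra.adjoin F (insert X (R : Set B)), x ∈ PS R X := by
  have hl : ∀ s ∈ Algebra.adjoin F (insert X (R : Set B)), ∀ y ∈ PS R X, s * y ∈ PS R X := by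
    intro s hs
    induction hs using Algebra.adjoin_induction with
    | mem s hs =>
      intro y hy
      unfold PS at hy
      induction hy using Submodule.span_induction with
      | mem y hy =>
        obtain ⟨r, hr, k, rfl⟩ := hy
        rcases hs with rfl | hs
        · have h1 : s * (r * s ^ k) = r * s ^ (k + 1) + (s * r - r * s) * s ^ k := by
            rw [pow_succ']; noncomm_ring
          rw [h1]
          exact Submodule.add_mem _ (Submodule.subset_span ⟨r, hr, k + 1, rfl⟩)
            (Submodule.subset_span ⟨_, hX r hr, k, rfl⟩)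
        · rw [← mul_assoc]
          exact Submodule.subset_span ⟨_, R.mul_mem hs hr, k, rfl⟩
      | zero => rw [mul_zero]; exact Submodule.zero_mem _
      | add y z _ _ hy hz => rw [mul_add]; exact Submodule.add_mem _ hy hz
      | smul a y _ hy => rw [mul_smul_comm]; exact Submodule.smul_mem _ a hy
    | algebraMap a =>
      intro y hy
      rw [← Algebra.smul_def]
      exact Submodule.smul_mem _ a hy
    | add s t _ _ hs ht =>
      intro y hy
      rw [add_mul]
      exact Submodule.add_mem _ (hs y hy) (ht y hy)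
    | mul s t _ _ hs ht =>
      intro y hy
      rw [mul_assoc]
      exact hs _ (ht y hy)
  intro x hx
  have := hl x hx 1 (Submodule.subset_span ⟨1, R.one_mem, 0, by simp⟩)
  rwa [mul_one] at this

end one

section pair
variable {F : Type} [Field F] [CharZero F] {B₁ B₂ : Type} [Ring B₁] [Ring B₂] [Algebra F B₁]
  [Algebra F B₂]

/-- The first component determines the second. -/
def Gra (R : Subalgebra F (B₁ × B₂)) : Prop := ∀ x ∈ R, x.1 = 0 → x.2 = 0

/-- One variable: powers of `X` with coefficients in `R`, detected by commutators with `Y`. -/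
lemma gra_one {R : Subalgebra F (B₁ × B₂)} (h0 : Gra R) {X Y : B₁ × B₂}
    (hXY : X.1 * Y.1 = Y.1 * X.1 + 1) (hY : ∀ r ∈ R, r * Y = Y * r) {x : B₁ × B₂}
    (hx : x ∈ PS R X) (h1 : x.1 = 0) : x.2 = 0 := by
  obtain ⟨P, hP, rfl⟩ := PS_form hx
  have e1 : (P.eval X).1 = (P.map (RingHom.fst B₁ B₂)).eval X.1 := by
    rw [eval_map]
    exact Polynomial.hom_eval₂ P (RingHom.id (B₁ × B₂)) (RingHom.fst B₁ B₂) X
  have e2 : (P.eval X).2 = (P.map (RingHom.snd B₁ B₂)).eval X.2 := by
    rw [eval_map]
    exact Polynomial.hom_eval₂ P (RingHom.id (B₁ × B₂)) (RingHom.snd B₁ B₂) X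
  rw [e1] at h1
  have h2 : P.map (RingHom.fst B₁ B₂) = 0 := by
    apply eval_inj F hXY _ _ le_rfl _ h1
    intro k
    rw [coeff_map]
    exact congrArg Prod.fst (hY _ (hP k))
  have h3 : P.map (RingHom.snd B₁ B₂) = 0 := by
    ext k
    rw [coeff_map, coeff_zero]
    apply h0 _ (hP k)
    have : (P.map (RingHom.fst B₁ B₂)).coeff k = 0 := by rw [h2, coeff_zero]
    rwa [coeff_map] at this
  rw [e2, h3, eval_zero]

/-- Adjoining a Weyl pair commuting with `R`. -/
lemma gra_pair {R : Subalgebra F (B₁ × B₂)} (h0 : Gra R) {T D : B₁ × B₂}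
    (hDT : D * T = T * D + 1) (hT : ∀ r ∈ R, r * T = T * r) (hD : ∀ r ∈ R, r * D = D * r) :
    Gra (Algebra.adjoin F (insert D (insert T (R : Set (B₁ × B₂))))) := by
  -- first `T`
  set R₁ : Subalgebra F (B₁ × B₂) := Algebra.adjoin F (insert T (R : Set (B₁ × B₂))) with hR₁
  have h1 : Gra R₁ := by
    intro x hx hx0
    have hx' : x ∈ PS R T := adjoin_le_PS (fun r hr => by
      rw [← hT r hr, sub_self]; exact R.zero_mem) x hx
    have h2 : T.1 * (-D.1) = (-D.1) * T.1 + 1 := by
      have := congrArg Prod.fst hDT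
      simp only [Prod.fst_mul, Prod.fst_add, Prod.fst_one] at this
      rw [mul_neg, neg_mul, this]
      abel
    exact gra_one h0 (X := T) (Y := -D) h2 (fun r hr => by
      rw [mul_neg, neg_mul, hD r hr]) hx' hx0
  -- then `D`
  have hTD : ∀ r ∈ R₁, r * T = T * r := by
    intro r hr
    have : R₁ ≤ Subalgebra.centralizer F {T} := by
      rw [hR₁, Algebra.adjoin_le_iff]
      rintro y (rfl | hy)
      · exact Subalgebra.mem_centralizer_iff F |>.mpr (by rintro z rfl; rfl)
      · exact Subalgebra.mem_centralizer_iff F |>.mpr (by rintro z rfl; exact (hT y hy).symm)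
    exact ((Subalgebra.mem_centralizer_iff F).mp (this hr) T rfl).symm
  have hDR : ∀ r ∈ R₁, D * r - r * D ∈ R₁ := by
    intro r hr
    rw [hR₁] at hr
    induction hr using Algebra.adjoin_induction with
    | mem y hy =>
      rcases hy with rfl | hy
      · rw [hDT, add_sub_cancel_left]; exact R₁.one_mem
      · rw [← hD y hy, sub_self]; exact R₁.zero_mem
    | algebraMap a =>
      rw [Algebra.commutes, sub_self]; exact R₁.zero_mem
    | add y z _ _ hy hz =>
      have : D * (y + z) - (y + z) * D = (D * y - y * D) + (D * z - z * D) := by noncomm_ring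
      rw [this]; exact R₁.add_mem hy hz
    | mul y z hy' hz' hy hz =>
      have : D * (y * z) - (y * z) * D = (D * y - y * D) * z + y * (D * z - z * D) := by
        noncomm_ring
      rw [this]
      exact R₁.add_mem (R₁.mul_mem hy hz') (R₁.mul_mem hy' hz)
  intro x hx hx0
  have hx1 : x ∈ Algebra.adjoin F (insert D (R₁ : Set (B₁ × B₂))) := by
    refine Algebra.adjoin_mono ?_ hx
    exact Set.insert_subset_insert Algebra.subset_adjoin
  have hx2 := adjoin_le_PS hDR x hx1
  have h2 : D.1 * T.1 = T.1 * D.1 + 1 := by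
    have := congrArg Prod.fst hDT
    simpa using this
  exact gra_one h1 h2 (fun r hr => hTD r hr) hx2 hx0

/-- Adjoining finitely many commuting Weyl pairs commuting with `R`. -/
theorem gra_pairs {C : Type} [DecidableEq C] {R : Subalgebra F (B₁ × B₂)} (h0 : Gra R)
    {T D : C → B₁ × B₂} (hDT : ∀ c, D c * T c = T c * D c + 1)
    (hDT' : ∀ c d, c ≠ d → D c * T d = T d * D c)
    (hTT : ∀ c d, T c * T d = T d * T c) (hDD : ∀ c d, D c * D d = D d * D c)
    (hT : ∀ c, ∀ r ∈ R, r * T c = T c * r) (hD : ∀ c, ∀ r ∈ R, r * D c = D c * r) (s : Finset C) :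
    Gra (Algebra.adjoin F ((R : Set (B₁ × B₂)) ∪ (T '' s ∪ D '' s))) := by
  induction s using Finset.induction_on with
  | empty =>
    have : Algebra.adjoin F ((R : Set (B₁ × B₂)) ∪ (T '' ((∅ : Finset C) : Set C) ∪
        D '' ((∅ : Finset C) : Set C))) = R := by
      simp only [Finset.coe_empty, Set.image_empty, Set.union_empty]
      exact Algebra.adjoin_eq R
    rw [this]; exact h0
  | insert c s hc ih =>
    set R' := Algebra.adjoin F ((R : Set (B₁ × B₂)) ∪ (T '' s ∪ D '' s)) with hR'
    have key : ∀ z : B₁ × B₂, (∀ r ∈ R, r * z = z * r) → (∀ d ∈ s, T d * z = z * T d) →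
        (∀ d ∈ s, D d * z = z * D d) → ∀ r ∈ R', r * z = z * r := by
      intro z h1 h2 h3 r hr
      have : R' ≤ Subalgebra.centralizer F {z} := by
        rw [hR', Algebra.adjoin_le_iff]
        rintro y (hy | ⟨d, hd, rfl⟩ | ⟨d, hd, rfl⟩)
        · exact Subalgebra.mem_centralizer_iff F |>.mpr (by rintro w rfl; exact (h1 y hy).symm)
        · exact Subalgebra.mem_centralizer_iff F |>.mpr (by rintro w rfl; exact (h2 d hd).symm)
        · exact Subalgebra.mem_centralizer_iff F |>.mpr (by rintro w rfl; exact (h3 d hd).symm)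
      exact ((Subalgebra.mem_centralizer_iff F).mp (this hr) z rfl).symm
    have h1 := gra_pair ih (hDT c)
      (key (T c) (hT c) (fun d _ => hTT d c) (fun d hd => hDT' d c (by rintro rfl; exact hc hd)))
      (key (D c) (hD c) (fun d hd => (hDT' c d (by rintro rfl; exact hc hd)).symm)
        (fun d _ => hDD d c))
    intro x hx hx0
    refine h1 x ?_ hx0
    refine Algebra.adjoin_mono ?_ hx
    rintro y (hy | ⟨d, hd, rfl⟩ | ⟨d, hd, rfl⟩)
    · exact Or.inr (Or.inr (Algebra.subset_adjoin (Or.inl hy)))
    · rw [Finset.coe_insert] at hd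
      rcases hd with rfl | hd
      · exact Or.inr (Or.inl rfl)
      · exact Or.inr (Or.inr (Algebra.subset_adjoin (Or.inr (Or.inl ⟨d, hd, rfl⟩))))
    · rw [Finset.coe_insert] at hd
      rcases hd with rfl | hd
      · exact Or.inl rfl
      · exact Or.inr (Or.inr (Algebra.subset_adjoin (Or.inr (Or.inr ⟨d, hd, rfl⟩))))

end pair

end Pool.Agent.H392.Gr
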