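import Pool.Agent.H392.SimpN
import Pool.Agent.H392.Delta
import Pool.Agent.H392.Gr
import Pool.Graph.R_seed8.R693.G.Frac

/-!
Countable dimension, shifting of the points with trivial truncated Witt algebra.
-/

set_option autoImplicit false
set_option linter.unusedSectionVars false

namespace Pool.Agent.H392

open Finset Cardinal Pool.Agent.R693

section rank
variable {F : Type} [Field F] {B : Type} [Ring B] [Algebra F B]

theorem rank_adjoin_le {S : Set B} (hS : S.Countable) : Module.rank F (Algebra.adjoin F S) ≤ ℵ₀ := by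
  have : Countable S := hS
  rw [Algebra.adjoin_eq_range_freeAlgebra_lift]
  have h1 := LinearMap.rank_le_of_surjective
    (FreeAlgebra.lift F ((↑) : S → B)).rangeRestrict.toLinearMap
    (AlgHom.rangeRestrict_surjective _)
  refine h1.trans ?_
  rw [FreeAlgebra.rank_eq, Cardinal.lift_id]
  exact Cardinal.mk_le_aleph0

theorem rank_le_of_adjoin {S : Set B} (hS : S.Countable) (h : Algebra.adjoin F S = ⊤) :
    Module.rank F B ≤ ℵ₀ := by
  have h1 := rank_adjoin_le (F := F) hS
  rw [h] at h1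
  exact (LinearMap.rank_le_of_surjective (⊤ : Subalgebra F B).val.toLinearMap
    (fun x => ⟨⟨x, trivial⟩, rfl⟩)).trans h1

lemma gensOn_countable {C : Type} [Countable C] (D T : C → B) (Z : C → ℕ → B) :
    (gensOn D T Z Set.univ).Countable := by
  have : gensOn D T Z Set.univ ⊆ Set.range D ∪ Set.range T ∪ Set.range fun p : C × ℕ => Z p.1 p.2 := by
    rintro x ⟨c, -, rfl | rfl | ⟨l, rfl⟩⟩
    · exact Or.inl (Or.inl ⟨c, rfl⟩)
    · exact Or.inl (Or.inr ⟨c, rfl⟩)
    · exact Or.inr ⟨(c, l), rfl⟩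
  exact Set.Countable.mono this
    (((Set.countable_range _).union (Set.countable_range _)).union (Set.countable_range _))

end rank

section shift
variable {Δ : Type} [DivisionRing Δ] {C : Type} [Fintype C] [DecidableEq C] {D T : C → Δ}
  {Z : C → ℕ → Δ}

lemma pow_weyl {x y : Δ} (h : x * y = y * x + 1) (n : ℕ) :
    x * y ^ n = y ^ n * x + n • y ^ (n - 1) := by
  induction n with
  | zero => simp
  | succ n ih =>
    rw [pow_succ, ← mul_assoc, ih, add_mul, mul_assoc, h, Nat.add_sub_cancel, mul_add, mul_one,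
      smul_mul_assoc]
    rcases n with _ | n
    · simp
    · rw [Nat.add_sub_cancel, ← pow_succ, ← mul_assoc, ← pow_succ, add_smul (n + 1) 1, one_smul]
      abel

/-- The shifted elements. -/
def zsh (S : Finset C) (Z : C → ℕ → Δ) (c : C) (l : ℕ) : Δ :=
  if c ∈ S then (if l = 1 then -1 else 0) else Z c l

lemma zsh_mem {S : Finset C} {c : C} (h : c ∈ S) (l : ℕ) :
    zsh S Z c l = if l = 1 then -1 else 0 := if_pos h

lemma zsh_notMem {S : Finset C} {c : C} (h : c ∉ S) (l : ℕ) : zsh S Z c l = Z c l := if_neg h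

lemma zsh_sys {S : Finset C} (h : Sys C D T Z) : Sys C D T (zsh S Z) where
  DT := h.DT
  DT' := h.DT'
  DD := h.DD
  TT := h.TT
  DZ c d l := by
    by_cases hd : d ∈ S
    · rw [zsh_mem hd]; split_ifs <;> simp
    · rw [zsh_notMem hd]; exact h.DZ c d l
  TZ c d l := by
    by_cases hd : d ∈ S
    · rw [zsh_mem hd]; split_ifs <;> simp
    · rw [zsh_notMem hd]; exact h.TZ c d l
  ZZ c d hcd l m := by
    by_cases hc : c ∈ S
    · rw [zsh_mem hc]; split_ifs <;> simp
    · by_cases hd : d ∈ S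
      · rw [zsh_mem hd]; split_ifs <;> simp
      · rw [zsh_notMem hc, zsh_notMem hd]; exact h.ZZ c d hcd l m
  Z0 c := by
    by_cases hc : c ∈ S
    · rw [zsh_mem hc, if_neg (by omega)]
    · rw [zsh_notMem hc]; exact h.Z0 c
  br c a b ha hb := by
    by_cases hc : c ∈ S
    · rw [zsh_mem hc, zsh_mem hc, zsh_mem hc]
      by_cases h1 : a = 1
      · by_cases h2 : b = 1
        · subst h1; subst h2; simp
        · rw [if_neg h2, mul_zero, zero_mul, sub_zero, if_neg (by omega), smul_zero]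
      · rw [if_neg h1, mul_zero, zero_mul, sub_zero, if_neg (by omega), smul_zero]
    · rw [zsh_notMem hc, zsh_notMem hc, zsh_notMem hc]; exact h.br c a b ha hb
  fin c := by
    by_cases hc : c ∈ S
    · exact ⟨2, fun l hl => by rw [zsh_mem hc, if_neg (by omega)]⟩
    · obtain ⟨M, hM⟩ := h.fin c
      exact ⟨M, fun l hl => by rw [zsh_notMem hc]; exact hM l hl⟩

/-- Conjugation by the product of the `D c`. -/
theorem exists_delta (h : Sys C D T Z) (hD : ∀ c, D c ≠ 0) (S₀ : Finset C)
    (hS₀ : ∀ c ∈ S₀, ∀ l, Z c l = 0) : ∃ δ : Δ, δ ≠ 0 ∧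
      ∀ n, Th D T Z n * δ = δ * Th D T (zsh S₀ Z) n := by
  have key : ∀ S : Finset C, S ⊆ S₀ → ∃ δ : Δ, δ ≠ 0 ∧
      (∀ c, c ∉ S → δ * D c = D c * δ ∧ δ * T c = T c * δ) ∧ (∀ c l, δ * Z c l = Z c l * δ) ∧
      ∀ c ∈ S, ∀ n, th (D c) (T c) (Z c) n * δ = δ * th (D c) (T c) (zsh S₀ Z c) n := by
    intro S
    induction S using Finset.induction_on with
    | empty =>
      intro _
      exact ⟨1, one_ne_zero, fun c _ => ⟨by simp, by simp⟩, fun c l => by simp,
        fun c hc => absurd hc (Finset.notMem_empty c)⟩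
    | insert d S hd ih =>
      intro hS
      obtain ⟨δ, hδ, h1, h2, h3⟩ := ih ((Finset.subset_insert d S).trans hS)
      have hd₀ : d ∈ S₀ := hS (Finset.mem_insert_self d S)
      refine ⟨δ * D d, mul_ne_zero hδ (hD d), ?_, ?_, ?_⟩
      · intro c hc
        rw [Finset.mem_insert, not_or] at hc
        obtain ⟨h4, h5⟩ := h1 c hc.2
        refine ⟨?_, ?_⟩
        · rw [mul_assoc, h.DD d c, ← mul_assoc, h4, mul_assoc]
        · rw [mul_assoc, h.DT' d c (Ne.symm hc.1), ← mul_assoc, h5, mul_assoc]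
      · intro c l
        rw [mul_assoc, h.DZ, ← mul_assoc, h2, mul_assoc]
      · intro c hc n
        rcases Finset.mem_insert.mp hc with rfl | hcS
        · obtain ⟨h4, h5⟩ := h1 c hd
          have h6 : th (D c) (T c) (Z c) n = D c * T c ^ n := by
            unfold th
            rw [Finset.sum_eq_zero, add_zero]
            intro l _
            rw [hS₀ c hd₀, mul_zero, smul_zero]
          have h7 : th (D c) (T c) (zsh S₀ Z c) n = T c ^ n * D c := by
            unfold th
            rw [pow_weyl (h.DT c)]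
            rcases Nat.eq_zero_or_pos n with rfl | hn
            · rw [Finset.sum_eq_zero]
              · simp
              · intro l hl
                have hl' := Finset.mem_range.mp hl
                rw [zsh_mem hd₀, if_neg (by omega), mul_zero, smul_zero]
            · rw [Finset.sum_eq_single 1]
              · rw [zsh_mem hd₀, if_pos rfl, Nat.choose_one_right, mul_neg, mul_one, smul_neg]
                abel
              · intro l _ hl
                rw [zsh_mem hd₀, if_neg hl, mul_zero, smul_zero]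
              · intro h8
                exact absurd (Finset.mem_range.mpr (by omega)) h8
          have h8 : δ * T c ^ n = T c ^ n * δ := (Commute.pow_right h5 n).eq
          have h4' : δ * D c = D c * δ := h4
          rw [h6, h7, ← mul_assoc, mul_assoc (D c), ← h8, ← mul_assoc, ← h4', mul_assoc, mul_assoc]
        · have hcd : c ≠ d := by rintro rfl; exact hd hcS
          have hc₀ : c ∈ S₀ := hS (Finset.mem_insert_of_mem hcS)
          have h9 : D d * th (D c) (T c) (zsh S₀ Z c) n = th (D c) (T c) (zsh S₀ Z c) n * D d := by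
            have h10 : Commute (D d) (th (D c) (T c) (zsh S₀ Z c) n) := by
              unfold th
              have hT : Commute (D d) (T c) := h.DT' d c (Ne.symm hcd)
              have hDD : Commute (D d) (D c) := h.DD d c
              refine (hDD.mul_right (hT.pow_right n)).add_right ?_
              refine Commute.sum_right _ _ _ fun l _ => ?_
              refine Commute.smul_right ?_ _
              refine (hT.pow_right _).mul_right ?_
              exact (zsh_sys (S := S₀) h).DZ d c l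
            exact h10.eq
          rw [← mul_assoc, h3 c hcS, mul_assoc, mul_assoc, h9]
  obtain ⟨δ, hδ, h1, h2, h3⟩ := key S₀ (Finset.Subset.refl _)
  refine ⟨δ, hδ, fun n => ?_⟩
  unfold Th
  rw [Finset.sum_mul, Finset.mul_sum]
  refine Finset.sum_congr rfl fun c _ => ?_
  by_cases hc : c ∈ S₀
  · exact h3 c hc n
  · have h4 : zsh S₀ Z c = Z c := by
      funext l
      exact zsh_notMem hc l
    rw [h4]
    obtain ⟨h5, h6⟩ := h1 c hc
    have h7 : Commute (th (D c) (T c) (Z c) n) δ := by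
      unfold th
      have hT : Commute (T c) δ := h6.symm
      have hDD : Commute (D c) δ := h5.symm
      refine (hDD.mul_left (hT.pow_left n)).add_left ?_
      refine Commute.sum_left _ _ _ fun l _ => ?_
      refine Commute.smul_left ?_ _
      exact (hT.pow_left _).mul_left (h2 c l).symm
    exact h7.eq

end shift

section toDelta
variable {F : Type} [Field F] [CharZero F] [IsAlgClosed F] [Uncountable F]
  {A : Type} [Ring A] [Algebra F A] {e : ℕ → A}

open Pool.Agent.R693.W (IsW Lab Fl wd wd_nil wd_cons IsPrimeT) in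
/-- The representation in a division ring. -/
theorem toDelta (he : IsW F e) (hgen : ∀ x : A, ∃ k, x ∈ Fl F e k) {Q : TwoSidedIdeal A}
    (hQ : IsPrimeT Q) (h0 : Q ≠ ⊥) (hm : Mart F Q) :
    ∃ (Δ : Type) (_ : DivisionRing Δ) (_ : Algebra F Δ) (C : Type) (_ : Fintype C)
      (_ : DecidableEq C) (D T : C → Δ) (Z : C → ℕ → Δ) (M : C → ℕ) (ψ : A →ₐ[F] Δ),
      Sys C D T Z ∧ (∀ n, ψ (e n) = Th D T Z n) ∧ (∀ a, ψ a = 0 ↔ a ∈ Q) ∧ (∀ c, 1 ≤ M c) ∧
      (∀ c l, M c < l → Z c l = 0) ∧ (∀ c, Z c (M c) ≠ 0) ∧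
      (∀ c, M c = 1 → ∃ μ : F, Z c 1 = algebraMap F Δ μ) ∧
      (∀ s ∈ GZ F Z, ∀ x ∈ GZ F Z, x ≠ 0 →
        (∀ c l, (s * x⁻¹) * Z c l = Z c l * (s * x⁻¹)) → ∃ μ : F, s = μ • x) := by
  classical
  obtain ⟨B, _, _, C, _, _, D, T, Z, ψ, hsys, hψe, hψ, hB1, hB2, hB3, hgens, hmax⟩ :=
    dom hQ (rep he hgen (C.conc he hgen hQ h0)) hgen
  have hrk : Module.rank F B ≤ ℵ₀ := rank_le_of_adjoin (gensOn_countable D T Z) hgens
  obtain ⟨Δ, _, ι, hι, hfr⟩ := G.exists_frac_dom B
  have hcomm : ∀ d : Δ, (∀ r : B, d * ι r = ι r * d) → ∀ x, d * x = x * d := by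
    intro d hd x
    obtain ⟨s, hs, r, hr⟩ := hfr x
    have hs' : ι s ≠ 0 := fun h => hs (hι (by rw [h, map_zero]))
    apply mul_left_cancel₀ hs'
    rw [← mul_assoc, ← hd s, mul_assoc, hr, ← mul_assoc, hr, hd]
  let _ : Algebra F Δ := RingHom.toAlgebra' (ι.comp (algebraMap F B)) (fun k x => hcomm _
    (fun r => by
      rw [RingHom.comp_apply, ← map_mul, ← map_mul, Algebra.commutes]) x)
  let j : B →ₐ[F] Δ := { ι with commutes' := fun k => rfl }
  have hj : Function.Injective j := hι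
  set D₁ : C → Δ := fun c => j (D c) with hD₁
  set T₁ : C → Δ := fun c => j (T c) with hT₁
  set Z₁ : C → ℕ → Δ := fun c l => j (Z c l) with hZ₁
  have hsys₁ : Sys C D₁ T₁ Z₁ := hsys.map j.toRingHom
  have hgcomm : ∀ z : Δ, (∀ c, z * D₁ c = D₁ c * z) → (∀ c, z * T₁ c = T₁ c * z) →
      (∀ c l, z * Z₁ c l = Z₁ c l * z) → ∀ b : B, z * j b = j b * z := by
    intro z h1 h2 h3 b
    have hb : b ∈ Algebra.adjoin F (gensOn D T Z Set.univ) := by rw [hgens]; trivial
    induction hb using Algebra.adjoin_induction with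
    | mem x hx =>
      obtain ⟨c, -, rfl | rfl | ⟨l, rfl⟩⟩ := hx
      · exact h1 c
      · exact h2 c
      · exact h3 c l
    | algebraMap r => rw [AlgHom.commutes]; exact (Algebra.commutes _ _).symm
    | add x y _ _ hx hy => rw [map_add, mul_add, add_mul, hx, hy]
    | mul x y _ _ hx hy => rw [map_mul, ← mul_assoc, hx, mul_assoc, hy, mul_assoc]
  -- the top labels
  set S₀ : Finset C := Finset.univ.filter fun c => ∀ l, Z₁ c l = 0 with hS₀
  have hS₀' : ∀ c ∈ S₀, ∀ l, Z₁ c l = 0 := fun c hc => (Finset.mem_filter.mp hc).2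
  set Z₂ : C → ℕ → Δ := zsh S₀ Z₁ with hZ₂
  have hsys₂ : Sys C D₁ T₁ Z₂ := zsh_sys hsys₁
  have hMex : ∀ c, ∃ m, 1 ≤ m ∧ (∀ l, m < l → Z₂ c l = 0) ∧ Z₂ c m ≠ 0 := by
    intro c
    obtain ⟨M, hM⟩ := hsys₂.fin c
    have hex : ∃ m, ∀ l, m < l → Z₂ c l = 0 := ⟨M, fun l hl => hM l (by omega)⟩
    have hne : ∃ l, Z₂ c l ≠ 0 := by
      by_cases hc : c ∈ S₀
      · refine ⟨1, ?_⟩
        rw [hZ₂, zsh_mem hc, if_pos rfl]
        exact neg_ne_zero.mpr one_ne_zero
      · by_contra hcon
        push Not at hcon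
        apply hc
        rw [hS₀, Finset.mem_filter]
        refine ⟨Finset.mem_univ c, fun l => ?_⟩
        have := hcon l
        rwa [hZ₂, zsh_notMem hc] at this
    obtain ⟨l₀, hl₀⟩ := hne
    have h1 : Nat.find hex ≠ 0 := by
      intro h
      have h2 := Nat.find_spec hex
      rw [h] at h2
      rcases Nat.eq_zero_or_pos l₀ with rfl | hl
      · exact hl₀ (hsys₂.Z0 c)
      · exact hl₀ (h2 l₀ hl)
    refine ⟨Nat.find hex, by omega, Nat.find_spec hex, fun h => ?_⟩
    apply Nat.find_min hex (m := Nat.find hex - 1) (by omega)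
    intro l hl
    rcases Nat.eq_or_lt_of_le (show Nat.find hex ≤ l by omega) with h2 | h2
    · rw [← h2]; exact h
    · exact Nat.find_spec hex l h2
  choose M hM1 hM hx using hMex
  have hDne : ∀ c, D₁ c ≠ 0 := by
    intro c h
    have h1 := hsys₁.DT c
    rw [h, zero_mul, mul_zero, zero_add] at h1
    exact one_ne_zero h1.symm
  obtain ⟨δ, hδ, hδT⟩ := exists_delta hsys₁ hDne S₀ hS₀'
  let ψ' : A →ₐ[F] Δ :=
    { toFun := fun a => δ⁻¹ * j (ψ a) * δ
      map_one' := by rw [map_one, map_one, mul_one, inv_mul_cancel₀ hδ]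
      map_mul' := fun a b => by
        rw [map_mul, map_mul]
        have : δ⁻¹ * j (ψ a) * δ * (δ⁻¹ * j (ψ b) * δ) =
            δ⁻¹ * j (ψ a) * (δ * δ⁻¹) * j (ψ b) * δ := by simp only [mul_assoc]
        rw [this, mul_inv_cancel₀ hδ, mul_one]
        simp only [mul_assoc]
      map_zero' := by rw [map_zero, map_zero, mul_zero, zero_mul]
      map_add' := fun a b => by rw [map_add, map_add, mul_add, add_mul]
      commutes' := fun r => by
        rw [AlgHom.commutes, AlgHom.commutes, mul_assoc, Algebra.commutes, ← mul_assoc,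
          inv_mul_cancel₀ hδ, one_mul] }
  have hψ' : ∀ a, ψ' a = δ⁻¹ * j (ψ a) * δ := fun a => rfl
  have hcs := fun (z : Δ) (hz : ∀ b, z * j b = j b * z) (s x : B) (hx : x ≠ 0)
    (hs : z * j x = j s) => central_scalar hrk j hj hm ψ hψ hmax hz hx hs
  have hGZ : ∀ v ∈ GZ F Z₂, (∃ b : B, j b = v) ∧ (∀ c, v * D₁ c = D₁ c * v) ∧
      ∀ c, v * T₁ c = T₁ c * v := by
    intro v hv
    unfold GZ at hv
    induction hv using Algebra.adjoin_induction with
    | mem x hx =>
      obtain ⟨c, l, rfl⟩ := hx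
      refine ⟨?_, fun d => (hsys₂.DZ d c l).symm, fun d => (hsys₂.TZ d c l).symm⟩
      by_cases hc : c ∈ S₀
      · rw [hZ₂, zsh_mem hc]
        split_ifs
        · exact ⟨-1, by rw [map_neg, map_one]⟩
        · exact ⟨0, map_zero _⟩
      · rw [hZ₂, zsh_notMem hc]
        exact ⟨Z c l, rfl⟩
    | algebraMap r =>
      exact ⟨⟨algebraMap F B r, AlgHom.commutes _ _⟩, fun c => Algebra.commutes _ _,
        fun c => Algebra.commutes _ _⟩
    | add x y _ _ hx hy =>
      obtain ⟨⟨b, hb⟩, h1, h2⟩ := hx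
      obtain ⟨⟨b', hb'⟩, h1', h2'⟩ := hy
      exact ⟨⟨b + b', by rw [map_add, hb, hb']⟩, fun c => by rw [add_mul, mul_add, h1, h1'],
        fun c => by rw [add_mul, mul_add, h2, h2']⟩
    | mul x y _ _ hx hy =>
      obtain ⟨⟨b, hb⟩, h1, h2⟩ := hx
      obtain ⟨⟨b', hb'⟩, h1', h2'⟩ := hy
      exact ⟨⟨b * b', by rw [map_mul, hb, hb']⟩,
        fun c => by rw [mul_assoc, h1', ← mul_assoc, h1, mul_assoc],
        fun c => by rw [mul_assoc, h2', ← mul_assoc, h2, mul_assoc]⟩
  refine ⟨Δ, inferInstance, inferInstance, C, inferInstance, inferInstance, D₁, T₁, Z₂, M, ψ',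
    hsys₂, fun n => ?_, fun a => ?_, hM1, hM, hx, ?_, ?_⟩
  · rw [hψ', hψe, mul_assoc]
    have h1 : j (Th D T Z n) = Th D₁ T₁ Z₁ n := map_Th j.toRingHom D T Z n
    rw [h1, hδT, ← mul_assoc, inv_mul_cancel₀ hδ, one_mul]
  · rw [hψ', ← hψ a, mul_eq_zero, mul_eq_zero, map_eq_zero_iff j hj]
    constructor
    · rintro ((h | h) | h)
      · exact absurd h (inv_ne_zero hδ)
      · exact h
      · exact absurd h hδ
    · intro h
      exact Or.inl (Or.inr h)
  · intro c hc
    by_cases hcS : c ∈ S₀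
    · refine ⟨-1, ?_⟩
      rw [hZ₂, zsh_mem hcS, if_pos rfl, map_neg, map_one]
    · have hZc : ∀ l, Z₂ c l = Z₁ c l := fun l => by rw [hZ₂, zsh_notMem hcS]
      rw [hZc]
      apply hcs (Z₁ c 1) _ (Z c 1) 1 one_ne_zero (by rw [map_one, mul_one])
      apply hgcomm
      · intro d
        exact (hsys₁.DZ d c 1).symm
      · intro d
        exact (hsys₁.TZ d c 1).symm
      · intro d l
        by_cases hcd : c = d
        · subst hcd
          rcases Nat.lt_trichotomy l 1 with hl | rfl | hl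
          · obtain rfl : l = 0 := by omega
            rw [hsys₁.Z0, mul_zero, zero_mul]
          · rfl
          · have h1 := hM c l (by omega)
            rw [hZc] at h1
            rw [h1, mul_zero, zero_mul]
        · exact hsys₁.ZZ c d hcd 1 l
  · intro s hs x hxG hx0 hcomm'
    obtain ⟨⟨s₀, hs₀⟩, hsD, hsT⟩ := hGZ s hs
    obtain ⟨⟨x₀, hx₀⟩, hxD, hxT⟩ := hGZ x hxG
    have hx₀0 : x₀ ≠ 0 := by
      rintro rfl
      exact hx0 (by rw [← hx₀, map_zero])
    obtain ⟨μ, hμ⟩ := hcs (s * x⁻¹) (by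
      apply hgcomm
      · intro c
        have h1 : Commute s (D₁ c) := hsD c
        have h2 : Commute x⁻¹ (D₁ c) := Commute.inv_left₀ (hxD c)
        exact (h1.mul_left h2).eq
      · intro c
        have h1 : Commute s (T₁ c) := hsT c
        have h2 : Commute x⁻¹ (T₁ c) := Commute.inv_left₀ (hxT c)
        exact (h1.mul_left h2).eq
      · intro c l
        by_cases hcS : c ∈ S₀
        · rw [hS₀' c hcS, mul_zero, zero_mul]
        · have h1 := hcomm' c l
          rwa [hZ₂, zsh_notMem hcS] at h1) s₀ x₀ hx₀0 (by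
        rw [hx₀, hs₀, mul_assoc, inv_mul_cancel₀ hx0, mul_one])
    refine ⟨μ, ?_⟩
    rw [Algebra.smul_def, ← hμ, mul_assoc, inv_mul_cancel₀ hx0, mul_one]

end toDelta

end Pool.Agent.H392
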