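import Pool.Agent.H392.Core1
import Pool.Graph.R_seed8.R693.R.Ext

/-!
The simple module with support at nonzero points.
-/

set_option autoImplicit false
set_option linter.unusedSectionVars false

namespace Pool.Agent.H392

open Finset Cardinal Pool.Agent.R693
open Pool.Agent.R693.W (IsW Lab Fl wd wd_nil wd_cons IsPrimeT)

section gra
variable {F : Type} [Field F] [CharZero F] {C : Type} [Fintype C] [DecidableEq C]
  {B₁ B₂ : Type} [Ring B₁] [Ring B₂] [Algebra F B₁] [Algebra F B₂]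

/-- The graph lemma for systems. -/
lemma gra_Th {D₁ T₁ : C → B₁} {Z₁ : C → ℕ → B₁} {D₂ T₂ : C → B₂} {Z₂ : C → ℕ → B₂}
    (h₁ : Sys C D₁ T₁ Z₁) (h₂ : Sys C D₂ T₂ Z₂) {R : Subalgebra F (B₁ × B₂)} (hR : Gr.Gra R)
    (hZ : ∀ c l, (Z₁ c l, Z₂ c l) ∈ R)
    (hT : ∀ c, ∀ r ∈ R, r * (T₁ c, T₂ c) = (T₁ c, T₂ c) * r)
    (hD : ∀ c, ∀ r ∈ R, r * (D₁ c, D₂ c) = (D₁ c, D₂ c) * r) :
    ∃ S : Subalgebra F (B₁ × B₂), Gr.Gra S ∧ ∀ n, (Th D₁ T₁ Z₁ n, Th D₂ T₂ Z₂ n) ∈ S := by
  have h := h₁.prod h₂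
  refine ⟨_, Gr.gra_pairs hR (T := fun c => (T₁ c, T₂ c)) (D := fun c => (D₁ c, D₂ c)) h.DT h.DT'
    h.TT h.DD hT hD Finset.univ, fun n => ?_⟩
  set S := Algebra.adjoin F ((R : Set (B₁ × B₂)) ∪ ((fun c => (T₁ c, T₂ c)) '' (Finset.univ : Finset C) ∪
    (fun c => (D₁ c, D₂ c)) '' (Finset.univ : Finset C))) with hS
  have e1 : (Th D₁ T₁ Z₁ n, Th D₂ T₂ Z₂ n) =
      Th (fun c => (D₁ c, D₂ c)) (fun c => (T₁ c, T₂ c)) (fun c l => (Z₁ c l, Z₂ c l)) n := by
    have h1 := map_Th (RingHom.fst B₁ B₂) (fun c => (D₁ c, D₂ c)) (fun c => (T₁ c, T₂ c))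
      (fun c l => (Z₁ c l, Z₂ c l)) n
    have h2 := map_Th (RingHom.snd B₁ B₂) (fun c => (D₁ c, D₂ c)) (fun c => (T₁ c, T₂ c))
      (fun c l => (Z₁ c l, Z₂ c l)) n
    exact Prod.ext h1.symm h2.symm
  have hDS : ∀ c, (D₁ c, D₂ c) ∈ S := fun c =>
    Algebra.subset_adjoin (Or.inr (Or.inr ⟨c, by simp, rfl⟩))
  have hTS : ∀ c, (T₁ c, T₂ c) ∈ S := fun c =>
    Algebra.subset_adjoin (Or.inr (Or.inl ⟨c, by simp, rfl⟩))
  have hZS : ∀ c l, (Z₁ c l, Z₂ c l) ∈ S := fun c l => Algebra.subset_adjoin (Or.inl (hZ c l))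
  rw [e1]
  unfold Th th
  refine S.sum_mem fun c _ => S.add_mem (S.mul_mem (hDS c) (S.pow_mem (hTS c) n))
    (S.sum_mem fun l _ => ?_)
  exact nsmul_mem (S.mul_mem (S.pow_mem (hTS c) _) (hZS c l)) _

lemma gra_isW {x : ℕ → B₁} {y : ℕ → B₂} {S : Subalgebra F (B₁ × B₂)} (hS : Gr.Gra S)
    (hxy : ∀ n, (x n, y n) ∈ S) (hx : IsW F x) : IsW F y := by
  intro m n k hmn
  have h1 := hS ((x m, y m) * (x n, y n) - (x n, y n) * (x m, y m) -
    ((Lab.c n - Lab.c m : ℤ) : F) • (x k, y k))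
    (S.sub_mem (S.sub_mem (S.mul_mem (hxy m) (hxy n)) (S.mul_mem (hxy n) (hxy m)))
      (S.smul_mem (hxy k) _)) (sub_eq_zero.mpr (hx m n k hmn))
  exact sub_eq_zero.mp h1

lemma gra_ker {A : Type} [Ring A] [Algebra F A] {e : ℕ → A} (hgen : ∀ x : A, ∃ k, x ∈ Fl F e k)
    (ψ₁ : A →ₐ[F] B₁) (ψ₂ : A →ₐ[F] B₂) {S : Subalgebra F (B₁ × B₂)} (hS : Gr.Gra S)
    (hxy : ∀ n, (ψ₁ (e n), ψ₂ (e n)) ∈ S) {a : A} (ha : ψ₁ a = 0) : ψ₂ a = 0 := by
  have h1 : ∀ a, (ψ₁.prod ψ₂) a ∈ S := by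
    intro a
    obtain ⟨k, hk⟩ := hgen a
    unfold Fl at hk
    induction hk using Submodule.span_induction with
    | mem z hz =>
      obtain ⟨w, -, rfl⟩ := hz
      induction w with
      | nil => rw [wd_nil, map_one]; exact S.one_mem
      | cons v w ih => rw [wd_cons, map_mul]; exact S.mul_mem (hxy v) ih
    | zero => rw [map_zero]; exact S.zero_mem
    | add y z _ _ hy hz => rw [map_add]; exact S.add_mem hy hz
    | smul r y _ hy => rw [map_smul]; exact S.smul_mem hy r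
  exact hS _ (h1 a) ha

end gra

section gz
variable {F : Type} [Field F] {Δ : Type} [DivisionRing Δ] [Algebra F Δ] {C : Type}
  {D T : C → Δ} {Z : C → ℕ → Δ}

lemma GZ_comm (h : Sys C D T Z) {v : Δ} (hv : v ∈ GZ F Z) :
    (∀ c, v * D c = D c * v) ∧ ∀ c, v * T c = T c * v := by
  unfold GZ at hv
  induction hv using Algebra.adjoin_induction with
  | mem x hx =>
    obtain ⟨c, l, rfl⟩ := hx
    exact ⟨fun d => (h.DZ d c l).symm, fun d => (h.TZ d c l).symm⟩
  | algebraMap r => exact ⟨fun c => Algebra.commutes _ _, fun c => Algebra.commutes _ _⟩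
  | add x y _ _ hx hy =>
    exact ⟨fun c => by rw [add_mul, mul_add, hx.1, hy.1],
      fun c => by rw [add_mul, mul_add, hx.2, hy.2]⟩
  | mul x y _ _ hx hy =>
    exact ⟨fun c => by rw [mul_assoc, hy.1, ← mul_assoc, hx.1, mul_assoc],
      fun c => by rw [mul_assoc, hy.2, ← mul_assoc, hx.2, mul_assoc]⟩

end gz

section tt
open Polynomial
variable {F : Type} [Field F] {V : Type} [AddCommGroup V] [Module F V]

lemma aeval_seq (θ : ℕ → Module.End F V) (f : V) (Q : F[X]) :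
    aeval (Ext.sh F V) Q (fun m => θ m f) = fun m => C.rhoP θ (Q * X ^ m) f := by
  induction Q using Polynomial.induction_on' with
  | add p q hp hq =>
    rw [map_add, LinearMap.add_apply, hp, hq]
    funext m
    rw [add_mul, map_add, LinearMap.add_apply, Pi.add_apply]
  | monomial n a =>
    rw [aeval_monomial, Module.End.mul_apply, Module.algebraMap_end_apply, Ext.sh_pow_apply]
    funext m
    rw [monomial_mul_X_pow, C.rhoP_monomial, Pi.smul_apply, LinearMap.smul_apply, add_comm]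

end tt

section core
variable {F : Type} [Field F] [CharZero F] [IsAlgClosed F] [Uncountable F]
  {A : Type} [Ring A] [Algebra F A] {e : ℕ → A}

/-- The simple module with support at nonzero points. -/
theorem core (he : IsW F e) (hgen : ∀ x : A, ∃ k, x ∈ Fl F e k)
    (huniv : ∀ (B : Type) [Ring B] [Algebra F B] (y : ℕ → B), IsW F y →
      ∃ ψ : A →ₐ[F] B, ∀ n, ψ (e n) = y n)
    {Q : TwoSidedIdeal A} (hQ : IsPrimeT Q) (h0 : Q ≠ ⊥) (hm : Mart F Q) :
    ∃ (V : Type) (_ : AddCommGroup V) (_ : Module F V) (ψ : A →ₐ[F] Module.End F V)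
      (P : Polynomial F), Nontrivial V ∧ (∀ a, ψ a = 0 ↔ a ∈ Q) ∧
      (∀ S : Submodule F V, (∀ n, ∀ v ∈ S, ψ (e n) v ∈ S) → S ≠ ⊥ → S = ⊤) ∧
      IsUnit (P.coeff 0) ∧ ∀ f : V, (fun m => ψ (e m) f) ∈ Ext.TT (R := F) (M := V) P := by
  classical
  obtain ⟨Δ, _, _, C, _, _, D, T, Z, M, ψ, hsys, hψe, hψ, hM1, hM, hx, hsc, hcen⟩ :=
    toDelta he hgen hQ h0 hm
  have hcount : ({x | ∃ c l, x = Z c l} : Set Δ).Countable := by
    have : {x | ∃ c l, x = Z c l} = Set.range fun p : C × ℕ => Z p.1 p.2 := by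
      ext x
      constructor
      · rintro ⟨c, l, rfl⟩; exact ⟨(c, l), rfl⟩
      · rintro ⟨⟨c, l⟩, rfl⟩; exact ⟨c, l, rfl⟩
    rw [this]
    exact Set.countable_range _
  obtain ⟨N, _, _, hN, hfaith, htop⟩ := exists_N hsys.ZZ hsys.Z0 hsys.br hM1 hM hx hsc hcen
    (rank_adjoin_le hcount)
  let _ : Module F N := Module.compHom N (algebraMap F (GZ F Z))
  have : IsScalarTower F (GZ F Z) N := IsScalarTower.of_algebraMap_smul (fun _ _ => rfl)
  have : SMulCommClass (GZ F Z) F N := IsScalarTower.to_smulCommClass'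
  let μ : GZ F Z →ₐ[F] Module.End F N := Algebra.lsmul F F N
  have hμ : ∀ (g : GZ F Z) (n : N), μ g n = g • n := fun g n => rfl
  let Zn : C → ℕ → Module.End F N := fun c l => μ (zg F Z c l)
  have hZn0 : ∀ c, Zn c 0 = 0 := by
    intro c
    have : zg F Z c 0 = 0 := Subtype.ext (hsys.Z0 c)
    change μ (zg F Z c 0) = 0
    rw [this, map_zero]
  have hZnM : ∀ c l, M c < l → Zn c l = 0 := by
    intro c l hl
    have : zg F Z c l = 0 := Subtype.ext (hM c l hl)
    change μ (zg F Z c l) = 0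
    rw [this, map_zero]
  have hZnZ : ∀ c d, c ≠ d → ∀ l m, Zn c l * Zn d m = Zn d m * Zn c l := by
    intro c d hcd l m
    have : zg F Z c l * zg F Z d m = zg F Z d m * zg F Z c l := Subtype.ext (hsys.ZZ c d hcd l m)
    change μ (zg F Z c l) * μ (zg F Z d m) = μ (zg F Z d m) * μ (zg F Z c l)
    rw [← map_mul, this, map_mul]
  have hZnbr : ∀ c a b, 1 ≤ a → 1 ≤ b →
      Zn c a * Zn c b - Zn c b * Zn c a = ((b : ℤ) - a) • Zn c (a + b - 1) := by
    intro c a b ha hb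
    have : zg F Z c a * zg F Z c b - zg F Z c b * zg F Z c a =
        ((b : ℤ) - a) • zg F Z c (a + b - 1) := Subtype.ext (hsys.br c a b ha hb)
    change μ (zg F Z c a) * μ (zg F Z c b) - μ (zg F Z c b) * μ (zg F Z c a) =
      ((b : ℤ) - a) • μ (zg F Z c (a + b - 1))
    rw [← map_mul, ← map_mul, ← map_sub, this, map_zsmul]
  have hZninj : ∀ c, Function.Injective (Zn c (M c)) := by
    intro c
    rw [injective_iff_map_eq_zero]
    intro n hn
    exact htop c n hn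
  have hfin : ∀ c, ∃ M, ∀ l, M ≤ l → Zn c l = 0 := fun c =>
    ⟨M c + 1, fun l hl => hZnM c l (by omega)⟩
  have hNs : ∀ S : Submodule F N, (∀ c l, ∀ n ∈ S, Zn c l n ∈ S) → S ≠ ⊥ → S = ⊤ := by
    intro S hS hS0
    have hst : ∀ (g : Δ) (hg : g ∈ GZ F Z), ∀ n ∈ S, (⟨g, hg⟩ : GZ F Z) • n ∈ S := by
      intro g hg
      unfold GZ at hg
      induction hg using Algebra.adjoin_induction with
      | mem x hx =>
        obtain ⟨c, l, rfl⟩ := hx
        exact hS c l
      | algebraMap r =>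
        intro n hn
        exact S.smul_mem r hn
      | add x y hx hy ihx ihy =>
        intro n hn
        have : (⟨x + y, (GZ F Z).add_mem hx hy⟩ : GZ F Z) = ⟨x, hx⟩ + ⟨y, hy⟩ := rfl
        rw [this, add_smul]
        exact S.add_mem (ihx n hn) (ihy n hn)
      | mul x y hx hy ihx ihy =>
        intro n hn
        have : (⟨x * y, (GZ F Z).mul_mem hx hy⟩ : GZ F Z) = ⟨x, hx⟩ * ⟨y, hy⟩ := rfl
        rw [this, mul_smul]
        exact ihx _ (ihy n hn)
    let S' : Submodule (GZ F Z) N :=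
      { carrier := S
        add_mem' := S.add_mem
        zero_mem' := S.zero_mem
        smul_mem' := fun g n hn => hst g.1 g.2 n hn }
    rcases eq_bot_or_eq_top S' with h | h
    · exfalso
      apply hS0
      rw [eq_bot_iff]
      intro n hn
      have : n ∈ S' := hn
      rwa [h, Submodule.mem_bot] at this
    · rw [eq_top_iff]
      intro n _
      have : n ∈ S' := by rw [h]; trivial
      exact this
  obtain ⟨V, _, _, j, lam, D', y, hI⟩ := exists_ind F C N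
  let b : C → F := fun c => (((Fintype.equivFin C c : Fin (Fintype.card C)) : ℕ) + 1 : ℕ)
  have hb : Function.Injective b := by
    intro c d hcd
    have h1 : ((Fintype.equivFin C c : Fin (Fintype.card C)) : ℕ) + 1 =
      ((Fintype.equivFin C d : Fin (Fintype.card C)) : ℕ) + 1 := Nat.cast_injective (R := F) hcd
    exact (Fintype.equivFin C).injective (Fin.ext (by omega))
  have hb0 : ∀ c, b c ≠ 0 := fun c => Nat.cast_ne_zero.mpr (by omega)
  have hsysV := hI.sys (b := b) hZnZ hZn0 hZnbr hfin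
  set T' : C → Module.End F V := fun c => algebraMap F _ (b c) + y c with hT'
  set Z' : C → ℕ → Module.End F V := fun c l => lam (Zn c l) with hZ'
  let ν : GZ F Z →ₐ[F] Module.End F V := lam.comp μ
  have hν : ∀ g, ν g = lam (μ g) := fun g => rfl
  have hνc : ∀ g c, ν g * D' c = D' c * ν g ∧ ν g * T' c = T' c * ν g := by
    intro g c
    refine ⟨(hI.Dlam c _).symm, ?_⟩
    change lam (μ g) * (algebraMap F _ (b c) + y c) = (algebraMap F _ (b c) + y c) * lam (μ g)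
    rw [mul_add, add_mul, hI.ylam c, Algebra.commutes]
  have hν0 : ∀ g, ν g = 0 → g = 0 := by
    intro g hg
    apply hfaith
    intro n
    apply hI.inj
    rw [← hμ, ← hI.lamj, ← hν, hg, LinearMap.zero_apply, map_zero]
  -- the graph, in both directions
  obtain ⟨S₁, hS₁, hS₁T⟩ := gra_Th (F := F) hsys hsysV (R := ((GZ F Z).val.prod ν).range)
    (by
      rintro _ ⟨g, rfl⟩ h
      change (g : Δ) = 0 at h
      change ν g = 0
      rw [show g = 0 from Subtype.ext h, map_zero])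
    (fun c l => ⟨zg F Z c l, rfl⟩)
    (by
      rintro c _ ⟨g, rfl⟩
      exact Prod.ext ((GZ_comm hsys g.2).2 c) (hνc g c).2)
    (by
      rintro c _ ⟨g, rfl⟩
      exact Prod.ext ((GZ_comm hsys g.2).1 c) (hνc g c).1)
  obtain ⟨S₂, hS₂, hS₂T⟩ := gra_Th (F := F) hsysV hsys (R := (ν.prod (GZ F Z).val).range)
    (by
      rintro _ ⟨g, rfl⟩ h
      change ν g = 0 at h
      change (g : Δ) = 0
      rw [hν0 g h]
      rfl)
    (fun c l => ⟨zg F Z c l, rfl⟩)
    (by
      rintro c _ ⟨g, rfl⟩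
      exact Prod.ext (hνc g c).2 ((GZ_comm hsys g.2).2 c))
    (by
      rintro c _ ⟨g, rfl⟩
      exact Prod.ext (hνc g c).1 ((GZ_comm hsys g.2).1 c))
  have hW1 : IsW F (fun n => Th D T Z n) := by
    intro m n k hmn
    have h1 := congrArg ψ (he m n k hmn)
    rw [map_sub, map_mul, map_mul, map_smul, hψe, hψe, hψe] at h1
    exact h1
  have hW2 : IsW F (fun n => Th D' T' Z' n) := gra_isW hS₁ hS₁T hW1
  obtain ⟨ψ₂, hψ₂⟩ := huniv _ _ hW2
  have hker : ∀ a, ψ₂ a = 0 ↔ a ∈ Q := by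
    intro a
    rw [← hψ]
    constructor
    · intro h
      refine gra_ker hgen ψ₂ ψ hS₂ (fun n => ?_) h
      rw [hψ₂, hψe]
      exact hS₂T n
    · intro h
      refine gra_ker hgen ψ ψ₂ hS₁ (fun n => ?_) h
      rw [hψ₂, hψe]
      exact hS₁T n
  have hθ : ∀ n, ψ₂ (e n) = thV lam D' y Zn b n := hψ₂
  refine ⟨V, inferInstance, inferInstance, ψ₂, ∏ c, (Polynomial.X - Polynomial.C (b c)), ?_, hker,
    ?_, ?_, ?_⟩
  · have : Nontrivial N := IsSimpleModule.nontrivial (GZ F Z) N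
    exact hI.inj.nontrivial
  · intro S hS hS0
    exact simpleV hI hZn0 hM1 hZnM hZninj hb hNs (fun n v hv => by
      rw [← hθ]; exact hS n v hv) hS0
  · rw [Polynomial.coeff_zero_eq_eval_zero, Polynomial.eval_prod]
    refine IsUnit.mk0 _ (Finset.prod_ne_zero_iff.mpr fun c _ => ?_)
    rw [Polynomial.eval_sub, Polynomial.eval_X, Polynomial.eval_C, zero_sub]
    exact neg_ne_zero.mpr (hb0 c)
  · intro f
    obtain ⟨m, hm⟩ := smoothV hI hfin f
    refine ⟨m, ?_⟩
    have h1 : (fun n => ψ₂ (e n) f) = fun n => thV lam D' y Zn b n f := by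
      funext n
      rw [hθ]
    rw [h1, aeval_seq]
    funext n
    refine rho_zero hZn0 hm fun c => ?_
    apply Dvd.dvd.mul_right
    apply pow_dvd_pow_of_dvd
    exact Finset.dvd_prod_of_mem _ (Finset.mem_univ c)

end core

end Pool.Agent.H392
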