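import Pool.Agent.H392.Core2
import Pool.Agent.H392.Setup
import Pool.Graph.R_seed8.R693.C.Final

/-!
Nonzero primitive ideals of the enveloping algebras of `W` and of `W_{≥-1}`.
-/

set_option autoImplicit false
set_option linter.unusedSectionVars false

namespace Pool.Agent.H392

open Finset Cardinal Pool.Agent.R693 Pool.Agent.R693.W

section rank
variable {F : Type} [Field F] {ι : Type} [Countable ι] {A : Type} [Ring A] [Algebra F A]

lemma rank_of_gen {e : ι → A} (hgen : ∀ x : A, ∃ k, x ∈ Fl F e k) : Module.rank F A ≤ ℵ₀ := by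
  have h1 : Submodule.span F (Set.range fun w : List ι => wd e w) = ⊤ := by
    rw [eq_top_iff]
    intro x _
    obtain ⟨k, hk⟩ := hgen x
    unfold Fl at hk
    refine Submodule.span_mono ?_ hk
    rintro _ ⟨w, -, rfl⟩
    exact ⟨w, rfl⟩
  have h2 := rank_span_le (R := F) (Set.range fun w : List ι => wd e w)
  rw [h1, rank_top] at h2
  refine h2.trans ?_
  rw [Cardinal.mk_le_aleph0_iff]
  exact Set.countable_range _

end rank

section hom
variable {F : Type} [Field F] {R V : Type} [Ring R] [Algebra F R] [AddCommGroup V] [Module F V]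

/-- A representation without invariant subspaces gives a primitive ideal. -/
lemma prim_of_hom (Ψ : R →ₐ[F] Module.End F V) [Nontrivial V]
    (hs : ∀ S : Submodule F V, (∀ r, ∀ v ∈ S, Ψ r v ∈ S) → S ≠ ⊥ → S = ⊤) {P : TwoSidedIdeal R}
    (hP : ∀ a, a ∈ P ↔ Ψ a = 0) : IsPrimitive P := by
  let _ : Module R V := Module.compHom V Ψ.toRingHom
  have hsm : ∀ (r : R) (v : V), r • v = Ψ r v := fun _ _ => rfl
  refine ⟨V, inferInstance, inferInstance, ?_, fun a => ?_⟩
  · rw [isSimpleModule_iff]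
    refine { eq_bot_or_eq_top := fun S => ?_ }
    let S' : Submodule F V :=
      { carrier := S
        add_mem' := S.add_mem
        zero_mem' := S.zero_mem
        smul_mem' := fun r v hv => by
          have h1 : algebraMap F R r • v ∈ S := S.smul_mem _ hv
          rw [hsm, AlgHom.commutes, Module.algebraMap_end_apply] at h1
          exact h1 }
    by_cases h : S' = ⊥
    · left
      rw [eq_bot_iff]
      intro v hv
      have h1 : v ∈ S' := hv
      rwa [h] at h1
    · right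
      have h2 := hs S' (fun r v hv => S.smul_mem r hv) h
      rw [eq_top_iff]
      intro v _
      have h1 : v ∈ S' := by rw [h2]; trivial
      exact h1
  · rw [hP]
    constructor
    · intro h m
      rw [hsm, h, LinearMap.zero_apply]
    · intro h
      exact LinearMap.ext h

end hom

section main
variable {F : Type} [Field F] [CharZero F] [IsAlgClosed F] [Uncountable F] {A Ap : Type} [Ring A]
  [Algebra F A] [Ring Ap] [Algebra F Ap] {e : ℤ → A} {ep : ℕ → Ap}

/-- Rational nonzero primes are primitive, in both algebras. -/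
theorem both_primitive (φ : Ap →ₐ[F] A) (hφ : ∀ n : ℕ, φ (ep n) = e n)
    (hinj : Function.Injective φ) (he : IsW F e) (hgen : ∀ x : A, ∃ k, x ∈ Fl F e k)
    (hgenp : ∀ x : Ap, ∃ k, x ∈ Fl F ep k)
    (huniv : ∀ (B : Type) [Ring B] [Algebra F B] (y : ℤ → B), IsW F y →
      ∃ ψ : A →ₐ[F] B, ∀ n, ψ (e n) = y n)
    (hunivp : ∀ (B : Type) [Ring B] [Algebra F B] (y : ℕ → B), IsW F y →
      ∃ ψ : Ap →ₐ[F] B, ∀ n, ψ (ep n) = y n)
    [NoZeroDivisors A] [Nontrivial A] [NoZeroDivisors Ap] [Nontrivial Ap]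
    (hNV : ∀ d N : ℕ, ∃ n : G ℤ, (∀ i < d, 0 ≤ n i) ∧ eta0 F e d N n ≠ 0)
    {P : TwoSidedIdeal A} (hP : IsPrimeT P) (h0 : P ≠ ⊥) (hm : Mart F (TwoSidedIdeal.comap φ P)) :
    IsPrimitive P ∧ IsPrimitive (TwoSidedIdeal.comap φ P) := by
  obtain ⟨hb1, hb2, -⟩ := restrict_bij φ hφ hinj he hgen hgenp huniv hNV
  set Q := TwoSidedIdeal.comap φ P with hQdef
  have hQ : IsPrimeT Q := hb1 P hP
  have hep : IsW F ep := by
    intro m n k hmn
    apply hinj
    have hmn' : (m : ℤ) + n = k + Lab.one := by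
      have h1 : (Lab.one : ℕ) = 1 := rfl
      have h2 : (Lab.one : ℤ) = 1 := rfl
      rw [h1] at hmn
      rw [h2]
      exact_mod_cast hmn
    have h3 := he m n k hmn'
    rw [map_sub, map_mul, map_mul, map_smul, hφ, hφ, hφ, h3]
    rfl
  have hQ0 : Q ≠ ⊥ := by
    intro h
    apply h0
    apply hb2 P ⊥ hP bot_prime
    have hcb : TwoSidedIdeal.comap φ (⊥ : TwoSidedIdeal A) = ⊥ := by
      ext x
      rw [TwoSidedIdeal.mem_comap, TwoSidedIdeal.mem_bot, TwoSidedIdeal.mem_bot]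
      exact map_eq_zero_iff φ hinj
    rw [hcb]
    exact h
  obtain ⟨V, _, _, ψ, p, hV, hψ, hs, hp, hT⟩ := core hep hgenp hunivp hQ hQ0 hm
  -- simplicity in terms of the generators
  have hρ : ∀ m n j : ℕ, m + n = j + 1 → ψ (ep m) * ψ (ep n) - ψ (ep n) * ψ (ep m) =
      ((n : ℤ) - m) • ψ (ep j) := by
    intro m n j hmn
    have h1 := congrArg ψ (hep m n j hmn)
    rw [map_sub, map_mul, map_mul, map_smul] at h1
    rw [h1, Int.cast_smul_eq_zsmul]
    rfl
  obtain ⟨ρ', hρ'n, hρ'⟩ := Ext.exists_ext hp (fun n => ψ (ep n)) hρ hT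
  have hW : IsW F ρ' := by
    intro m n k hmn
    have h2 : (Lab.one : ℤ) = 1 := rfl
    rw [h2] at hmn
    have hk : m + n - 1 = k := by omega
    have h1 := hρ' m n
    rw [hk] at h1
    change _ = (((n - m : ℤ) : ℤ) : F) • _
    rw [Int.cast_smul_eq_zsmul]
    exact h1
  obtain ⟨Ψ, hΨ⟩ := huniv _ ρ' hW
  have hΨψ : ∀ a, Ψ (φ a) = ψ a := by
    intro a
    obtain ⟨k, hk⟩ := hgenp a
    unfold Fl at hk
    induction hk using Submodule.span_induction with
    | mem z hz =>
      obtain ⟨w, -, rfl⟩ := hz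
      induction w with
      | nil => rw [wd_nil, map_one, map_one, map_one]
      | cons v w ih => rw [wd_cons, map_mul, map_mul, map_mul, ih, hφ, hΨ, hρ'n]
    | zero => rw [map_zero, map_zero, map_zero]
    | add y z _ _ hy hz => rw [map_add, map_add, map_add, hy, hz]
    | smul r y _ hy => rw [map_smul, map_smul, map_smul, hy]
  have hprimQ : IsPrimitive Q := prim_of_hom ψ
    (fun S hS hS0 => hs S (fun n v hv => hS (ep n) v hv) hS0) (fun a => (hψ a).symm)
  -- the annihilator in the large algebra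
  set P' : TwoSidedIdeal A := TwoSidedIdeal.ker Ψ with hP'
  have hP'm : ∀ a, a ∈ P' ↔ Ψ a = 0 := fun a => TwoSidedIdeal.mem_ker Ψ
  have hprimP' : IsPrimitive P' := prim_of_hom Ψ
    (fun S hS hS0 => hs S (fun n v hv => by
      rw [← hΨψ]
      exact hS _ v hv) hS0) hP'm
  have hP'prime : IsPrimeT P' := by
    obtain ⟨M, _, _, h1, h2⟩ := hprimP'
    exact C.prime_of_ann h2
  have hPP' : P' = P := by
    apply hb2 P' P hP'prime hP
    ext a
    rw [TwoSidedIdeal.mem_comap, hP'm, hΨψ, hψ]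
  exact ⟨hPP' ▸ hprimP', hprimQ⟩

open Cardinal in
/-- A nonzero prime is primitive if and only if its restriction is, if and only if it is rational. -/
theorem primitive_iff (φ : Ap →ₐ[F] A) (hφ : ∀ n : ℕ, φ (ep n) = e n)
    (hinj : Function.Injective φ) (he : IsW F e) (hgen : ∀ x : A, ∃ k, x ∈ Fl F e k)
    (hgenp : ∀ x : Ap, ∃ k, x ∈ Fl F ep k)
    (huniv : ∀ (B : Type) [Ring B] [Algebra F B] (y : ℤ → B), IsW F y →
      ∃ ψ : A →ₐ[F] B, ∀ n, ψ (e n) = y n)
    (hunivp : ∀ (B : Type) [Ring B] [Algebra F B] (y : ℕ → B), IsW F y →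
      ∃ ψ : Ap →ₐ[F] B, ∀ n, ψ (ep n) = y n)
    [NoZeroDivisors A] [Nontrivial A] [NoZeroDivisors Ap] [Nontrivial Ap]
    (hNV : ∀ d N : ℕ, ∃ n : G ℤ, (∀ i < d, 0 ≤ n i) ∧ eta0 F e d N n ≠ 0)
    {P : TwoSidedIdeal A} (hP : IsPrimeT P) (h0 : P ≠ ⊥) :
    (IsPrimitive P ↔ IsPrimitive (TwoSidedIdeal.comap φ P)) ∧ (IsPrimitive P ↔ Mart F P) ∧
      (IsPrimitive (TwoSidedIdeal.comap φ P) ↔ Mart F (TwoSidedIdeal.comap φ P)) := by
  have h1 : IsPrimitive P → Mart F P := by
    rintro ⟨M, _, _, hM, h⟩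
    exact mart_of_simple (rank_of_gen hgen) h
  have h2 : Mart F P → Mart F (TwoSidedIdeal.comap φ P) := fun h =>
    h.comap φ hφ he hgen hP h0
  have h3 : Mart F (TwoSidedIdeal.comap φ P) → IsPrimitive P ∧
      IsPrimitive (TwoSidedIdeal.comap φ P) :=
    both_primitive φ hφ hinj he hgen hgenp huniv hunivp hNV hP h0
  have h4 : IsPrimitive (TwoSidedIdeal.comap φ P) → Mart F (TwoSidedIdeal.comap φ P) := by
    rintro ⟨M, _, _, hM, h⟩
    exact mart_of_simple (rank_of_gen hgenp) h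
  exact ⟨⟨fun h => (h3 (h2 (h1 h))).2, fun h => (h3 (h4 h)).1⟩, ⟨h1, fun h => (h3 (h2 h)).1⟩,
    ⟨h4, fun h => (h3 h).2⟩⟩

end main

end Pool.Agent.H392
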