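import Pool.Agent.H392.Rep1

/-!
A prime quotient of the algebra of the points, which is minimal over the given algebra.
-/

set_option autoImplicit false
set_option linter.unusedSectionVars false

namespace Pool.Agent.H392

open Finset Pool.Agent.R693.C Pool.Agent.R693.O Pool.Agent.R693.G
open Pool.Agent.R693.Vir (Quo quo quo_surj quo_eq_zero)
open Pool.Agent.R693.W (IsW Lab Fl wd wd_nil wd_cons IsPrimeT)

section zorn
variable {A : Type*} [Ring A]

/-- Prime ideals maximal among the ideals avoiding a set. -/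
lemma exists_prime_max {P0 : TwoSidedIdeal A} {S : Set A} (hne : S.Nonempty)
    (hmul : ∀ s ∈ S, ∀ t ∈ S, ∃ a, s * a * t ∈ S) (hdisj : ∀ s ∈ S, s ∉ P0) :
    ∃ P, IsPrimeT P ∧ P0 ≤ P ∧ (∀ s ∈ S, s ∉ P) ∧
      ∀ P', P ≤ P' → (∀ s ∈ S, s ∉ P') → P' ≤ P := by
  have hzorn := zorn_le_nonempty₀ {P : TwoSidedIdeal A | P0 ≤ P ∧ ∀ s ∈ S, s ∉ P} (by
    intro c hc hchain y hy
    refine ⟨TwoSidedIdeal.mk' {z | ∃ P ∈ c, z ∈ P} ⟨y, hy, y.zero_mem⟩ ?_ ?_ ?_ ?_, ?_, ?_⟩
    · rintro z z' ⟨P, hP, hz⟩ ⟨P', hP', hz'⟩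
      rcases hchain.total hP hP' with h | h
      · exact ⟨P', hP', P'.add_mem (h hz) hz'⟩
      · exact ⟨P, hP, P.add_mem hz (h hz')⟩
    · rintro z ⟨P, hP, hz⟩
      exact ⟨P, hP, P.neg_mem hz⟩
    · rintro z z' ⟨P, hP, hz⟩
      exact ⟨P, hP, P.mul_mem_left _ _ hz⟩
    · rintro z z' ⟨P, hP, hz⟩
      exact ⟨P, hP, P.mul_mem_right _ _ hz⟩
    · refine ⟨fun z hz => ?_, fun s hs hn => ?_⟩
      · rw [TwoSidedIdeal.mem_mk']
        exact ⟨y, hy, (hc hy).1 hz⟩
      · rw [TwoSidedIdeal.mem_mk'] at hn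
        obtain ⟨P, hP, hn⟩ := hn
        exact (hc hP).2 s hs hn
    · intro P hP z hz
      rw [TwoSidedIdeal.mem_mk']
      exact ⟨P, hP, hz⟩) P0 ⟨le_refl P0, hdisj⟩
  obtain ⟨P, hSP, hP⟩ := hzorn
  have hPx : ∀ s ∈ S, s ∉ P := hP.1.2
  refine ⟨P, ⟨?_, ?_⟩, hSP, hPx, fun P' h1 h2 => hP.2 ⟨hSP.trans h1, h2⟩ h1⟩
  · rintro rfl
    obtain ⟨s, hs⟩ := hne
    exact hPx s hs (TwoSidedIdeal.mem_top _)
  · intro I J hIJ
    by_contra hcon
    push Not at hcon
    have key : ∀ I : TwoSidedIdeal A, ¬ I ≤ P → ∃ s ∈ S, s ∈ P ⊔ I := by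
      intro I hI
      by_contra h
      push Not at h
      have h2 : P ⊔ I ≤ P := hP.2 ⟨hSP.trans le_sup_left, h⟩ le_sup_left
      exact hI (le_sup_right.trans h2)
    obtain ⟨s, hs, hsI⟩ := key I hcon.1
    obtain ⟨t, ht, htJ⟩ := key J hcon.2
    obtain ⟨a, ha⟩ := hmul s hs t ht
    apply hPx _ ha
    rw [TwoSidedIdeal.mem_sup] at hsI htJ
    obtain ⟨p, hp, i, hi, rfl⟩ := hsI
    obtain ⟨p', hp', j, hj, rfl⟩ := htJ
    have h4 : (p + i) * a * (p' + j) = p * (a * (p' + j)) + (i * a * p' + i * a * j) := by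
      noncomm_ring
    rw [h4]
    exact P.add_mem (P.mul_mem_right _ _ hp)
      (P.add_mem (P.mul_mem_left _ _ hp') (hIJ _ (I.mul_mem_right _ _ hi) _ hj))

end zorn

section gens
variable {B B' : Type} [Ring B] [Ring B']

/-- The generators of some points. -/
def gensOn {C : Type} (D T : C → B) (Z : C → ℕ → B) (s : Set C) : Set B :=
  {x | ∃ c ∈ s, x = D c ∨ x = T c ∨ ∃ l, x = Z c l}

lemma Sys.of_injective {C : Type} {D T : C → B} {Z : C → ℕ → B} (f : B →+* B')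
    (hf : Function.Injective f)
    (h : Sys C (fun c => f (D c)) (fun c => f (T c)) (fun c l => f (Z c l))) : Sys C D T Z where
  DT c := hf (by rw [map_mul, h.DT, map_add, map_mul, map_one])
  DT' c d hcd := hf (by rw [map_mul, h.DT' c d hcd, map_mul])
  DD c d := hf (by rw [map_mul, h.DD, map_mul])
  TT c d := hf (by rw [map_mul, h.TT, map_mul])
  DZ c d l := hf (by rw [map_mul, h.DZ, map_mul])
  TZ c d l := hf (by rw [map_mul, h.TZ, map_mul])
  ZZ c d hcd l m := hf (by rw [map_mul, h.ZZ c d hcd, map_mul])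
  Z0 c := hf (by rw [h.Z0, map_zero])
  br c a b ha hb := hf (by rw [map_sub, map_mul, map_mul, h.br c a b ha hb, map_zsmul])
  fin c := by
    obtain ⟨M, hM⟩ := h.fin c
    exact ⟨M, fun l hl => hf (by rw [hM l hl, map_zero])⟩

variable {F : Type} [Field F] [CharZero F] [Algebra F B]

/-- The algebras generated by points are point algebras. -/
lemma Sys.pc {C : Type} {D T : C → B} {Z : C → ℕ → B} (h : Sys C D T Z) (s : Finset C) :
    ∃ m, PC F m (Algebra.adjoin F (gensOn D T Z s)) := by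
  classical
  induction s using Finset.induction_on with
  | empty =>
    refine ⟨0, ?_⟩
    have : gensOn D T Z ((∅ : Finset C) : Set C) = ∅ := by
      ext x
      simp [gensOn]
    rw [this]
    exact Algebra.adjoin_empty F B
  | insert c s hc ih =>
    obtain ⟨m, hm⟩ := ih
    set R₀ := Algebra.adjoin F (gensOn D T Z (s : Set C)) with hR₀
    have key : ∀ z : B, (∀ d ∈ s, D d * z = z * D d) → (∀ d ∈ s, T d * z = z * T d) →
        (∀ d ∈ s, ∀ l, Z d l * z = z * Z d l) → ∀ r ∈ R₀, z * r = r * z := by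
      intro z h1 h2 h3 r hr
      have : R₀ ≤ Subalgebra.centralizer F {z} := by
        rw [hR₀, Algebra.adjoin_le_iff]
        rintro y ⟨d, hd, rfl | rfl | ⟨l, rfl⟩⟩
        · exact Subalgebra.mem_centralizer_iff F |>.mpr (by rintro w rfl; exact (h1 d hd).symm)
        · exact Subalgebra.mem_centralizer_iff F |>.mpr (by rintro w rfl; exact (h2 d hd).symm)
        · exact Subalgebra.mem_centralizer_iff F |>.mpr (by rintro w rfl; exact (h3 d hd l).symm)
      exact (Subalgebra.mem_centralizer_iff F).mp (this hr) z rfl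
    have hne : ∀ d ∈ s, d ≠ c := by rintro d hd rfl; exact hc hd
    have hpt : IsPt F R₀ (D c) (T c) (Z c) :=
      { hD := key _ (fun d _ => h.DD d c) (fun d hd => (h.DT' c d (hne d hd).symm).symm)
          (fun d _ l => (h.DZ c d l).symm)
        hy := key _ (fun d hd => h.DT' d c (hne d hd)) (fun d _ => h.TT d c)
          (fun d _ l => (h.TZ c d l).symm)
        hZ := fun l => key _ (fun d _ => h.DZ d c l) (fun d _ => h.TZ d c l)
          (fun d hd m => h.ZZ d c (hne d hd) m l)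
        hDy := h.DT c
        hDZ := fun l => h.DZ c c l
        hyZ := fun l => h.TZ c c l
        h0 := h.Z0 c
        hbr := fun a b ha hb => by
          rw [h.br c a b ha hb, ← Int.cast_smul_eq_zsmul F]
          push_cast
          rfl
        hfin := h.fin c }
    refine ⟨m + 1, R₀, D c, T c, Z c, hm, hpt, ?_⟩
    apply le_antisymm
    · rw [Algebra.adjoin_le_iff]
      rintro x ⟨d, hd, hx⟩
      rw [Finset.coe_insert] at hd
      rcases hd with rfl | hd
      · rcases hx with rfl | rfl | ⟨l, rfl⟩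
        · exact D_mem _ _ _ _
        · exact y_mem _ _ _ _
        · exact Z_mem _ _ _ _ l
      · exact R0_le _ _ _ _ (Algebra.subset_adjoin ⟨d, hd, hx⟩)
    · unfold ptGen ptSet
      rw [Algebra.adjoin_le_iff]
      have hcs : c ∈ ((insert c s : Finset C) : Set C) := by simp
      rintro x (hx | (rfl | rfl) | ⟨l, rfl⟩)
      · refine Algebra.adjoin_mono ?_ hx
        rintro z ⟨d, hd, hz⟩
        exact ⟨d, by simp [show d ∈ s from hd], hz⟩
      · exact Algebra.subset_adjoin ⟨c, hcs, Or.inl rfl⟩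
      · exact Algebra.subset_adjoin ⟨c, hcs, Or.inr (Or.inl rfl)⟩
      · exact Algebra.subset_adjoin ⟨c, hcs, Or.inr (Or.inr ⟨l, rfl⟩)⟩

end gens

section dom
variable {F A : Type} [Field F] [CharZero F] [Ring A] [Algebra F A] {e : ℕ → A}

/-- The representation in a domain. -/
theorem dom {Q : TwoSidedIdeal A} (hQ : IsPrimeT Q)
    (hrep : ∃ (B : Type) (_ : Ring B) (_ : Algebra F B) (C : Type) (_ : Fintype C)
      (_ : DecidableEq C) (D T : C → B) (Z : C → ℕ → B) (ψ : A →ₐ[F] B),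
      Sys C D T Z ∧ (∀ n, ψ (e n) = Th D T Z n) ∧ ∀ a, ψ a = 0 ↔ a ∈ Q)
    (hgen : ∀ x : A, ∃ k, x ∈ Fl F e k) :
    ∃ (B : Type) (_ : Ring B) (_ : Algebra F B) (C : Type) (_ : Fintype C)
      (_ : DecidableEq C) (D T : C → B) (Z : C → ℕ → B) (ψ : A →ₐ[F] B),
      Sys C D T Z ∧ (∀ n, ψ (e n) = Th D T Z n) ∧ (∀ a, ψ a = 0 ↔ a ∈ Q) ∧ Nontrivial B ∧
      NoZeroDivisors B ∧ IsNoetherianRing B ∧ Algebra.adjoin F (gensOn D T Z Set.univ) = ⊤ ∧
      ∀ I : TwoSidedIdeal B, I ≠ ⊥ → ∃ a, a ∉ Q ∧ ψ a ∈ I := by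
  classical
  obtain ⟨B₀, _, _, C, _, _, D, T, Z, ψ, hsys, hψe, hψ⟩ := hrep
  set G := Algebra.adjoin F (gensOn D T Z Set.univ) with hG
  have hDG : ∀ c, D c ∈ G := fun c => Algebra.subset_adjoin ⟨c, trivial, Or.inl rfl⟩
  have hTG : ∀ c, T c ∈ G := fun c => Algebra.subset_adjoin ⟨c, trivial, Or.inr (Or.inl rfl)⟩
  have hZG : ∀ c l, Z c l ∈ G := fun c l =>
    Algebra.subset_adjoin ⟨c, trivial, Or.inr (Or.inr ⟨l, rfl⟩)⟩
  have hThG : ∀ n, Th D T Z n ∈ G := by
    intro n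
    unfold Th th
    refine G.sum_mem fun c _ => G.add_mem (G.mul_mem (hDG c) (G.pow_mem (hTG c) n))
      (G.sum_mem fun l _ => ?_)
    exact nsmul_mem (G.mul_mem (G.pow_mem (hTG c) _) (hZG c l)) _
  have hψG : ∀ a, ψ a ∈ G := by
    intro a
    obtain ⟨k, hk⟩ := hgen a
    unfold Fl at hk
    induction hk using Submodule.span_induction with
    | mem z hz =>
      obtain ⟨w, -, rfl⟩ := hz
      induction w with
      | nil => rw [wd_nil, map_one]; exact G.one_mem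
      | cons v w ih => rw [wd_cons, map_mul, hψe]; exact G.mul_mem (hThG v) ih
    | zero => rw [map_zero]; exact G.zero_mem
    | add y z _ _ hy hz => rw [map_add]; exact G.add_mem hy hz
    | smul r y _ hy => rw [map_smul]; exact G.smul_mem hy r
  -- the representation in `G`
  set D₁ : C → G := fun c => ⟨D c, hDG c⟩ with hD₁
  set T₁ : C → G := fun c => ⟨T c, hTG c⟩ with hT₁
  set Z₁ : C → ℕ → G := fun c l => ⟨Z c l, hZG c l⟩ with hZ₁
  set ψ₁ : A →ₐ[F] G := ψ.codRestrict G hψG with hψ₁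
  have hsys₁ : Sys C D₁ T₁ Z₁ := Sys.of_injective G.val.toRingHom Subtype.val_injective hsys
  have hψ₁e : ∀ n, ψ₁ (e n) = Th D₁ T₁ Z₁ n := by
    intro n
    apply Subtype.ext
    have h1 := map_Th G.val.toRingHom D₁ T₁ Z₁ n
    change G.val.toRingHom (ψ₁ (e n)) = G.val.toRingHom (Th D₁ T₁ Z₁ n)
    rw [h1]
    exact hψe n
  have hψ₁0 : ∀ a, ψ₁ a = 0 ↔ a ∈ Q := by
    intro a
    rw [← hψ]
    constructor
    · intro h
      exact congrArg Subtype.val h
    · intro h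
      exact Subtype.ext h
  have hgens₁ : Algebra.adjoin F (gensOn D₁ T₁ Z₁ Set.univ) = ⊤ := by
    have h1 := Algebra.adjoin_adjoin_coe_preimage (R := F) (s := gensOn D T Z Set.univ)
    have h2 : ((↑) : Algebra.adjoin F (gensOn D T Z Set.univ) → B₀) ⁻¹' gensOn D T Z Set.univ =
        gensOn D₁ T₁ Z₁ Set.univ := by
      ext x
      constructor
      · rintro ⟨c, hc, h | h | ⟨l, h⟩⟩
        · exact ⟨c, hc, Or.inl (Subtype.ext h)⟩
        · exact ⟨c, hc, Or.inr (Or.inl (Subtype.ext h))⟩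
        · exact ⟨c, hc, Or.inr (Or.inr ⟨l, Subtype.ext h⟩)⟩
      · rintro ⟨c, hc, h | h | ⟨l, h⟩⟩
        · exact ⟨c, hc, Or.inl (congrArg Subtype.val h)⟩
        · exact ⟨c, hc, Or.inr (Or.inl (congrArg Subtype.val h))⟩
        · exact ⟨c, hc, Or.inr (Or.inr ⟨l, congrArg Subtype.val h⟩)⟩
    rw [h2] at h1
    exact h1
  -- the prime ideal
  obtain ⟨P, hP, -, hPd, hPm⟩ := exists_prime_max (A := G) (P0 := ⊥) (S := {s | ∃ u, u ∉ Q ∧ s = ψ₁ u})
    ⟨ψ₁ 1, 1, by
      intro h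
      apply hQ.1
      rwa [← TwoSidedIdeal.one_mem_iff], rfl⟩
    (by
      rintro _ ⟨u, hu, rfl⟩ _ ⟨v, hv, rfl⟩
      by_contra hcon
      push Not at hcon
      have h1 : ∀ x, u * x * v ∈ Q := by
        intro x
        by_contra hx
        exact hcon (ψ₁ x) ⟨u * x * v, hx, by rw [map_mul, map_mul]⟩
      rcases hQ.elt h1 with h | h
      · exact hu h
      · exact hv h)
    (by
      rintro _ ⟨u, hu, rfl⟩ h
      rw [TwoSidedIdeal.mem_bot] at h
      exact hu ((hψ₁0 u).mp h))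
  have hQP : ∀ u, ψ₁ u ∈ P ↔ u ∈ Q := by
    intro u
    constructor
    · intro h
      by_contra hu
      exact hPd _ ⟨u, hu, rfl⟩ h
    · intro h
      rw [(hψ₁0 u).mpr h]
      exact P.zero_mem
  set π : G →ₐ[F] Quo P := quo (F := F) P with hπ
  have hπs : Function.Surjective π := quo_surj (F := F) P
  have hπ0 : ∀ x, π x = 0 ↔ x ∈ P := fun x => quo_eq_zero (F := F) P
  have hsys₂ := hsys₁.map π.toRingHom
  have hgens₂ : Algebra.adjoin F (gensOn (fun c => π (D₁ c)) (fun c => π (T₁ c))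
      (fun c l => π (Z₁ c l)) Set.univ) = ⊤ := by
    have h1 : π '' gensOn D₁ T₁ Z₁ Set.univ = gensOn (fun c => π (D₁ c)) (fun c => π (T₁ c))
      (fun c l => π (Z₁ c l)) Set.univ := by
      ext x
      constructor
      · rintro ⟨_, ⟨c, hc, rfl | rfl | ⟨l, rfl⟩⟩, rfl⟩
        · exact ⟨c, hc, Or.inl rfl⟩
        · exact ⟨c, hc, Or.inr (Or.inl rfl)⟩
        · exact ⟨c, hc, Or.inr (Or.inr ⟨l, rfl⟩)⟩
      · rintro ⟨c, hc, rfl | rfl | ⟨l, rfl⟩⟩
        · exact ⟨_, ⟨c, hc, Or.inl rfl⟩, rfl⟩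
        · exact ⟨_, ⟨c, hc, Or.inr (Or.inl rfl)⟩, rfl⟩
        · exact ⟨_, ⟨c, hc, Or.inr (Or.inr ⟨l, rfl⟩)⟩, rfl⟩
    rw [← h1, ← AlgHom.map_adjoin, hgens₁, Algebra.map_top, AlgHom.range_eq_top]
    exact hπs
  obtain ⟨m, hm⟩ := hsys₂.pc (F := F) Finset.univ
  rw [Finset.coe_univ] at hm
  have hm' : PC F m (⊤ : Subalgebra F (Quo P)) := by
    rw [← hgens₂]; exact hm
  obtain ⟨m', h3⟩ := hm'.ch
  have h4 : PrimeS (⊤ : Subalgebra F (Quo P)) := by
    refine ⟨?_, ?_⟩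
    · intro h
      apply hP.1
      rw [← TwoSidedIdeal.one_mem_iff, ← hπ0, map_one]
      exact h
    · intro y _ z _ h
      obtain ⟨y, rfl⟩ := hπs y
      obtain ⟨z, rfl⟩ := hπs z
      rw [hπ0, hπ0]
      apply hP.elt
      intro x
      rw [← hπ0, map_mul, map_mul]
      exact h _ trivial
  have h5 := chain_main m' F (Quo P) _ h3 h4
  have h6 := (ch_noeth m' _ h3).1
  refine ⟨Quo P, inferInstance, inferInstance, C, inferInstance, inferInstance,
    fun c => π (D₁ c), fun c => π (T₁ c), fun c l => π (Z₁ c l), π.comp ψ₁, hsys₂, fun n => ?_,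
    fun a => ?_, ⟨1, 0, h4.1⟩, ⟨fun {a b} hab => h5 a trivial b trivial hab⟩, ?_, hgens₂, ?_⟩
  · rw [AlgHom.comp_apply, hψ₁e]
    exact map_Th π.toRingHom D₁ T₁ Z₁ n
  · rw [AlgHom.comp_apply, hπ0, hQP]
  · exact isNoetherianRing_of_surjective _ _
      ((⊤ : Subalgebra F (Quo P)).val.toRingHom) (fun z => ⟨⟨z, trivial⟩, rfl⟩)
  · intro I hI
    by_contra hcon
    push Not at hcon
    apply hI
    have hle := hPm (TwoSidedIdeal.comap π I) (fun x hx => by
      rw [TwoSidedIdeal.mem_comap, (hπ0 x).mpr hx]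
      exact I.zero_mem) (by
      rintro _ ⟨u, hu, rfl⟩ h
      rw [TwoSidedIdeal.mem_comap] at h
      exact hcon u hu h)
    rw [eq_bot_iff]
    intro x hx
    obtain ⟨x, rfl⟩ := hπs x
    rw [TwoSidedIdeal.mem_bot, hπ0]
    apply hle
    rw [TwoSidedIdeal.mem_comap]
    exact hx

end dom

end Pool.Agent.H392
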