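import Pool.Agent.H392.Tr2

/-!
Membership in a prime ideal of the enveloping algebra of the Witt algebra is read off from the
coefficients of the translated element.
-/

set_option autoImplicit false
set_option linter.unusedSectionVars false

namespace Pool.Agent.H392.Tr

open Pool.Agent.R693.W
open Pool.Agent.R693.Vir (Quo quo quo_surj quo_eq_zero)

section ideal
variable {F : Type} [Field F] [CharZero F] {A Ap : Type} [Ring A] [Ring Ap] [Algebra F A]
  [Algebra F Ap]

/-- The elements of `A` all of whose coefficients lie in `J`. -/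
noncomputable def KK (τ : A →ₐ[F] HahnSeries ℤ Ap) (J : TwoSidedIdeal Ap) : TwoSidedIdeal A :=
  TwoSidedIdeal.mk' {u | ∀ i, (τ u).coeff i ∈ J}
    (fun i => by rw [map_zero, HahnSeries.coeff_zero]; exact J.zero_mem)
    (fun {x y} hx hy i => by
      rw [map_add, HahnSeries.coeff_add]; exact J.add_mem (hx i) (hy i))
    (fun {x} hx i => by rw [map_neg, HahnSeries.coeff_neg]; exact J.neg_mem (hx i))
    (fun {x y} hy i => by
      obtain ⟨t, -, h1, -⟩ := coeff_mul' (τ x) (τ y) i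
      rw [map_mul, h1]
      exact sum_mem fun p _ => J.mul_mem_left _ _ (hy _))
    (fun {x y} hx i => by
      obtain ⟨t, -, h1, -⟩ := coeff_mul' (τ x) (τ y) i
      rw [map_mul, h1]
      exact sum_mem fun p _ => J.mul_mem_right _ _ (hx _))

lemma mem_KK {τ : A →ₐ[F] HahnSeries ℤ Ap} {J : TwoSidedIdeal Ap} {u : A} :
    u ∈ KK τ J ↔ ∀ i, (τ u).coeff i ∈ J := by
  unfold KK
  rw [TwoSidedIdeal.mem_mk']
  rfl

lemma exists_low {J : TwoSidedIdeal Ap} {f : HahnSeries ℤ Ap} (h : ∃ i, f.coeff i ∉ J) :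
    ∃ i, f.coeff i ∉ J ∧ ∀ j < i, f.coeff j ∈ J := by
  have hs : {i | f.coeff i ∉ J}.IsWF := f.isWF_support.mono (by
    intro i hi h0
    apply hi
    rw [h0]
    exact J.zero_mem)
  refine ⟨hs.min h, hs.min_mem h, fun j hj => ?_⟩
  by_contra hcon
  exact hs.not_lt_min h hcon hj

lemma KK_cp (τ : A →ₐ[F] HahnSeries ℤ Ap) {J : TwoSidedIdeal Ap}
    (hJ : ∀ a b : Ap, a * b ∈ J → a ∈ J ∨ b ∈ J) {u v : A} (h : u * v ∈ KK τ J) :
    u ∈ KK τ J ∨ v ∈ KK τ J := by
  by_contra hcon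
  push Not at hcon
  rw [mem_KK, mem_KK] at hcon
  push Not at hcon
  obtain ⟨a, ha, ha'⟩ := exists_low hcon.1
  obtain ⟨b, hb, hb'⟩ := exists_low hcon.2
  have h1 := mem_KK.mp h (a + b)
  obtain ⟨t, ht, h2, h3⟩ := coeff_mul' (τ u) (τ v) (a + b)
  rw [map_mul, h2] at h1
  have h4 : (a, b) ∈ t := h3 a b rfl
    (fun h => ha (by rw [h]; exact J.zero_mem)) (fun h => hb (by rw [h]; exact J.zero_mem))
  rw [← Finset.add_sum_erase _ _ h4] at h1
  have h5 : ∑ p ∈ t.erase (a, b), (τ u).coeff p.1 * (τ v).coeff p.2 ∈ J := by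
    refine sum_mem fun p hp => ?_
    have h6 := ht p (Finset.mem_of_mem_erase hp)
    rcases lt_trichotomy p.1 a with h7 | h7 | h7
    · exact J.mul_mem_right _ _ (ha' _ h7)
    · exfalso
      apply Finset.ne_of_mem_erase hp
      exact Prod.ext h7 (by change p.2 = b; omega)
    · exact J.mul_mem_left _ _ (hb' _ (by omega))
  have h6 : (τ u).coeff a * (τ v).coeff b ∈ J := by
    have := J.sub_mem h1 h5
    rwa [add_sub_cancel_right] at this
  rcases hJ _ _ h6 with h | h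
  · exact ha h
  · exact hb h

lemma KK_prime (τ : A →ₐ[F] HahnSeries ℤ Ap) {J : TwoSidedIdeal Ap} (h1 : (1 : Ap) ∉ J)
    (hJ : ∀ a b : Ap, a * b ∈ J → a ∈ J ∨ b ∈ J) : IsPrimeT (KK τ J) := by
  apply isPrimeT_of_elt
  · intro h
    apply h1
    have := mem_KK.mp h 0
    rwa [map_one, HahnSeries.coeff_one, if_pos rfl] at this
  · intro a b h
    apply KK_cp τ hJ
    have := h 1
    rwa [mul_one] at this

end ideal

section words
variable {F : Type} [Field F] [CharZero F] {A Ap : Type} [Ring A] [Ring Ap] [Algebra F A]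
  [Algebra F Ap] {e : ℤ → A} {ep : ℕ → Ap}

variable (F) in
/-- Homogeneous elements. -/
def HH (e0 e1 : Ap) (σ : Ap →ₐ[F] HahnSeries ℤ Ap) (w : ℤ) : Submodule F Ap where
  carrier := {u | Top w u (σ u) ∧ Recu e0 w (σ u) ∧ e1 * u - u * e1 = w • u}
  zero_mem' := by
    refine ⟨⟨?_, fun i _ => ?_⟩, fun i => ?_, ?_⟩
    · rw [map_zero, HahnSeries.coeff_zero]
    · rw [map_zero, HahnSeries.coeff_zero]
    · rw [map_zero, HahnSeries.coeff_zero, HahnSeries.coeff_zero]; simp
    · simp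
  add_mem' := by
    rintro u v ⟨⟨h1, h2⟩, h3, h4⟩ ⟨⟨h1', h2'⟩, h3', h4'⟩
    refine ⟨⟨?_, fun i hi => ?_⟩, fun i => ?_, ?_⟩
    · rw [map_add, HahnSeries.coeff_add, h1, h1']
    · rw [map_add, HahnSeries.coeff_add, h2 i hi, h2' i hi, add_zero]
    · rw [map_add, HahnSeries.coeff_add, HahnSeries.coeff_add, smul_add, h3, h3']
      noncomm_ring
    · rw [smul_add, ← h4, ← h4']
      noncomm_ring
  smul_mem' := by
    rintro a u ⟨⟨h1, h2⟩, h3, h4⟩
    refine ⟨⟨?_, fun i hi => ?_⟩, fun i => ?_, ?_⟩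
    · rw [map_smul, HahnSeries.coeff_smul, h1]
    · rw [map_smul, HahnSeries.coeff_smul, h2 i hi, smul_zero]
    · rw [map_smul, HahnSeries.coeff_smul, HahnSeries.coeff_smul, smul_comm, h3, smul_sub,
        mul_smul_comm, smul_mul_assoc]
    · rw [smul_comm, ← h4, smul_sub, mul_smul_comm, smul_mul_assoc]

lemma word_HH (hep : IsW F ep) {σ : Ap →ₐ[F] HahnSeries ℤ Ap}
    (hσ : ∀ n : ℕ, σ (ep n) = YY F ep n) (w : List ℕ) :
    ∃ k, wd ep w ∈ HH F (ep 0) (ep 1) σ k := by
  induction w with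
  | nil =>
    refine ⟨0, ⟨⟨?_, fun i hi => ?_⟩, fun i => ?_, ?_⟩⟩
    · rw [wd_nil, map_one, HahnSeries.coeff_one, if_pos rfl]
    · rw [wd_nil, map_one, HahnSeries.coeff_one, if_neg (by omega)]
    · rw [wd_nil, map_one, HahnSeries.coeff_one, HahnSeries.coeff_one]
      by_cases h : i = 0
      · rw [h]; simp
      · rw [if_neg h]
        by_cases h' : i + 1 = 0
        · rw [if_pos h']; simp
        · rw [if_neg h']; simp
    · rw [wd_nil]; simp
  | cons m w ih =>
    obtain ⟨k, ⟨h1, h2, h3⟩⟩ := ih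
    refine ⟨((m : ℤ) - 1) + k, ⟨?_, ?_, ?_⟩⟩
    · rw [wd_cons, map_mul, hσ]
      exact (YY_top ep m).mul h1
    · rw [wd_cons, map_mul, hσ]
      exact (YY_recu hep m).mul h2
    · rw [wd_cons]
      have h4 : ep 1 * ep m - ep m * ep 1 = ((m : ℤ) - 1) • ep m := by
        rw [hep 1 m m (by
          have : (Lab.one : ℕ) = 1 := rfl
          rw [this]; omega), Int.cast_smul_eq_zsmul]
        rfl
      rw [add_smul, ← smul_mul_assoc, ← mul_smul_comm k, ← h3, ← h4]
      noncomm_ring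

variable (F) in
include F in
lemma comps {Q : TwoSidedIdeal Ap} {e1 : Ap} (t : Finset ℤ) : ∀ y : ℤ → Ap,
    (∀ w ∈ t, e1 * y w - y w * e1 = w • y w) → ∑ w ∈ t, y w ∈ Q → ∀ w ∈ t, y w ∈ Q := by
  classical
  induction t using Finset.induction_on with
  | empty => intro y _ _ w hw; exact absurd hw (Finset.notMem_empty w)
  | insert a t ha ih =>
    intro y hy hs
    have h1 : ∑ w ∈ t, (w - a) • y w ∈ Q := by
      have h2 : ∑ w ∈ t, (w - a) • y w = e1 * (∑ w ∈ insert a t, y w) -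
          (∑ w ∈ insert a t, y w) * e1 - a • ∑ w ∈ insert a t, y w := by
        rw [Finset.mul_sum, Finset.sum_mul, ← Finset.sum_sub_distrib, Finset.smul_sum,
          ← Finset.sum_sub_distrib, Finset.sum_insert ha, hy a (Finset.mem_insert_self a t),
          sub_self, zero_add]
        refine Finset.sum_congr rfl fun w hw => ?_
        rw [hy w (Finset.mem_insert_of_mem hw), sub_smul]
      rw [h2]
      refine Q.sub_mem (Q.sub_mem (Q.mul_mem_left _ _ hs) (Q.mul_mem_right _ _ hs)) ?_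
      have h3 : a • ∑ w ∈ insert a t, y w = (a : Ap) * ∑ w ∈ insert a t, y w := by
        rw [zsmul_eq_mul]
      rw [h3]
      exact Q.mul_mem_left _ _ hs
    have h2 := ih (fun w => (w - a) • y w) (fun w hw => by
      rw [mul_smul_comm, smul_mul_assoc, ← smul_sub, hy w (Finset.mem_insert_of_mem hw),
        smul_comm]) h1
    have h3 : ∀ w ∈ t, y w ∈ Q := by
      intro w hw
      have h4 := h2 w hw
      have h5 : y w = ((w - a : ℤ) : F)⁻¹ • ((w - a) • y w) := by
        rw [← Int.cast_smul_eq_zsmul F, smul_smul, inv_mul_cancel₀, one_smul]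
        rw [Int.cast_ne_zero]
        intro h
        apply ha
        have : w = a := by omega
        rwa [← this]
      rw [h5]
      rw [Algebra.smul_def]
      exact Q.mul_mem_left _ _ h4
    intro w hw
    rcases Finset.mem_insert.mp hw with rfl | hw
    · rw [Finset.sum_insert ha] at hs
      have := Q.sub_mem hs (sum_mem h3)
      rwa [add_sub_cancel_right] at this
    · exact h3 w hw

lemma hom_mem {Q : TwoSidedIdeal Ap} {e0 e1 : Ap} {σ : Ap →ₐ[F] HahnSeries ℤ Ap} {w : ℤ} {u : Ap}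
    (h : u ∈ HH F e0 e1 σ w) (hu : u ∈ Q) (i : ℤ) : (σ u).coeff i ∈ Q := by
  obtain ⟨⟨h1, h2⟩, h3, -⟩ := h
  by_cases hi : w < i
  · rw [h2 i hi]; exact Q.zero_mem
  · have key : ∀ n : ℕ, (σ u).coeff (w - n) ∈ Q := by
      intro n
      induction n with
      | zero => simpa [h1] using hu
      | succ n ih =>
        have h4 := h3 (w - ((n + 1 : ℕ) : ℤ))
        have h5 : w - ((n + 1 : ℕ) : ℤ) + 1 = w - n := by push_cast; ring
        rw [h5, sub_sub_cancel, ← Int.cast_smul_eq_zsmul F] at h4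
        have h6 : (σ u).coeff (w - ((n + 1 : ℕ) : ℤ)) = ((((n + 1 : ℕ) : ℤ) : F))⁻¹ •
            (e0 * (σ u).coeff (w - n) - (σ u).coeff (w - n) * e0) := by
          rw [← h4, smul_smul, inv_mul_cancel₀, one_smul]
          rw [Int.cast_ne_zero]
          omega
        rw [h6, Algebra.smul_def]
        exact Q.mul_mem_left _ _ (Q.sub_mem (Q.mul_mem_left _ _ ih) (Q.mul_mem_right _ _ ih))
    have := key (w - i).toNat
    rwa [Int.toNat_of_nonneg (by omega), sub_sub_cancel] at this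

lemma exists_comps (hep : IsW F ep) (hgenp : ∀ x : Ap, ∃ k, x ∈ Fl F ep k)
    {σ : Ap →ₐ[F] HahnSeries ℤ Ap} (hσ : ∀ n : ℕ, σ (ep n) = YY F ep n) (u : Ap) :
    ∃ (t : Finset ℤ) (y : ℤ → Ap), (∀ w, y w ∈ HH F (ep 0) (ep 1) σ w) ∧ u = ∑ w ∈ t, y w := by
  have h1 : u ∈ ⨆ w, HH F (ep 0) (ep 1) σ w := by
    obtain ⟨k, hk⟩ := hgenp u
    unfold Fl at hk
    refine Submodule.span_induction (p := fun x _ => x ∈ ⨆ w, HH F (ep 0) (ep 1) σ w)
      ?_ (Submodule.zero_mem _) (fun _ _ _ _ h h' => Submodule.add_mem _ h h')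
      (fun a _ _ h => Submodule.smul_mem _ a h) hk
    rintro _ ⟨w, -, rfl⟩
    obtain ⟨k, hk⟩ := word_HH hep hσ w
    exact Submodule.mem_iSup_of_mem k hk
  rw [Submodule.mem_iSup_iff_exists_finsupp] at h1
  obtain ⟨f, hf, hs⟩ := h1
  exact ⟨f.support, f, hf, hs.symm⟩

/-- Membership in an ideal is read off from the coefficients. -/
lemma mem_iff_coeff (hep : IsW F ep) (hgenp : ∀ x : Ap, ∃ k, x ∈ Fl F ep k)
    {σ : Ap →ₐ[F] HahnSeries ℤ Ap} (hσ : ∀ n : ℕ, σ (ep n) = YY F ep n) (Q : TwoSidedIdeal Ap)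
    (u : Ap) : u ∈ Q ↔ ∀ i, (σ u).coeff i ∈ Q := by
  constructor
  · intro hu i
    obtain ⟨t, y, hy, rfl⟩ := exists_comps hep hgenp hσ u
    have h1 := comps F t y (fun w _ => (hy w).2.2) hu
    rw [map_sum, HahnSeries.coeff_sum]
    exact sum_mem fun w hw => hom_mem (hy w) (h1 w hw) i
  · intro h
    obtain ⟨t, y, hy, rfl⟩ := exists_comps hep hgenp hσ u
    clear hgenp
    induction t using Finset.induction_on_max with
    | empty => rw [Finset.sum_empty]; exact Q.zero_mem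
    | insert a s ha ih =>
      have hna : a ∉ s := fun h => lt_irrefl _ (ha a h)
      have h1 : y a ∈ Q := by
        have h2 := h a
        rw [map_sum, HahnSeries.coeff_sum, Finset.sum_insert hna, (hy a).1.1,
          Finset.sum_eq_zero fun w hw => (hy w).1.2 a (ha w hw), add_zero] at h2
        exact h2
      rw [Finset.sum_insert hna]
      refine Q.add_mem h1 (ih fun i => ?_)
      have h2 := h i
      rw [Finset.sum_insert hna, map_add, HahnSeries.coeff_add] at h2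
      have := Q.sub_mem h2 (hom_mem (hy a) h1 i)
      rwa [add_sub_cancel_left] at this

end words

section main
variable {F : Type} [Field F] [CharZero F] {A Ap : Type} [Ring A] [Ring Ap] [Algebra F A]
  [Algebra F Ap] {e : ℤ → A} {ep : ℕ → Ap}

/-- Membership in a prime ideal is read off from the coefficients of the translated element, modulo
the restriction of the ideal. -/
theorem mem_prime_iff (φ : Ap →ₐ[F] A) (hφ : ∀ n : ℕ, φ (ep n) = e n)
    (hinj : Function.Injective φ) (he : IsW F e) (hgen : ∀ x : A, ∃ k, x ∈ Fl F e k)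
    (hgenp : ∀ x : Ap, ∃ k, x ∈ Fl F ep k)
    (huniv : ∀ (B : Type) [Ring B] [Algebra F B] (y : ℤ → B), IsW F y →
      ∃ ψ : A →ₐ[F] B, ∀ n, ψ (e n) = y n)
    [NoZeroDivisors A] [Nontrivial A] [NoZeroDivisors Ap] [Nontrivial Ap]
    (hNV : ∀ d N : ℕ, ∃ n : G ℤ, (∀ i < d, 0 ≤ n i) ∧ eta0 F e d N n ≠ 0) :
    ∃ τ : A →ₐ[F] HahnSeries ℤ Ap, ∀ P : TwoSidedIdeal A, IsPrimeT P → ∀ u : A,
      u ∈ P ↔ ∀ i, (τ u).coeff i ∈ TwoSidedIdeal.comap φ P := by
  have hep : IsW F ep := by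
    intro m n j hmn
    apply hinj
    have h2 : (Lab.one : ℕ) = 1 := rfl
    rw [h2] at hmn
    rw [map_sub, map_mul, map_mul, map_smul, hφ, hφ, hφ]
    exact he m n j (by
      have h2 : (Lab.one : ℤ) = 1 := rfl
      rw [h2]
      exact_mod_cast hmn)
  obtain ⟨hb1, hb2, hb3⟩ := restrict_bij φ hφ hinj he hgen hgenp huniv hNV
  obtain ⟨τ, hτ⟩ := huniv (HahnSeries ℤ Ap) (YY F ep) (YY_isW hep)
  refine ⟨τ, fun P hP u => ?_⟩
  have hσ : ∀ n : ℕ, (τ.comp φ) (ep n) = YY F ep n := fun n => by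
    rw [AlgHom.comp_apply, hφ, hτ]
  set Q := TwoSidedIdeal.comap φ P with hQ
  have hQP : IsPrimeT Q := hb1 P hP
  have hQc : ∀ a b : Ap, a * b ∈ Q → a ∈ Q ∨ b ∈ Q := fun a b h =>
    Pool.Agent.R693.C.cp_one hep hgenp (fun x y h => mul_eq_zero.mp h) hQP h
  have h1 : (1 : Ap) ∉ Q := fun h => hQP.1 ((TwoSidedIdeal.one_mem_iff Q).mp h)
  have h2 : IsPrimeT (KK τ Q) := KK_prime τ h1 hQc
  have h3 : TwoSidedIdeal.comap φ (KK τ Q) = TwoSidedIdeal.comap φ P := by
    ext x
    rw [TwoSidedIdeal.mem_comap, mem_KK, ← hQ]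
    exact (mem_iff_coeff hep hgenp hσ Q x).symm
  have h4 := hb2 _ _ h2 hP h3
  rw [← h4]
  exact mem_KK

end main

end Pool.Agent.H392.Tr
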