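import Pool.Agent.H392.Setup
import Pool.Agent.H392.Tr3

/-!
Homeomorphisms between sets of ideals with the Jacobson topology.
-/

set_option autoImplicit false
set_option linter.unusedSectionVars false

namespace Pool.Agent.H392

open Pool.Agent.R693 Pool.Agent.R693.W

lemma isHomeomorph_generateFrom {X Y : Type} (f : X ≃ Y) {SX : Set (Set X)} {SY : Set (Set Y)}
    (h1 : ∀ O ∈ SY, f ⁻¹' O ∈ SX) (h2 : ∀ O ∈ SX, f.symm ⁻¹' O ∈ SY) :
    @IsHomeomorph X Y (TopologicalSpace.generateFrom SX) (TopologicalSpace.generateFrom SY) f := by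
  let _ : TopologicalSpace X := TopologicalSpace.generateFrom SX
  let _ : TopologicalSpace Y := TopologicalSpace.generateFrom SY
  let g : X ≃ₜ Y :=
    { f with
      continuous_toFun := continuous_generateFrom_iff.mpr fun O hO =>
        TopologicalSpace.isOpen_generateFrom_of_mem (h1 O hO)
      continuous_invFun := continuous_generateFrom_iff.mpr fun O hO =>
        TopologicalSpace.isOpen_generateFrom_of_mem (h2 O hO) }
  exact g.isHomeomorph

/-- A bijection given by restriction is a homeomorphism as soon as membership in the ideals is read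
off from coefficients modulo the restrictions. -/
theorem homeo_of_coeff {F : Type} [Field F] {A Ap : Type} [Ring A] [Ring Ap]
    [Algebra F A] [Algebra F Ap] (φ : Ap →ₐ[F] A) (X : Set (TwoSidedIdeal A))
    (Y : Set (TwoSidedIdeal Ap)) (f : X → Y) (hf : ∀ P : X, (f P).1 = TwoSidedIdeal.comap φ P.1)
    (hbij : Function.Bijective f) (κ : A → ℤ → Ap)
    (hκ : ∀ P ∈ X, ∀ u : A, u ∈ P ↔ ∀ i, κ u i ∈ TwoSidedIdeal.comap φ P) :
    @IsHomeomorph X Y (jacobson X) (jacobson Y) f := by
  have h := isHomeomorph_generateFrom (Equiv.ofBijective f hbij)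
    (SX := {O | ∃ I : TwoSidedIdeal A, O = {P | ¬ I ≤ P.1}})
    (SY := {O | ∃ I : TwoSidedIdeal Ap, O = {P | ¬ I ≤ P.1}}) ?_ ?_
  · exact h
  · rintro _ ⟨J, rfl⟩
    refine ⟨TwoSidedIdeal.span (φ '' {x | x ∈ J}), ?_⟩
    ext P
    have h1 : J ≤ (f P).1 ↔ TwoSidedIdeal.span (φ '' {x | x ∈ J}) ≤ P.1 := by
      rw [hf P, TwoSidedIdeal.span_le]
      constructor
      · rintro h _ ⟨x, hx, rfl⟩
        exact TwoSidedIdeal.mem_comap φ |>.mp (h hx)
      · intro h x hx
        rw [TwoSidedIdeal.mem_comap]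
        exact h ⟨x, hx, rfl⟩
    exact not_congr h1
  · rintro _ ⟨I, rfl⟩
    refine ⟨TwoSidedIdeal.span {y | ∃ u ∈ I, ∃ i, y = κ u i}, ?_⟩
    ext Q
    obtain ⟨P, rfl⟩ := hbij.2 Q
    have h0 : (Equiv.ofBijective f hbij).symm (f P) = P :=
      (Equiv.ofBijective f hbij).symm_apply_apply P
    have h1 : I ≤ P.1 ↔ TwoSidedIdeal.span {y | ∃ u ∈ I, ∃ i, y = κ u i} ≤ (f P).1 := by
      rw [hf P, TwoSidedIdeal.span_le]
      constructor
      · rintro h _ ⟨u, hu, i, rfl⟩
        exact (hκ P.1 P.2 u).mp (h hu) i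
      · intro h u hu
        exact (hκ P.1 P.2 u).mpr fun i => h ⟨u, hu, i, rfl⟩
    change ¬ I ≤ ((Equiv.ofBijective f hbij).symm (f P)).1 ↔ _
    rw [h0]
    exact not_congr h1

end Pool.Agent.H392
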