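import Pool.Agent.H392.Sys
import Pool.Graph.R_seed8.R693.C.Point

/-!
The induced module: polynomials in the `D c` with coefficients in `N`.
-/

set_option autoImplicit false
set_option linter.unusedSectionVars false

namespace Pool.Agent.H392

open Finset Pool.Agent.R693.C

section one
variable {F : Type} [Field F] [CharZero F] {U : Type} [AddCommGroup U] [Module F U]

lemma hU_coeff (g : Module.End F U) (f : ℕ →₀ U) (k : ℕ) : (hU F U g f) k = g (f k) := by
  change (Finsupp.mapRange.linearMap g f) k = _
  simp

lemma hU_inj {g : Module.End F U} (hg : Function.Injective g) : Function.Injective (hU F U g) := by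
  intro f f' h
  ext k
  apply hg
  rw [← hU_coeff, ← hU_coeff, h]

lemma Dh_inj : Function.Injective (Dh F U) := by
  have h1 : ∀ f : ℕ →₀ U, ∀ k, (Dh F U f) (k + 1) = f k := by
    intro f k
    induction f using Finsupp.induction_linear with
    | zero => simp
    | add f g hf hg => rw [map_add (Dh F U), Finsupp.add_apply, Finsupp.add_apply, hf, hg]
    | single m v =>
      rw [Dh_single, Finsupp.single_apply, Finsupp.single_apply]
      simp
  intro f f' h
  ext k
  rw [← h1 f, ← h1 f', h]

lemma yh_coeff (f : ℕ →₀ U) (k : ℕ) : (yh F U f) k = (-((k : F) + 1)) • f (k + 1) := by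
  induction f using Finsupp.induction_linear with
  | zero => simp
  | add f g hf hg => rw [map_add (yh F U), Finsupp.add_apply, Finsupp.add_apply, hf, hg, smul_add]
  | single m v =>
    rw [yh_single, Finsupp.smul_apply, Finsupp.single_apply, Finsupp.single_apply]
    rcases m with _ | m
    · simp
    · by_cases h : m = k
      · subst h
        simp
      · have h1 : ¬ (m + 1 - 1 = k) := by omega
        have h2 : ¬ (m + 1 = k + 1) := by omega
        rw [if_neg h1, if_neg h2, smul_zero, smul_zero]

lemma yh_nil (f : ℕ →₀ U) : ∃ k, (yh F U ^ k) f = 0 := by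
  have key : ∀ m : ℕ, ∀ v : U, (yh F U ^ (m + 1)) (Finsupp.single m v) = 0 := by
    intro m
    induction m with
    | zero => intro v; exact yh_zero (by omega) v
    | succ m ih =>
      intro v
      rw [pow_succ, Module.End.mul_apply, yh_single, Nat.add_sub_cancel, map_smul, ih, smul_zero]
  induction f using Finsupp.induction_linear with
  | zero => exact ⟨0, map_zero _⟩
  | add f g hf hg =>
    obtain ⟨k, hk⟩ := hf
    obtain ⟨l, hl⟩ := hg
    refine ⟨k + l, ?_⟩
    rw [map_add, pow_add]
    have h1 : (yh F U ^ k * yh F U ^ l) f = 0 := by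
      rw [(Commute.refl (yh F U)).pow_pow k l, Module.End.mul_apply, hk, map_zero]
    have h2 : (yh F U ^ k * yh F U ^ l) g = 0 := by
      rw [Module.End.mul_apply, hl, map_zero]
    rw [h1, h2, add_zero]
  | single m v => exact ⟨m + 1, key m v⟩

lemma hU_nil {g : Module.End F U} (hg : ∀ v, ∃ k, (g ^ k) v = 0) (f : ℕ →₀ U) :
    ∃ k, ((hU F U g) ^ k) f = 0 := by
  have hc : ∀ k, (hU F U g) ^ k = hU F U (g ^ k) := fun k => (map_pow (hU F U) g k).symm
  induction f using Finsupp.induction_linear with
  | zero => exact ⟨0, map_zero _⟩
  | add f f' hf hf' =>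
    obtain ⟨k, hk⟩ := hf
    obtain ⟨l, hl⟩ := hf'
    refine ⟨k + l, ?_⟩
    rw [map_add, pow_add]
    have h1 : (hU F U g ^ k * hU F U g ^ l) f = 0 := by
      rw [(Commute.refl (hU F U g)).pow_pow k l, Module.End.mul_apply, hk, map_zero]
    have h2 : (hU F U g ^ k * hU F U g ^ l) f' = 0 := by
      rw [Module.End.mul_apply, hl, map_zero]
    rw [h1, h2, add_zero]
  | single m v =>
    obtain ⟨k, hk⟩ := hg v
    exact ⟨k, by rw [hc, hU_single, hk, Finsupp.single_zero]⟩

end one

/-- The properties of the induced module. -/
structure IsInd {F : Type} [Field F] {C : Type} {N V : Type} [AddCommGroup N] [Module F N]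
    [AddCommGroup V] [Module F V] (j : N →ₗ[F] V) (lam : Module.End F N →ₐ[F] Module.End F V)
    (D y : C → Module.End F V) : Prop where
  inj : Function.Injective j
  lamj : ∀ g n, lam g (j n) = j (g n)
  laminj : ∀ g : Module.End F N, Function.Injective g → Function.Injective (lam g)
  Dy : ∀ c, D c * y c = y c * D c + 1
  Dy' : ∀ c d, c ≠ d → D c * y d = y d * D c
  DD : ∀ c d, D c * D d = D d * D c
  yy : ∀ c d, y c * y d = y d * y c
  Dlam : ∀ c g, D c * lam g = lam g * D c
  ylam : ∀ c g, y c * lam g = lam g * y c
  ynil : ∀ c v, ∃ k, (y c ^ k) v = 0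
  yj : ∀ c n, y c (j n) = 0
  ker : ∀ v, (∀ c, y c v = 0) → ∃ n, v = j n
  gen : ∀ S : Submodule F V, (∀ n, j n ∈ S) → (∀ c, ∀ v ∈ S, D c v ∈ S) → S = ⊤

/-- The induced module exists. -/
theorem exists_ind (F : Type) [Field F] [CharZero F] (C : Type) [Finite C] :
    ∀ (N : Type) [AddCommGroup N] [Module F N], ∃ (V : Type) (_ : AddCommGroup V) (_ : Module F V)
      (j : N →ₗ[F] V) (lam : Module.End F N →ₐ[F] Module.End F V) (D y : C → Module.End F V),
      IsInd j lam D y := by
  induction C using Finite.induction_empty_option with
  | of_equiv e ih =>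
    intro N _ _
    obtain ⟨V, _, _, j, lam, D, y, h⟩ := ih N
    refine ⟨V, inferInstance, inferInstance, j, lam, fun c => D (e.symm c), fun c => y (e.symm c),
      h.inj, h.lamj, h.laminj, fun c => h.Dy _, fun c d hcd => h.Dy' _ _ fun h => hcd
        (e.symm.injective h), fun c d => h.DD _ _, fun c d => h.yy _ _, fun c => h.Dlam _,
      fun c => h.ylam _, fun c => h.ynil _, fun c => h.yj _, fun v hv => h.ker v fun c => ?_,
      fun S h1 h2 => h.gen S h1 fun c => ?_⟩
    · have := hv (e c)
      rwa [e.symm_apply_apply] at this
    · have := h2 (e c)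
      simpa only [e.symm_apply_apply] using this
  | h_empty =>
    intro N _ _
    exact ⟨N, inferInstance, inferInstance, LinearMap.id, AlgHom.id F _, fun c => c.elim,
      fun c => c.elim, Function.injective_id, fun g n => rfl, fun g hg => hg, fun c => c.elim,
      fun c => c.elim, fun c => c.elim, fun c => c.elim, fun c => c.elim, fun c => c.elim,
      fun c => c.elim, fun c => c.elim, fun v _ => ⟨v, rfl⟩, fun S h _ => by
        rw [eq_top_iff]
        intro v _
        exact h v⟩
  | h_option ih =>
    intro N _ _
    obtain ⟨V, _, _, j, lam, D, y, h⟩ := ih N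
    refine ⟨ℕ →₀ V, inferInstance, inferInstance, Finsupp.lsingle 0 ∘ₗ j, (hU F V).comp lam,
      fun c => c.elim (Dh F V) (fun c => hU F V (D c)),
      fun c => c.elim (yh F V) (fun c => hU F V (y c)), ?_⟩
    constructor
    · intro n n' hn
      exact h.inj (Finsupp.single_injective 0 hn)
    · intro g n
      change hU F V (lam g) (Finsupp.single 0 (j n)) = Finsupp.single 0 (j (g n))
      rw [hU_single, h.lamj]
    · intro g hg
      exact hU_inj (h.laminj g hg)
    · rintro (_ | c)
      · exact Dh_yh
      · change hU F V (D c) * hU F V (y c) = hU F V (y c) * hU F V (D c) + 1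
        rw [← map_mul, h.Dy, map_add, map_mul, map_one]
    · rintro (_ | c) (_ | d) hcd
      · exact absurd rfl hcd
      · exact Dh_hU _
      · exact (yh_hU _).symm
      · change hU F V (D c) * hU F V (y d) = hU F V (y d) * hU F V (D c)
        rw [← map_mul, h.Dy' c d fun h => hcd (congrArg some h), map_mul]
    · rintro (_ | c) (_ | d)
      · rfl
      · exact Dh_hU _
      · exact (Dh_hU _).symm
      · change hU F V (D c) * hU F V (D d) = hU F V (D d) * hU F V (D c)
        rw [← map_mul, h.DD, map_mul]
    · rintro (_ | c) (_ | d)
      · rfl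
      · exact yh_hU _
      · exact (yh_hU _).symm
      · change hU F V (y c) * hU F V (y d) = hU F V (y d) * hU F V (y c)
        rw [← map_mul, h.yy, map_mul]
    · rintro (_ | c) g
      · exact Dh_hU _
      · change hU F V (D c) * hU F V (lam g) = hU F V (lam g) * hU F V (D c)
        rw [← map_mul, h.Dlam, map_mul]
    · rintro (_ | c) g
      · exact yh_hU _
      · change hU F V (y c) * hU F V (lam g) = hU F V (lam g) * hU F V (y c)
        rw [← map_mul, h.ylam, map_mul]
    · rintro (_ | c) v
      · exact yh_nil v
      · exact hU_nil (h.ynil c) v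
    · rintro (_ | c) n
      · change yh F V (Finsupp.single 0 (j n)) = 0
        rw [yh_single, Nat.cast_zero, neg_zero, zero_smul]
      · change hU F V (y c) (Finsupp.single 0 (j n)) = 0
        rw [hU_single, h.yj, Finsupp.single_zero]
    · intro f hf
      have h1 : f = Finsupp.single 0 (f 0) := by
        ext k
        rcases k with _ | k
        · rw [Finsupp.single_eq_same]
        · rw [Finsupp.single_apply, if_neg (by omega)]
          have h2 := congrArg (fun g : ℕ →₀ V => g k) (hf none)
          change (yh F V f) k = 0 at h2
          rw [yh_coeff] at h2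
          rcases smul_eq_zero.mp h2 with h3 | h3
          · exfalso
            have h4 : ((k + 1 : ℕ) : F) = 0 := by
              push_cast
              exact neg_eq_zero.mp h3
            exact absurd h4 (Nat.cast_ne_zero.mpr (by omega))
          · exact h3
      obtain ⟨n, hn⟩ := h.ker (f 0) (fun c => by
        have h2 := hf (some c)
        change hU F V (y c) f = 0 at h2
        rw [← hU_coeff, h2]
        rfl)
      exact ⟨n, by rw [h1, hn]; rfl⟩
    · intro S h1 h2
      have h3 : S.comap (Finsupp.lsingle 0) = ⊤ := by
        apply h.gen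
        · intro n
          exact h1 n
        · intro c v hv
          have h4 := h2 (some c) _ hv
          change hU F V (D c) (Finsupp.single 0 v) ∈ S at h4
          rw [hU_single] at h4
          exact h4
      have h4 : ∀ (k : ℕ) (v : V), Finsupp.single k v ∈ S := by
        intro k
        induction k with
        | zero =>
          intro v
          have : v ∈ S.comap (Finsupp.lsingle 0) := by rw [h3]; trivial
          exact this
        | succ k ih =>
          intro v
          rw [← Dh_single (K := F)]
          exact h2 none _ (ih v)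
      rw [eq_top_iff]
      intro f _
      induction f using Finsupp.induction_linear with
      | zero => exact S.zero_mem
      | add f g hf hg => exact S.add_mem (hf trivial) (hg trivial)
      | single k v => exact h4 k v

end Pool.Agent.H392
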