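import Pool.Graph.R_seed8.R693.R.Main
import Pool.Graph.R_seed8.R693.G.PieceS

/-!
The extended centroid of a prime ideal, and its restriction.
-/

set_option autoImplicit false
set_option linter.unusedSectionVars false

namespace Pool.Agent.H392

open Pool.Agent.R693 Pool.Agent.R693.W

section claim1
variable {F : Type*} [Field F] [CharZero F] {A : Type*} [Ring A] [Algebra F A] {e : ℤ → A}

/-- Words in nonnegative letters detect the Martindale relation. -/
lemma restrict_two (he : IsW F e) (hgen : ∀ x : A, ∃ k, x ∈ Fl F e k) {P : TwoSidedIdeal A}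
    (hP : IsPrimeT P) {k N : ℕ} (hV : Dl F ℤ (k + 1) ^ N ∈ aI e (k + 1) (subsp F P))
    (hη : ∃ n, eta0 F e k N n ∉ P) {u u' : A}
    (h : ∀ w : List ℕ, u * wd (fun n : ℕ => e n) w * u' - u' * wd (fun n : ℕ => e n) w * u ∈ P)
    (x : A) : u * x * u' - u' * x * u ∈ P := by
  have key : ∀ (a : A) (w : List ℤ) (w1 : List ℕ) (n : G ℤ),
      u * wd (fun n : ℕ => e n) w1 * (wd e w * (u' * a * eta0 F e k N n)) -
      u' * wd (fun n : ℕ => e n) w1 * (wd e w * (u * a * eta0 F e k N n)) ∈ P := by
    intro a w
    induction w with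
    | nil =>
      intro w1 n
      have h1 := P.mul_mem_right _ (a * eta0 F e k N n) (h w1)
      rw [wd_nil, one_mul, one_mul]
      have h2 : u * wd (fun n : ℕ => e n) w1 * (u' * a * eta0 F e k N n) -
          u' * wd (fun n : ℕ => e n) w1 * (u * a * eta0 F e k N n) =
          (u * wd (fun n : ℕ => e n) w1 * u' - u' * wd (fun n : ℕ => e n) w1 * u) *
            (a * eta0 F e k N n) := by
        rw [sub_mul]
        simp only [mul_assoc]
      rw [h2]
      exact h1
    | cons v w ih =>
      intro w1 n
      set g1 : G ℤ → A := fun n => u * wd (fun n : ℕ => e n) w1 *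
        (e (n k) * (wd e w * (u' * a * eta0 F e k N n))) with hg1
      set g2 : G ℤ → A := fun n => u' * wd (fun n : ℕ => e n) w1 *
        (e (n k) * (wd e w * (u * a * eta0 F e k N n))) with hg2
      obtain ⟨r1, hr1⟩ := hgen (u' * a)
      obtain ⟨r2, hr2⟩ := hgen (u * a)
      set r := max r1 r2 with hr
      have hr1' : u' * a ∈ Fl F e r := Fl_mono (le_max_left _ _) hr1
      have hr2' : u * a ∈ Fl F e r := Fl_mono (le_max_right _ _) hr2
      let PP : ℤ → Submodule F (G ℤ → A) := fun m =>
        { carrier := {g | ∀ n : G ℤ, m ≤ n k → g n ∈ P}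
          add_mem' := fun ha hb n hn => P.add_mem (ha n hn) (hb n hn)
          zero_mem' := fun n _ => P.zero_mem
          smul_mem' := fun c g hg n hn => (subsp F P).smul_mem c (hg n hn) }
      have hPP : ∀ m g, g ∈ PP m ↔ ∀ n : G ℤ, m ≤ n k → g n ∈ P := fun m g => Iff.rfl
      set S : Set (K F ℤ) := insert (X k) {f | ∃ i < k, f = Xi F ℤ i} with hS
      have h1 : ∀ m, m ≤ 0 → g1 - g2 ∈ PP m := by
        apply descend PP (S := S) (b := k) (p := chk F k k ^ (2 * N + w.length + r))
        · apply UF.pow (Algebra.subset_adjoin (Set.mem_insert _ _))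
          apply UF.prod (Algebra.subset_adjoin (Set.mem_insert _ _))
          intro i hi
          apply UF_up
          exact Algebra.subset_adjoin (Set.mem_insert_of_mem _ ⟨i, Finset.mem_range.mp hi, rfl⟩)
        · intro m f hf g' hg'
          rw [hPP] at hg' ⊢
          intro n hn
          rcases hf with rfl | ⟨i, hi, rfl⟩
          · rw [act_X]
            apply hg'
            rw [Pi.add_apply, dl_self]
            have : (Lab.one : ℤ) = 1 := rfl
            omega
          · rw [act_Xi]
            apply hg'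
            rw [Pi.add_apply, Pi.single_eq_of_ne (by omega), add_zero]
            exact hn
        · intro m g' hg'
          rw [hPP] at hg' ⊢
          intro n hn
          rw [act_X]
          apply hg'
          rw [Pi.add_apply, dl_self]
          have : (Lab.one : ℤ) = 1 := rfl
          omega
        · intro m
          rw [hPP]
          intro n _
          rw [map_sub, Pi.sub_apply]
          apply P.sub_mem
          · rw [hg1, act_left]
            apply P.mul_mem_left
            have := rec_elt he (P := P.asIdeal) hV (le_refl k) hr1' w n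
            rwa [TwoSidedIdeal.mem_asIdeal] at this
          · rw [hg2, act_left]
            apply P.mul_mem_left
            have := rec_elt he (P := P.asIdeal) hV (le_refl k) hr2' w n
            rwa [TwoSidedIdeal.mem_asIdeal] at this
        · rw [hPP]
          intro n hn
          have h2 := ih (w1 ++ [(n k).toNat]) n
          have h3 : wd (fun n : ℕ => e n) (w1 ++ [(n k).toNat]) =
              wd (fun n : ℕ => e n) w1 * e (n k) := by
            simp only [wd, List.map_append, List.prod_append, List.map_cons, List.map_nil,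
              List.prod_cons, List.prod_nil, mul_one]
            rw [Int.toNat_of_nonneg hn]
          rw [h3] at h2
          rw [Pi.sub_apply, hg1, hg2]
          simpa only [mul_assoc] using h2
      have h2 := (hPP _ _).mp (h1 (min v 0) (min_le_right _ _)) (Function.update n k v) (by
        rw [Function.update_self]; exact min_le_left _ _)
      rw [Pi.sub_apply, hg1, hg2] at h2
      beta_reduce at h2
      rw [Function.update_self] at h2
      have h3 : eta0 F e k N (Function.update n k v) = eta0 F e k N n := by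
        apply Ind_eta0' k N le_rfl
        intro b hb
        rw [Function.update_of_ne hb]
      rw [h3] at h2
      rw [wd_cons, mul_assoc (e v), mul_assoc (e v)]
      exact h2
  have key2 : ∀ (a x : A) (n : G ℤ), u * x * (u' * a * eta0 F e k N n) -
      u' * x * (u * a * eta0 F e k N n) ∈ P := by
    intro a x n
    obtain ⟨r, hr⟩ := hgen x
    unfold Fl at hr
    induction hr using Submodule.span_induction with
    | mem z hz =>
      obtain ⟨w, _, rfl⟩ := hz
      have := key a w [] n
      rw [wd_nil, mul_one, mul_one] at this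
      rw [mul_assoc u (wd e w), mul_assoc u' (wd e w)]
      exact this
    | zero =>
      rw [mul_zero, mul_zero, zero_mul, zero_mul, sub_self]; exact P.zero_mem
    | add y z _ _ hy hz =>
      have h1 : u * (y + z) * (u' * a * eta0 F e k N n) - u' * (y + z) * (u * a * eta0 F e k N n) =
          (u * y * (u' * a * eta0 F e k N n) - u' * y * (u * a * eta0 F e k N n)) +
          (u * z * (u' * a * eta0 F e k N n) - u' * z * (u * a * eta0 F e k N n)) := by
        rw [mul_add, add_mul, mul_add, add_mul]; abel
      rw [h1]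
      exact P.add_mem hy hz
    | smul c y _ hy =>
      rw [mul_smul_comm, smul_mul_assoc, mul_smul_comm, smul_mul_assoc, ← smul_sub]
      exact (subsp F P).smul_mem c hy
  obtain ⟨n, hn⟩ := hη
  have h3 : ∀ a, (u * x * u' - u' * x * u) * a * eta0 F e k N n ∈ P := fun a => by
    have h4 := key2 a x n
    have h5 : (u * x * u' - u' * x * u) * a * eta0 F e k N n =
        u * x * (u' * a * eta0 F e k N n) - u' * x * (u * a * eta0 F e k N n) := by
      rw [sub_mul, sub_mul]
      simp only [mul_assoc]
    rw [h5]
    exact h4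
  exact (hP.elt h3).resolve_right hn

end claim1

section mart
variable {F : Type} [Field F]

/-- The extended centroid of `A / Q` is `F`. -/
def Mart (F : Type) [Field F] {A : Type} [Ring A] [Algebra F A] (Q : TwoSidedIdeal A) : Prop :=
  ∀ b b1 : A, b1 ∉ Q → (∀ u, b * u * b1 - b1 * u * b ∈ Q) → ∃ c : F, b - c • b1 ∈ Q

open Cardinal in
/-- Martindale's lemma for primitive ideals. -/
theorem mart_of_simple [IsAlgClosed F] [Uncountable F] {A : Type} [Ring A] [Algebra F A]
    (hA : Module.rank F A ≤ ℵ₀) {Q : TwoSidedIdeal A} {M : Type} [AddCommGroup M] [Module A M]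
    [IsSimpleModule A M] (hM : ∀ a : A, a ∈ Q ↔ ∀ m : M, a • m = 0) : Mart F Q := by
  let _ : Module F M := Module.compHom M (algebraMap F A)
  have : IsScalarTower F A M := IsScalarTower.of_algebraMap_smul (fun _ _ => rfl)
  intro b b1 hb1 h
  have h1 : ∃ m0 : M, b1 • m0 ≠ 0 := by
    by_contra hcon
    push Not at hcon
    exact hb1 ((hM b1).mpr hcon)
  obtain ⟨m0, hm0⟩ := h1
  obtain ⟨c, hc⟩ := G.martindale (M := M) hA b b1 m0 hm0 (fun u m => (hM _).mp (h u) m)
  exact ⟨c, (hM _).mpr hc⟩

/-- Restriction of the property. -/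
theorem Mart.comap [CharZero F] {A Ap : Type} [Ring A] [Algebra F A] [Ring Ap] [Algebra F Ap]
    {e : ℤ → A} {ep : ℕ → Ap} (φ : Ap →ₐ[F] A) (hφ : ∀ n : ℕ, φ (ep n) = e n) (he : IsW F e)
    (hgen : ∀ x : A, ∃ k, x ∈ Fl F e k) {P : TwoSidedIdeal A} (hP : IsPrimeT P) (h0 : P ≠ ⊥)
    (h : Mart F P) : Mart F (TwoSidedIdeal.comap φ P) := by
  have hwd : ∀ w : List ℕ, φ (wd ep w) = wd (fun n : ℕ => e n) w := by
    intro w
    induction w with
    | nil => rw [wd_nil, wd_nil, map_one]
    | cons v w ih => rw [wd_cons, wd_cons, map_mul, hφ, ih]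
  intro b b1 hb1 hb
  obtain ⟨k, N, hV, hη⟩ := exists_min (F := F) he hgen h0 hP.1
  have h1 := restrict_two he hgen hP hV (hη N) (u := φ b) (u' := φ b1) (fun w => by
    have := hb (wd ep w)
    rwa [TwoSidedIdeal.mem_comap, map_sub, map_mul, map_mul, map_mul, map_mul, hwd] at this)
  rw [TwoSidedIdeal.mem_comap] at hb1
  obtain ⟨c, hc⟩ := h (φ b) (φ b1) hb1 h1
  refine ⟨c, ?_⟩
  rw [TwoSidedIdeal.mem_comap, map_sub, map_smul]
  exact hc

variable {A : Type} [Ring A] [Algebra F A] {Δ : Type} [DivisionRing Δ] [Algebra F Δ]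

/-- Independence over elements commuting with the image. -/
theorem indep_of_mart {Q : TwoSidedIdeal A} (hQ : Mart F Q) (ψ : A →ₐ[F] Δ)
    (hker : ∀ a, ψ a = 0 ↔ a ∈ Q) {ι : Type} (s : Finset ι) (κ : ι → Δ)
    (hcomm : ∀ i a, κ i * ψ a = ψ a * κ i)
    (hκ : LinearIndepOn F κ (s : Set ι)) (b : ι → A) (h : ∑ i ∈ s, κ i * ψ (b i) = 0) :
    ∀ i ∈ s, ψ (b i) = 0 := by
  classical
  induction s using Finset.induction_on generalizing b with
  | empty => simp
  | insert j t hjt ih =>
    have hκt : LinearIndepOn F κ (t : Set ι) := hκ.mono (by simp)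
    rw [Finset.sum_insert hjt] at h
    by_cases hj : ψ (b j) = 0
    · rw [hj, mul_zero, zero_add] at h
      intro i hi
      rcases Finset.mem_insert.mp hi with rfl | hi
      · exact hj
      · exact ih hκt b h i hi
    · exfalso
      have h1 : ∀ u : A, ∀ i ∈ t, ψ (b i * u * b j - b j * u * b i) = 0 := by
        intro u
        apply ih hκt (fun i => b i * u * b j - b j * u * b i)
        have h2 : ∀ i, κ i * ψ (b i * u * b j - b j * u * b i) =
            (κ i * ψ (b i)) * (ψ u * ψ (b j)) - (ψ (b j) * ψ u) * (κ i * ψ (b i)) := by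
          intro i
          rw [map_sub, map_mul, map_mul, map_mul, map_mul, mul_sub]
          congr 1
          · simp only [mul_assoc]
          · have h3 := hcomm i (b j * u)
            rw [map_mul] at h3
            rw [← mul_assoc (ψ (b j) * ψ u), ← h3]
            simp only [mul_assoc]
        have h3 : ∑ i ∈ insert j t, κ i * ψ (b i * u * b j - b j * u * b i) = 0 := by
          rw [Finset.sum_congr rfl (fun i _ => h2 i), Finset.sum_sub_distrib, ← Finset.sum_mul,
            ← Finset.mul_sum, Finset.sum_insert hjt, h, zero_mul, mul_zero, sub_zero]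
        rw [Finset.sum_insert hjt, sub_self, map_zero, mul_zero, zero_add] at h3
        exact h3
      have h4 : ∀ i : ι, ∃ c : F, i ∈ t → ψ (b i) = c • ψ (b j) := by
        intro i
        by_cases hi : i ∈ t
        · obtain ⟨c, hc⟩ := hQ (b i) (b j) (fun h => hj ((hker _).mpr h))
            (fun u => (hker _).mp (h1 u i hi))
          refine ⟨c, fun _ => ?_⟩
          have h5 := (hker _).mpr hc
          rw [map_sub, map_smul, sub_eq_zero] at h5
          exact h5
        · exact ⟨0, fun h => absurd h hi⟩
      choose c hc using h4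
      have h6 : (κ j + ∑ i ∈ t, c i • κ i) * ψ (b j) = 0 := by
        rw [add_mul, Finset.sum_mul, ← h]
        congr 1
        apply Finset.sum_congr rfl
        intro i hi
        rw [hc i hi, smul_mul_assoc, mul_smul_comm]
      rcases mul_eq_zero.mp h6 with h7 | h7
      · have h8 := (linearIndepOn_iff'.mp hκ) (insert j t) (fun i => if i = j then 1 else c i)
          (by simp) (by
            rw [Finset.sum_insert hjt]
            simp only [if_true, one_smul]
            rw [← h7]
            congr 1
            apply Finset.sum_congr rfl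
            intro i hi
            rw [if_neg]
            rintro rfl
            exact hjt hi) j (Finset.mem_insert_self _ _)
        simp at h8
      · exact hj h7

open Polynomial in
/-- Algebraic elements are scalars. -/
lemma alg_scalar [IsAlgClosed F] (z : Δ) : ∀ (n : ℕ) (p : F[X]), p.natDegree ≤ n → p ≠ 0 →
    aeval z p = 0 → ∃ c : F, z = algebraMap F Δ c := by
  intro n
  induction n with
  | zero =>
    intro p hp h0 h
    rw [eq_C_of_natDegree_le_zero hp, aeval_C] at h
    exfalso
    apply h0
    rw [eq_C_of_natDegree_le_zero hp, (map_eq_zero_iff _ (algebraMap F Δ).injective).mp h, C_0]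
  | succ n ih =>
    intro p hp h0 h
    by_cases hd : p.degree = 0
    · rw [eq_C_of_degree_eq_zero hd, aeval_C] at h
      exfalso
      apply h0
      rw [eq_C_of_degree_eq_zero hd, (map_eq_zero_iff _ (algebraMap F Δ).injective).mp h, C_0]
    · obtain ⟨a, ha⟩ := IsAlgClosed.exists_root p hd
      obtain ⟨q, hq⟩ := dvd_iff_isRoot.mpr ha
      have hq0 : q ≠ 0 := by
        rintro rfl
        apply h0
        rw [hq, mul_zero]
      rw [hq, map_mul] at h
      rcases mul_eq_zero.mp h with h1 | h1
      · refine ⟨a, ?_⟩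
        rw [map_sub, aeval_X, aeval_C, sub_eq_zero] at h1
        exact h1
      · refine ih q ?_ hq0 h1
        rw [hq, natDegree_mul (X_sub_C_ne_zero a) hq0, natDegree_X_sub_C] at hp
        omega

lemma transc [IsAlgClosed F] {z : Δ} (hz : ∀ c : F, z ≠ algebraMap F Δ c) : Transcendental F z := by
  rintro ⟨p, hp, h⟩
  obtain ⟨c, hc⟩ := alg_scalar z _ p le_rfl hp h
  exact hz c hc

open Cardinal in
/-- Central fractions are scalars. -/
theorem central_scalar [IsAlgClosed F] [Uncountable F] {B : Type} [Ring B] [Algebra F B]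
    (hB : Module.rank F B ≤ ℵ₀) (j : B →ₐ[F] Δ) (hj : Function.Injective j) {Q : TwoSidedIdeal A}
    (hQ : Mart F Q) (ψ : A →ₐ[F] B) (hker : ∀ a, ψ a = 0 ↔ a ∈ Q)
    (hmax : ∀ I : TwoSidedIdeal B, I ≠ ⊥ → ∃ a, a ∉ Q ∧ ψ a ∈ I) {z : Δ}
    (hz : ∀ b, z * j b = j b * z) {s x : B} (hx : x ≠ 0) (hs : z * j x = j s) :
    ∃ c : F, z = algebraMap F Δ c := by
  classical
  by_contra hcon
  push Not at hcon
  have hT := transc hcon
  have hne : ∀ c : F, z - algebraMap F Δ c ≠ 0 := fun c h => hcon c (sub_eq_zero.mp h)
  have hzc : ∀ (c : F) (b : B), (z - algebraMap F Δ c) * j b = j b * (z - algebraMap F Δ c) := by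
    intro c b
    rw [sub_mul, mul_sub, hz, Algebra.commutes]
  have key : ∀ c : F, ∃ (a : A) (g : B), a ∉ Q ∧ j (ψ a) = (z - algebraMap F Δ c) * j g := by
    intro c
    let I : TwoSidedIdeal B := TwoSidedIdeal.mk' {b | ∃ g : B, j b = (z - algebraMap F Δ c) * j g}
      ⟨0, by rw [map_zero, mul_zero]⟩
      (by
        rintro b b' ⟨g, hg⟩ ⟨g', hg'⟩
        exact ⟨g + g', by rw [map_add, map_add, mul_add, hg, hg']⟩)
      (by
        rintro b ⟨g, hg⟩
        exact ⟨-g, by rw [map_neg, map_neg, mul_neg, hg]⟩)
      (by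
        rintro b b' ⟨g, hg⟩
        exact ⟨b * g, by rw [map_mul, map_mul, hg, ← mul_assoc, ← hzc, mul_assoc]⟩)
      (by
        rintro b b' ⟨g, hg⟩
        exact ⟨g * b', by rw [map_mul, map_mul, hg, mul_assoc]⟩)
    have hI : ∀ {b : B}, b ∈ I ↔ ∃ g : B, j b = (z - algebraMap F Δ c) * j g := fun {b} => by
      change b ∈ TwoSidedIdeal.mk' _ _ _ _ _ _ ↔ _
      rw [TwoSidedIdeal.mem_mk']
      rfl
    obtain ⟨a, ha, haI⟩ := hmax I (by
      intro h
      have h1 : s - c • x ∈ I := by
        rw [hI]
        exact ⟨x, by rw [map_sub, map_smul, sub_mul, hs, Algebra.smul_def]⟩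
      rw [h, TwoSidedIdeal.mem_bot] at h1
      have h2 := congrArg j h1
      rw [map_sub, map_smul, map_zero, ← hs, Algebra.smul_def, ← sub_mul, mul_eq_zero] at h2
      rcases h2 with h2 | h2
      · exact hne c h2
      · exact hx (hj (by rw [h2, map_zero])))
    obtain ⟨g, hg⟩ := hI.mp haI
    exact ⟨a, g, ha, hg⟩
  choose a g ha hg using key
  have h1 : ¬ LinearIndependent F g := by
    intro h
    have h2 : #F ≤ ℵ₀ := h.cardinal_le_rank.trans hB
    exact not_countable (Cardinal.mk_le_aleph0_iff.mp h2)
  rw [linearIndependent_iff'] at h1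
  push Not at h1
  obtain ⟨t, l, hl, i, hi, hli⟩ := h1
  have h2 := indep_of_mart hQ (j.comp ψ) (fun a => by
    rw [AlgHom.comp_apply, map_eq_zero_iff j hj, hker]) t (fun c => (z - algebraMap F Δ c)⁻¹)
    (fun c a => by
      have : Commute (z - algebraMap F Δ c) ((j.comp ψ) a) := hzc c (ψ a)
      exact this.inv_left₀.eq) ((G.linindep_inv z hT).linearIndepOn _) (fun c => l c • a c) (by
      have h3 : ∀ c ∈ t, (z - algebraMap F Δ c)⁻¹ * (j.comp ψ) (l c • a c) = l c • j (g c) := by
        intro c _
        rw [map_smul, AlgHom.comp_apply, hg, mul_smul_comm, ← mul_assoc, inv_mul_cancel₀ (hne c),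
          one_mul]
      rw [Finset.sum_congr rfl h3]
      have h4 := congrArg j hl
      rw [map_sum, map_zero] at h4
      rw [← h4]
      exact Finset.sum_congr rfl fun c _ => (map_smul j _ _).symm) i hi
  rw [AlgHom.comp_apply, map_eq_zero_iff j hj, map_smul, smul_eq_zero] at h2
  rcases h2 with h2 | h2
  · exact hli h2
  · exact ha i ((hker _).mp h2)

end mart

end Pool.Agent.H392
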