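import Pool.Agent.H392.Dom

/-!
Semi-invariants of the algebra generated by the truncated Witt algebras of the points.
-/

set_option autoImplicit false
set_option linter.unusedSectionVars false

namespace Pool.Agent.H392

open Finset

section loc
variable {F : Type} [Field F] {V : Type} [AddCommGroup V] [Module F V]

/-- The operator `T - w`. -/
def shf (T : Module.End F V) (w : ℕ) : Module.End F V := T - (w : F) • (1 : Module.End F V)

lemma shf_apply (T : Module.End F V) (w : ℕ) (v : V) : shf T w v = T v - (w : F) • v := rfl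

/-- The product of the `T - w`. -/
def shl (T : Module.End F V) (ws : List ℕ) : Module.End F V := (ws.map (shf T)).prod

lemma shl_nil (T : Module.End F V) : shl T [] = 1 := rfl

lemma shl_cons (T : Module.End F V) (w : ℕ) (ws : List ℕ) : shl T (w :: ws) = shf T w * shl T ws :=
  by simp [shl]

lemma shl_append (T : Module.End F V) (ws ws' : List ℕ) :
    shl T (ws ++ ws') = shl T ws * shl T ws' := by simp [shl]

lemma shf_comm (T : Module.End F V) (w w' : ℕ) : Commute (shf T w) (shf T w') := by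
  unfold shf
  apply Commute.sub_left
  · exact (Commute.refl T).sub_right ((Commute.one_right T).smul_right _)
  · exact ((Commute.one_left T).smul_left _).sub_right
      (((Commute.one_left _).smul_left _))

lemma shl_comm (T : Module.End F V) (w : ℕ) (ws : List ℕ) : Commute (shf T w) (shl T ws) := by
  induction ws with
  | nil => exact Commute.one_right _
  | cons v ws ih => rw [shl_cons]; exact (shf_comm T w v).mul_right ih

lemma shl_comm' (T : Module.End F V) (ws ws' : List ℕ) : Commute (shl T ws) (shl T ws') := by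
  induction ws with
  | nil => exact Commute.one_left _
  | cons v ws ih => rw [shl_cons]; exact (shl_comm T v ws').mul_left ih

/-- `v` is killed by a product of `T - w`, with `w` in `W`. -/
def Loc (W : AddSubmonoid ℕ) (T : Module.End F V) (v : V) : Prop :=
  ∃ ws : List ℕ, (∀ w ∈ ws, w ∈ W) ∧ shl T ws v = 0

variable {W : AddSubmonoid ℕ} {T : Module.End F V}

lemma Loc.zero : Loc W T 0 := ⟨[], by simp, map_zero _⟩

lemma Loc.add {v v' : V} (h : Loc W T v) (h' : Loc W T v') : Loc W T (v + v') := by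
  obtain ⟨ws, hw, h⟩ := h
  obtain ⟨ws', hw', h'⟩ := h'
  refine ⟨ws ++ ws', ?_, ?_⟩
  · intro w hx
    rcases List.mem_append.mp hx with hx | hx
    · exact hw w hx
    · exact hw' w hx
  · rw [shl_append, map_add]
    have h1 : (shl T ws * shl T ws') v = 0 := by
      rw [(shl_comm' T ws ws').eq, Module.End.mul_apply, h, map_zero]
    rw [h1, Module.End.mul_apply, h', map_zero, add_zero]

lemma Loc.smul {v : V} (h : Loc W T v) (r : F) : Loc W T (r • v) := by
  obtain ⟨ws, hw, h⟩ := h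
  exact ⟨ws, hw, by rw [map_smul, h, smul_zero]⟩

lemma Loc.of_shf {v : V} {w : ℕ} (hw : w ∈ W) (h : Loc W T (shf T w v)) : Loc W T v := by
  obtain ⟨ws, hws, h⟩ := h
  refine ⟨ws ++ [w], ?_, ?_⟩
  · intro x hx
    rcases List.mem_append.mp hx with hx | hx
    · exact hws x hx
    · rw [List.mem_singleton] at hx
      rw [hx]; exact hw
  · rw [shl_append, shl_cons, shl_nil, mul_one, Module.End.mul_apply]
    exact h

/-- An eigenvector in an invariant subspace. -/
lemma exists_eigen {S : Submodule F V} (hS : ∀ v ∈ S, T v ∈ S) {v : V} (hv : v ∈ S) (h0 : v ≠ 0)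
    (h : Loc W T v) : ∃ v' ∈ S, v' ≠ 0 ∧ ∃ w ∈ W, T v' = (w : F) • v' := by
  obtain ⟨ws, hws, h⟩ := h
  have hm : ∀ ws : List ℕ, ∀ v ∈ S, shl T ws v ∈ S := by
    intro ws
    induction ws with
    | nil => intro v hv; exact hv
    | cons w ws ih =>
      intro v hv
      rw [shl_cons, Module.End.mul_apply, shf_apply]
      exact S.sub_mem (hS _ (ih v hv)) (S.smul_mem _ (ih v hv))
  induction ws with
  | nil => exact absurd h h0
  | cons w ws ih =>
    by_cases h1 : shl T ws v = 0
    · exact ih (fun x hx => hws x (List.mem_cons_of_mem _ hx)) h1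
    · refine ⟨shl T ws v, hm ws v hv, h1, w, hws w (by simp), ?_⟩
      rw [shl_cons, Module.End.mul_apply, shf_apply, sub_eq_zero] at h
      exact h

end loc

section ad
variable {F : Type} [Field F] {B : Type} [Ring B] [Algebra F B]

/-- The commutator. -/
def ad (a : B) : Module.End F B := LinearMap.mulLeft F a - LinearMap.mulRight F a

lemma ad_apply (a x : B) : ad (F := F) a x = a * x - x * a := rfl

lemma ad_mul (a x y : B) : ad (F := F) a (x * y) = ad (F := F) a x * y + x * ad (F := F) a y := by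
  rw [ad_apply, ad_apply, ad_apply]; noncomm_ring

lemma Loc.mul {W : AddSubmonoid ℕ} {a x y : B} (hx : Loc W (ad (F := F) a) x)
    (hy : Loc W (ad (F := F) a) y) : Loc W (ad (F := F) a) (x * y) := by
  obtain ⟨ws, hws, hx⟩ := hx
  obtain ⟨ws', hws', hy⟩ := hy
  have key : ∀ (n : ℕ) (ws ws' : List ℕ) (x y : B), ws.length + ws'.length ≤ n →
      (∀ w ∈ ws, w ∈ W) → (∀ w ∈ ws', w ∈ W) → shl (ad (F := F) a) ws x = 0 →
      shl (ad (F := F) a) ws' y = 0 → Loc W (ad (F := F) a) (x * y) := by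
    intro n
    induction n with
    | zero =>
      intro ws ws' x y hn _ _ hx _
      have : ws = [] := List.length_eq_zero_iff.mp (by omega)
      subst this
      rw [shl_nil, Module.End.one_apply] at hx
      rw [hx, zero_mul]
      exact Loc.zero
    | succ n ih =>
      intro ws ws' x y hn hws hws' hx hy
      rcases ws with _ | ⟨w, ws⟩
      · rw [shl_nil, Module.End.one_apply] at hx
        rw [hx, zero_mul]
        exact Loc.zero
      rcases ws' with _ | ⟨w', ws'⟩
      · rw [shl_nil, Module.End.one_apply] at hy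
        rw [hy, mul_zero]
        exact Loc.zero
      rw [List.length_cons, List.length_cons] at hn
      have hx' : shl (ad (F := F) a) ws (shf (ad (F := F) a) w x) = 0 := by
        rw [← Module.End.mul_apply, ← (shl_comm _ w ws).eq, ← shl_cons]
        exact hx
      have hy' : shl (ad (F := F) a) ws' (shf (ad (F := F) a) w' y) = 0 := by
        rw [← Module.End.mul_apply, ← (shl_comm _ w' ws').eq, ← shl_cons]
        exact hy
      apply Loc.of_shf (w := w + w') (W.add_mem (hws w (by simp)) (hws' w' (by simp)))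
      have h1 : shf (ad (F := F) a) (w + w') (x * y) =
          shf (ad (F := F) a) w x * y + x * shf (ad (F := F) a) w' y := by
        rw [shf_apply, shf_apply, shf_apply, ad_mul, sub_mul, mul_sub, smul_mul_assoc,
          mul_smul_comm, Nat.cast_add, add_smul]
        abel
      rw [h1]
      apply Loc.add
      · exact ih ws (w' :: ws') _ _ (by rw [List.length_cons]; omega)
          (fun x hx => hws x (List.mem_cons_of_mem _ hx)) hws' hx' hy
      · exact ih (w :: ws) ws' _ _ (by rw [List.length_cons]; omega) hws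
          (fun x hx => hws' x (List.mem_cons_of_mem _ hx)) hx hy'
  exact key _ ws ws' x y le_rfl hws hws' hx hy

lemma loc_adjoin {W : AddSubmonoid ℕ} {a : B} {S : Set B} (hS : ∀ x ∈ S, Loc W (ad (F := F) a) x)
    {x : B} (hx : x ∈ Algebra.adjoin F S) : Loc W (ad (F := F) a) x := by
  induction hx using Algebra.adjoin_induction with
  | mem x hx => exact hS x hx
  | algebraMap r =>
    refine ⟨[0], by simp, ?_⟩
    rw [shl_cons, shl_nil, mul_one, shf_apply, Nat.cast_zero, zero_smul, sub_zero, ad_apply,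
      Algebra.commutes, sub_self]
  | add x y _ _ hx hy => exact hx.add hy
  | mul x y _ _ hx hy => exact hx.mul hy

/-- Joint eigenspaces. -/
def Eg (I : Submodule F B) (X : Set (B × F)) : Submodule F B where
  carrier := {v | v ∈ I ∧ ∀ p ∈ X, ad (F := F) p.1 v = p.2 • v}
  zero_mem' := ⟨I.zero_mem, fun p _ => by rw [map_zero, smul_zero]⟩
  add_mem' := by
    rintro v w ⟨hv, hv'⟩ ⟨hw, hw'⟩
    exact ⟨I.add_mem hv hw, fun p hp => by rw [map_add, hv' p hp, hw' p hp, smul_add]⟩
  smul_mem' := by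
    rintro r v ⟨hv, hv'⟩
    exact ⟨I.smul_mem r hv, fun p hp => by rw [map_smul, hv' p hp, smul_comm]⟩

lemma mem_Eg {I : Submodule F B} {X : Set (B × F)} {v : B} :
    v ∈ Eg I X ↔ v ∈ I ∧ ∀ p ∈ X, ad (F := F) p.1 v = p.2 • v := Iff.rfl

/-- One more eigenvector. -/
lemma Eg_insert {I : Submodule F B} {X : Set (B × F)} {b : B}
    (hI : ∀ v ∈ I, ad (F := F) b v ∈ I)
    (hb : ∀ p ∈ X, ∃ (n : ℤ) (a : B), p.1 * b - b * p.1 = n • a ∧ (n = 0 ∨ a = 0 ∨ (a, (0 : F)) ∈ X))
    {W : AddSubmonoid ℕ} (hW : ∀ v ∈ I, Loc W (ad (F := F) b) v) (h : Eg I X ≠ ⊥) :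
    ∃ w ∈ W, Eg I (insert (b, (w : F)) X) ≠ ⊥ := by
  obtain ⟨v, hv, hv0⟩ := (Submodule.ne_bot_iff _).mp h
  have hS : ∀ v ∈ Eg I X, ad (F := F) b v ∈ Eg I X := by
    rintro v ⟨hv, hv'⟩
    refine ⟨hI v hv, fun p hp => ?_⟩
    obtain ⟨n, a, hna, hz⟩ := hb p hp
    have h1 : ad (F := F) p.1 (ad (F := F) b v) = ad (F := F) b (ad (F := F) p.1 v) +
        n • ad (F := F) a v := by
      have h2 : n • ad (F := F) a v = ad (F := F) (p.1 * b - b * p.1) v := by
        rw [hna, ad_apply, ad_apply, smul_mul_assoc, mul_smul_comm, smul_sub]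
      rw [h2]
      simp only [ad_apply]
      noncomm_ring
    rw [h1, hv' p hp, map_smul]
    rcases hz with rfl | rfl | hz
    · rw [zero_smul, add_zero]
    · have h9 : ad (F := F) (0 : B) v = 0 := by rw [ad_apply, zero_mul, mul_zero, sub_self]
      rw [h9, smul_zero, add_zero]
    · have := hv' _ hz
      beta_reduce at this
      rw [this, zero_smul, smul_zero, add_zero]
  obtain ⟨v', hv', hv'0, w, hw, hv'w⟩ := exists_eigen hS hv hv0 (hW v hv.1)
  refine ⟨w, hw, (Submodule.ne_bot_iff _).mpr ⟨v', ⟨hv'.1, ?_⟩, hv'0⟩⟩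
  intro p hp
  rcases Set.mem_insert_iff.mp hp with rfl | hp
  · exact hv'w
  · exact hv'.2 p hp

lemma Eg_mono {I : Submodule F B} {X Y : Set (B × F)} (h : Y ⊆ X) : Eg I X ≤ Eg I Y :=
  fun _ hv => ⟨hv.1, fun p hp => hv.2 p (h hp)⟩

lemma Eg_ne {I : Submodule F B} {X Y : Set (B × F)} (h : Y ⊆ X) (h0 : Eg I X ≠ ⊥) :
    Eg I Y ≠ ⊥ := by
  intro h1
  exact h0 (eq_bot_iff.mpr (h1 ▸ Eg_mono h))

lemma ad_pow {a v : B} {μ : F} (h : ad (F := F) a v = μ • v) (n : ℕ) :
    ad (F := F) a (v ^ n) = ((n : F) * μ) • v ^ n := by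
  induction n with
  | zero => rw [pow_zero, ad_apply, mul_one, one_mul, sub_self, Nat.cast_zero, zero_mul, zero_smul]
  | succ n ih =>
    rw [pow_succ, ad_mul, ih, h, smul_mul_assoc, mul_smul_comm, ← add_smul]
    congr 1
    push_cast
    ring

end ad

section semi
variable {F : Type} [Field F] [CharZero F] {Δ : Type} [DivisionRing Δ] [Algebra F Δ]
  {C : Type} [Fintype C] [DecidableEq C] {Z : C → ℕ → Δ} {M : C → ℕ}
  (hZZ : ∀ c d, c ≠ d → ∀ l m, Z c l * Z d m = Z d m * Z c l) (hZ0 : ∀ c, Z c 0 = 0)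
  (hbr : ∀ c a b, 1 ≤ a → 1 ≤ b → Z c a * Z c b - Z c b * Z c a = ((b : ℤ) - a) • Z c (a + b - 1))
  (hM1 : ∀ c, 1 ≤ M c) (hM : ∀ c l, M c < l → Z c l = 0) (hx : ∀ c, Z c (M c) ≠ 0)

variable (F) in
/-- The algebra generated by the truncated Witt algebras. -/
def GZ (Z : C → ℕ → Δ) : Subalgebra F Δ := Algebra.adjoin F {x | ∃ c l, x = Z c l}

lemma Z_mem_GZ (c : C) (l : ℕ) : Z c l ∈ GZ F Z := Algebra.subset_adjoin ⟨c, l, rfl⟩

include hZZ in
lemma ad_ne {c d : C} (h : c ≠ d) (l m : ℕ) : ad (F := F) (Z c l) (Z d m) = 0 := by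
  rw [ad_apply, hZZ c d h, sub_self]

include hbr in
lemma ad_eq {c : C} {l m : ℕ} (hl : 1 ≤ l) (hm : 1 ≤ m) :
    ad (F := F) (Z c l) (Z c m) = ((m : ℤ) - l) • Z c (l + m - 1) := by
  rw [ad_apply, hbr c l m hl hm]

include hZZ hZ0 hbr hM in
lemma loc_ge2 {c : C} {l : ℕ} (hl : 2 ≤ l) {x : Δ} (hx : x ∈ GZ F Z) :
    Loc ⊥ (ad (F := F) (Z c l)) x := by
  refine loc_adjoin ?_ hx
  rintro _ ⟨d, m, rfl⟩
  by_cases hcd : c = d
  · subst hcd
    have key : ∀ k m, 1 ≤ m → M c < m + k → Loc ⊥ (ad (F := F) (Z c l)) (Z c m) := by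
      intro k
      induction k with
      | zero =>
        intro m _ h
        rw [hM c m (by omega)]
        exact Loc.zero
      | succ k ih =>
        intro m hm h
        apply Loc.of_shf (w := 0) (by simp)
        rw [shf_apply, Nat.cast_zero, zero_smul, sub_zero, ad_eq hbr (by omega) hm,
          ← Int.cast_smul_eq_zsmul F]
        exact (ih _ (by omega) (by omega)).smul _
    rcases Nat.eq_zero_or_pos m with rfl | hm
    · rw [hZ0]; exact Loc.zero
    · exact key (M c) m hm (by omega)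
  · refine ⟨[0], by simp, ?_⟩
    rw [shl_cons, shl_nil, mul_one, shf_apply, Nat.cast_zero, zero_smul, sub_zero, ad_ne hZZ hcd]

include hZZ hZ0 hbr in
lemma loc_one {c : C} {x : Δ} (hx : x ∈ GZ F Z) : Loc ⊤ (ad (F := F) (Z c 1)) x := by
  refine loc_adjoin ?_ hx
  rintro _ ⟨d, m, rfl⟩
  by_cases hcd : c = d
  · subst hcd
    rcases Nat.eq_zero_or_pos m with rfl | hm
    · rw [hZ0]; exact Loc.zero
    · refine ⟨[m - 1], by simp, ?_⟩
      rw [shl_cons, shl_nil, mul_one, shf_apply, ad_eq hbr le_rfl hm, Nat.add_sub_cancel_left,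
        ← Int.cast_smul_eq_zsmul F, ← sub_smul, Nat.cast_sub hm]
      push_cast
      rw [sub_self, zero_smul]
  · refine ⟨[0], by simp, ?_⟩
    rw [shl_cons, shl_nil, mul_one, shf_apply, Nat.cast_zero, zero_smul, sub_zero, ad_ne hZZ hcd]

/-- The conditions with label at least `m`. -/
def UG (F : Type) [Field F] (Z : C → ℕ → Δ) (m : ℕ) : Set (Δ × F) :=
  {p | ∃ c l, m ≤ l ∧ p = (Z c l, (0 : F))}

include hZZ hZ0 hbr hM in
/-- Semi-invariants. -/
theorem exists_semi {I : Submodule F Δ} (hI : ∀ v ∈ I, v ∈ GZ F Z)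
    (hl : ∀ g ∈ GZ F Z, ∀ v ∈ I, g * v ∈ I) (hr : ∀ g ∈ GZ F Z, ∀ v ∈ I, v * g ∈ I) (h0 : I ≠ ⊥) :
    ∃ v ∈ I, v ≠ 0 ∧ (∀ c l, 2 ≤ l → ad (F := F) (Z c l) v = 0) ∧ ∃ w : C → ℕ,
      ∀ c, ad (F := F) (Z c 1) v = (w c : F) • v := by
  have hIad : ∀ c l, ∀ v ∈ I, ad (F := F) (Z c l) v ∈ I := fun c l v hv =>
    I.sub_mem (hl _ (Z_mem_GZ c l) v hv) (hr _ (Z_mem_GZ c l) v hv)
  have hA : ∀ k m, 2 ≤ m → ∑ c, M c < m + k → Eg I (UG F Z m) ≠ ⊥ := by
    intro k
    induction k with
    | zero =>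
      intro m _ hm
      obtain ⟨v, hv, hv0⟩ := (Submodule.ne_bot_iff _).mp h0
      refine (Submodule.ne_bot_iff _).mpr ⟨v, ⟨hv, ?_⟩, hv0⟩
      rintro _ ⟨c, l, hl, rfl⟩
      have h1 : M c ≤ ∑ c, M c := Finset.single_le_sum (fun _ _ => Nat.zero_le _)
        (Finset.mem_univ c)
      rw [hM c l (by omega), zero_smul, ad_apply, zero_mul, mul_zero, sub_self]
    | succ k ih =>
      intro m hm2 hm
      have h1 := ih (m + 1) (by omega) (by omega)
      have h2 : ∀ S : Finset C, Eg I (UG F Z (m + 1) ∪ {p | ∃ c ∈ S, p = (Z c m, (0 : F))}) ≠ ⊥ := by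
        intro S
        induction S using Finset.induction_on with
        | empty => simpa using h1
        | insert d S hd ihS =>
          obtain ⟨w, hw, h3⟩ := Eg_insert (b := Z d m) (hIad d m) (by
            rintro _ (⟨c, l, hcl, rfl⟩ | ⟨c, hc, rfl⟩)
            · by_cases hcd : c = d
              · subst hcd
                exact ⟨_, _, hbr c l m (by omega) (by omega), Or.inr (Or.inr (Or.inl
                  ⟨c, l + m - 1, by omega, rfl⟩))⟩
              · exact ⟨0, 0, by rw [hZZ c d hcd, sub_self, smul_zero], Or.inl rfl⟩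
            · have hcd : c ≠ d := by rintro rfl; exact hd hc
              exact ⟨0, 0, by rw [hZZ c d hcd, sub_self, smul_zero], Or.inl rfl⟩)
            (fun v hv => loc_ge2 hZZ hZ0 hbr hM hm2 (hI v hv)) ihS
          rw [AddSubmonoid.mem_bot] at hw
          subst hw
          refine Eg_ne ?_ h3
          rintro p (hp | ⟨c, hc, rfl⟩)
          · exact Or.inr (Or.inl hp)
          · rcases Finset.mem_insert.mp hc with rfl | hc
            · left; simp
            · exact Or.inr (Or.inr ⟨c, hc, rfl⟩)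
      refine Eg_ne ?_ (h2 Finset.univ)
      rintro _ ⟨c, l, hl, rfl⟩
      rcases Nat.eq_or_lt_of_le hl with rfl | hl
      · exact Or.inr ⟨c, Finset.mem_univ c, rfl⟩
      · exact Or.inl ⟨c, l, hl, rfl⟩
  have hB := hA (∑ c, M c) 2 le_rfl (by omega)
  have h2 : ∀ S : Finset C, ∃ w : C → ℕ,
      Eg I (UG F Z 2 ∪ {p | ∃ c ∈ S, p = (Z c 1, (w c : F))}) ≠ ⊥ := by
    intro S
    induction S using Finset.induction_on with
    | empty => exact ⟨fun _ => 0, by simpa using hB⟩
    | insert d S hd ihS =>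
      obtain ⟨w, ihS⟩ := ihS
      obtain ⟨w', -, h3⟩ := Eg_insert (b := Z d 1) (hIad d 1) (by
        rintro _ (⟨c, l, hcl, rfl⟩ | ⟨c, hc, rfl⟩)
        · by_cases hcd : c = d
          · subst hcd
            exact ⟨_, _, hbr c l 1 (by omega) (by omega), Or.inr (Or.inr (Or.inl
              ⟨c, l + 1 - 1, by omega, rfl⟩))⟩
          · exact ⟨0, 0, by rw [hZZ c d hcd, sub_self, smul_zero], Or.inl rfl⟩
        · have hcd : c ≠ d := by rintro rfl; exact hd hc
          exact ⟨0, 0, by rw [hZZ c d hcd, sub_self, smul_zero], Or.inl rfl⟩)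
        (fun v hv => loc_one hZZ hZ0 hbr (hI v hv)) ihS
      refine ⟨Function.update w d w', ?_⟩
      refine Eg_ne ?_ h3
      rintro p (hp | ⟨c, hc, rfl⟩)
      · exact Or.inr (Or.inl hp)
      · rcases Finset.mem_insert.mp hc with rfl | hc'
        · left; rw [Function.update_self]
        · have hcd : c ≠ d := by rintro rfl; exact hd hc'
          exact Or.inr (Or.inr ⟨c, hc', by rw [Function.update_of_ne hcd]⟩)
  obtain ⟨w, hw⟩ := h2 Finset.univ
  obtain ⟨v, ⟨hv, hv'⟩, hv0⟩ := (Submodule.ne_bot_iff _).mp hw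
  refine ⟨v, hv, hv0, fun c l hl => ?_, w, fun c => ?_⟩
  · have := hv' _ (Or.inl ⟨c, l, hl, rfl⟩)
    beta_reduce at this
    rw [this, zero_smul]
  · exact hv' _ (Or.inr ⟨c, Finset.mem_univ c, rfl⟩)

include hZZ hbr hM1 hM hx in
/-- Products of the top generators. -/
theorem exists_top (k : C → ℕ) : ∃ x ∈ Submonoid.closure (Set.range fun c => Z c (M c)), x ≠ 0 ∧
    (∀ c l, 2 ≤ l → ad (F := F) (Z c l) x = 0) ∧
      ∀ c, ad (F := F) (Z c 1) x = ((k c * (M c - 1) : ℕ) : F) • x := by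
  have key : ∀ S : Finset C, ∃ x ∈ Submonoid.closure (Set.range fun c => Z c (M c)), x ≠ 0 ∧
    (∀ c l, 2 ≤ l → ad (F := F) (Z c l) x = 0) ∧
      ∀ c, ad (F := F) (Z c 1) x = (((if c ∈ S then k c else 0) * (M c - 1) : ℕ) : F) • x := by
    intro S
    induction S using Finset.induction_on with
    | empty =>
      refine ⟨1, Submonoid.one_mem _, one_ne_zero, fun c l _ => ?_, fun c => ?_⟩
      · rw [ad_apply, mul_one, one_mul, sub_self]
      · rw [ad_apply, mul_one, one_mul, sub_self]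
        simp
    | insert d S hd ih =>
      obtain ⟨x, hxc, hx0, h2, h1⟩ := ih
      have hdc : Z d (M d) ∈ Submonoid.closure (Set.range fun c => Z c (M c)) :=
        Submonoid.subset_closure ⟨d, rfl⟩
      refine ⟨x * Z d (M d) ^ k d, Submonoid.mul_mem _ hxc (Submonoid.pow_mem _ hdc _), mul_ne_zero hx0 (pow_ne_zero _ (hx d)),
        fun c l hl => ?_, fun c => ?_⟩
      · have h3 : ad (F := F) (Z c l) (Z d (M d)) = (0 : F) • Z d (M d) := by
          rw [zero_smul]
          by_cases hcd : c = d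
          · subst hcd
            rw [ad_eq hbr (by omega) (hM1 c), hM c _ (by have := hM1 c; omega), smul_zero]
          · exact ad_ne hZZ hcd _ _
        rw [ad_mul, h2 c l hl, zero_mul, ad_pow h3, mul_zero, zero_smul, mul_zero, add_zero]
      · by_cases hcd : c = d
        · subst hcd
          have h3 : ad (F := F) (Z c 1) (Z c (M c)) = ((M c - 1 : ℕ) : F) • Z c (M c) := by
            rw [ad_eq hbr le_rfl (hM1 c), Nat.add_sub_cancel_left, ← Int.cast_smul_eq_zsmul F,
              Nat.cast_sub (hM1 c)]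
            push_cast
            rfl
          rw [ad_mul, h1, if_neg hd, ad_pow h3, if_pos (Finset.mem_insert_self c S), zero_mul,
            Nat.cast_zero, zero_smul, zero_mul, zero_add, mul_smul_comm, Nat.cast_mul]
        · have h3 : ad (F := F) (Z c 1) (Z d (M d)) = (0 : F) • Z d (M d) := by
            rw [zero_smul]
            exact ad_ne hZZ hcd _ _
          have h4 : (c ∈ insert d S) = (c ∈ S) := by simp [hcd]
          rw [ad_mul, h1, ad_pow h3, mul_zero, zero_smul, mul_zero, add_zero, smul_mul_assoc]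
          simp only [h4]
  obtain ⟨x, hx1, hx2, hx3, hx4⟩ := key Finset.univ
  refine ⟨x, hx1, hx2, hx3, fun c => ?_⟩
  rw [hx4, if_pos (Finset.mem_univ c)]

include hZZ hZ0 hbr hM1 hM hx in
/-- Every nonzero ideal contains a product of top generators. -/
theorem semi (hsc : ∀ c, M c = 1 → ∃ μ : F, Z c 1 = algebraMap F Δ μ)
    (hcen : ∀ s ∈ GZ F Z, ∀ x ∈ GZ F Z, x ≠ 0 →
      (∀ c l, (s * x⁻¹) * Z c l = Z c l * (s * x⁻¹)) → ∃ μ : F, s = μ • x)
    {I : Submodule F Δ} (hI : ∀ v ∈ I, v ∈ GZ F Z)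
    (hl : ∀ g ∈ GZ F Z, ∀ v ∈ I, g * v ∈ I) (hr : ∀ g ∈ GZ F Z, ∀ v ∈ I, v * g ∈ I) (h0 : I ≠ ⊥) :
    ∃ x ∈ I, x ∈ Submonoid.closure (Set.range fun c => Z c (M c)) := by
  obtain ⟨v, hv, hv0, h2, w, h1⟩ := exists_semi hZZ hZ0 hbr hM hI hl hr h0
  have hw : ∀ c, M c = 1 → w c = 0 := by
    intro c hc
    obtain ⟨μ, hμ⟩ := hsc c hc
    have h3 := h1 c
    rw [hμ, ad_apply, Algebra.commutes, sub_self, eq_comm, smul_eq_zero] at h3
    exact_mod_cast h3.resolve_right hv0
  set K := ∏ c, max (M c - 1) 1 with hK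
  have hK1 : 0 < K := by
    rw [hK]
    exact Finset.prod_pos fun c _ => lt_of_lt_of_le one_pos (le_max_right _ _)
  have hk : ∀ c, ∃ k, K * w c = k * (M c - 1) := by
    intro c
    rcases Nat.lt_or_ge 1 (M c) with hc | hc
    · have h3 : max (M c - 1) 1 ∣ K := Finset.dvd_prod_of_mem _ (Finset.mem_univ c)
      rw [Nat.max_eq_left (by omega)] at h3
      obtain ⟨t, ht⟩ := h3
      exact ⟨t * w c, by rw [ht]; ring⟩
    · have h3 := hM1 c
      exact ⟨0, by rw [hw c (by omega)]; simp⟩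
  choose k hk using hk
  obtain ⟨x, hxc, hx0, hx2, hx1⟩ := exists_top (F := F) hZZ hbr hM1 hM hx k
  have hxG : x ∈ GZ F Z := by
    have : Submonoid.closure (Set.range fun c => Z c (M c)) ≤ (GZ F Z).toSubmonoid := by
      rw [Submonoid.closure_le]
      rintro _ ⟨c, rfl⟩
      exact Z_mem_GZ c _
    exact this hxc
  have hvG := hI v hv
  -- the two elements have the same weights
  have hcomm : ∀ c l, ((v ^ K) * x⁻¹) * Z c l = Z c l * ((v ^ K) * x⁻¹) := by
    have key : ∀ (a : Δ) (μ : F), ad (F := F) a (v ^ K) = μ • v ^ K → ad (F := F) a x = μ • x →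
        ((v ^ K) * x⁻¹) * a = a * ((v ^ K) * x⁻¹) := by
      intro a μ h3 h4
      rw [ad_apply, sub_eq_iff_eq_add] at h3 h4
      have h5 : a * x = x * (a + algebraMap F Δ μ) := by
        rw [h4, mul_add, ← Algebra.commutes, ← Algebra.smul_def, add_comm]
      have h6 : a * v ^ K = v ^ K * (a + algebraMap F Δ μ) := by
        rw [h3, mul_add, ← Algebra.commutes, ← Algebra.smul_def, add_comm]
      have h7 : x⁻¹ * a = (a + algebraMap F Δ μ) * x⁻¹ := by
        apply mul_right_cancel₀ hx0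
        rw [mul_assoc, mul_assoc, h5, inv_mul_cancel₀ hx0, mul_one, ← mul_assoc,
          inv_mul_cancel₀ hx0, one_mul]
      rw [mul_assoc, h7, ← mul_assoc, ← h6, mul_assoc]
    intro c l
    rcases Nat.lt_or_ge l 2 with hl2 | hl2
    · rcases Nat.eq_zero_or_pos l with rfl | hl1
      · rw [hZ0, zero_mul, mul_zero]
      · obtain rfl : l = 1 := by omega
        apply key _ (((K * w c : ℕ) : F))
        · rw [ad_pow (h1 c), Nat.cast_mul]
        · rw [hx1, hk]
    · apply key _ 0
      · have h3 : ad (F := F) (Z c l) v = (0 : F) • v := by rw [h2 c l hl2, zero_smul]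
        rw [ad_pow h3, mul_zero]
      · rw [hx2 c l hl2, zero_smul]
  obtain ⟨μ, hμ⟩ := hcen (v ^ K) ((GZ F Z).pow_mem hvG K) x hxG hx0 hcomm
  have hμ0 : μ ≠ 0 := by
    rintro rfl
    rw [zero_smul] at hμ
    exact hv0 (pow_eq_zero_iff (by omega) |>.mp hμ)
  refine ⟨x, ?_, hxc⟩
  have h3 : x = μ⁻¹ • v ^ K := by rw [hμ, smul_smul, inv_mul_cancel₀ hμ0, one_smul]
  rw [h3]
  apply I.smul_mem
  obtain ⟨K', hK'⟩ : ∃ K', K = K' + 1 := ⟨K - 1, by omega⟩
  rw [hK', pow_succ]
  exact hl _ ((GZ F Z).pow_mem hvG K') v hv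

end semi

end Pool.Agent.H392
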