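import Pool.Agent.H392.Semi
import Pool.Agent.H392.Mart

/-!
A simple faithful module of the algebra generated by the truncated Witt algebras.
-/

set_option autoImplicit false
set_option linter.unusedSectionVars false

namespace Pool.Agent.H392

open Finset Cardinal Pool.Agent.R693

section amitsur
variable {F : Type} [Field F] [IsAlgClosed F] [Uncountable F] {Δ : Type} [DivisionRing Δ]
  [Algebra F Δ]

/-- A simple module not killed by a given element. -/
theorem exists_simple_ne {R : Type} [Ring R] [Algebra F R] (hR : Module.rank F R ≤ ℵ₀)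
    (j : R →ₐ[F] Δ) (hj : Function.Injective j) {x : R} (hx : x ≠ 0) :
    ∃ (N : Type) (_ : AddCommGroup N) (_ : Module R N), IsSimpleModule R N ∧ ∃ n : N, x • n ≠ 0 := by
  classical
  have : Nontrivial R := ⟨x, 0, hx⟩
  have key : ∃ m : Ideal R, m.IsMaximal ∧ x ∉ m := by
    by_contra hcon
    push Not at hcon
    by_cases hs : ∃ c : F, j x = algebraMap F Δ c
    · obtain ⟨c, hc⟩ := hs
      obtain ⟨m, hm⟩ := Ideal.exists_maximal R
      have h1 : x = algebraMap F R c := hj (by rw [hc, AlgHom.commutes])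
      have hc0 : c ≠ 0 := by
        rintro rfl
        exact hx (by rw [h1, map_zero])
      have h2 := hcon m hm
      apply hm.ne_top
      rw [Ideal.eq_top_iff_one]
      have h3 : (1 : R) = algebraMap F R c⁻¹ * x := by
        rw [h1, ← map_mul, inv_mul_cancel₀ hc0, map_one]
      rw [h3]
      exact m.mul_mem_left _ h2
    · push Not at hs
      have hT := transc hs
      have h1 : ∀ c : {c : F // c ≠ 0}, ∃ g : R, g * (x - algebraMap F R c) = 1 := by
        rintro ⟨c, hc⟩
        by_contra hg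
        push Not at hg
        have hne : Ideal.span {x - algebraMap F R c} ≠ ⊤ := by
          intro h
          rw [Ideal.eq_top_iff_one, Ideal.mem_span_singleton'] at h
          obtain ⟨g, hg'⟩ := h
          exact hg g hg'
        obtain ⟨m, hm, hle⟩ := Ideal.exists_le_maximal _ hne
        have h2 := hcon m hm
        have h3 : x - algebraMap F R c ∈ m := hle (Ideal.subset_span rfl)
        apply hm.ne_top
        rw [Ideal.eq_top_iff_one]
        have h4 : (1 : R) = algebraMap F R c⁻¹ * (x - (x - algebraMap F R c)) := by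
          rw [sub_sub_cancel, ← map_mul, inv_mul_cancel₀ hc, map_one]
        rw [h4]
        exact m.mul_mem_left _ (m.sub_mem h2 h3)
      choose g hg using h1
      have h2 : ∀ c, j (g c) = (j x - algebraMap F Δ c)⁻¹ := by
        intro c
        have h3 := congrArg j (hg c)
        rw [map_mul, map_sub, map_one, AlgHom.commutes] at h3
        exact eq_inv_of_mul_eq_one_left h3
      have h3 : LinearIndependent F (fun c => j (g c)) := by
        have h4 := (G.linindep_inv (j x) hT).comp (fun c : {c : F // c ≠ 0} => (c : F))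
          Subtype.val_injective
        convert h4 using 1
        funext c
        exact h2 c
      have h4 : LinearIndependent F g := by
        apply LinearIndependent.of_comp j.toLinearMap
        exact h3
      have h5 : #{c : F // c ≠ 0} ≤ ℵ₀ := h4.cardinal_le_rank.trans hR
      rw [Cardinal.mk_le_aleph0_iff] at h5
      have h6 : ({c : F | c ≠ 0}).Countable := h5
      have h7 : (Set.univ : Set F).Countable := by
        have : (Set.univ : Set F) = {0} ∪ {c : F | c ≠ 0} := by
          ext c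
          simp [em]
        rw [this]
        exact (Set.countable_singleton 0).union h6
      exact not_countable (Set.countable_univ_iff.mp h7)
  obtain ⟨m, hm, hxm⟩ := key
  refine ⟨R ⧸ m, inferInstance, inferInstance, isSimpleModule_iff_isCoatom.mpr hm.out,
    Submodule.Quotient.mk 1, ?_⟩
  intro h
  rw [← Submodule.Quotient.mk_smul, smul_eq_mul, mul_one, Submodule.Quotient.mk_eq_zero] at h
  exact hxm h

end amitsur

section simple
variable {F : Type} [Field F] [CharZero F] [IsAlgClosed F] [Uncountable F] {Δ : Type}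
  [DivisionRing Δ] [Algebra F Δ]
  {C : Type} [Fintype C] [DecidableEq C] {Z : C → ℕ → Δ} {M : C → ℕ}
  (hZZ : ∀ c d, c ≠ d → ∀ l m, Z c l * Z d m = Z d m * Z c l) (hZ0 : ∀ c, Z c 0 = 0)
  (hbr : ∀ c a b, 1 ≤ a → 1 ≤ b → Z c a * Z c b - Z c b * Z c a = ((b : ℤ) - a) • Z c (a + b - 1))
  (hM1 : ∀ c, 1 ≤ M c) (hM : ∀ c l, M c < l → Z c l = 0) (hx : ∀ c, Z c (M c) ≠ 0)

/-- The generators as elements of the subalgebra. -/
def zg (F : Type) [Field F] [Algebra F Δ] (Z : C → ℕ → Δ) (c : C) (l : ℕ) : GZ F Z :=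
  ⟨Z c l, Algebra.subset_adjoin ⟨c, l, rfl⟩⟩

include hZZ hZ0 hbr hM1 hM in
/-- The top generators are normal. -/
lemma top_normal (c : C) {g : Δ} (hg : g ∈ GZ F Z) :
    ∃ g' ∈ GZ F Z, Z c (M c) * g = g' * Z c (M c) := by
  unfold GZ at hg
  induction hg using Algebra.adjoin_induction with
  | mem x hx =>
    obtain ⟨d, m, rfl⟩ := hx
    by_cases hcd : c = d
    · subst hcd
      rcases Nat.eq_zero_or_pos m with rfl | hm
      · exact ⟨0, (GZ F Z).zero_mem, by rw [hZ0, mul_zero, zero_mul]⟩
      · refine ⟨Z c m + algebraMap F Δ (((m : ℤ) - M c : ℤ) : F) * (if m = 1 then 1 else 0),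
          (GZ F Z).add_mem (Z_mem_GZ c m) ((GZ F Z).mul_mem ((GZ F Z).algebraMap_mem _) ?_), ?_⟩
        · split_ifs
          · exact (GZ F Z).one_mem
          · exact (GZ F Z).zero_mem
        · have h1 := hbr c (M c) m (hM1 c) hm
          rw [sub_eq_iff_eq_add] at h1
          rw [h1, add_mul, add_comm]
          congr 1
          split_ifs with hm1
          · subst hm1
            rw [mul_one, Nat.add_sub_cancel, ← Algebra.smul_def, Int.cast_smul_eq_zsmul F]
          · rw [hM c _ (by omega), smul_zero, mul_zero, zero_mul]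
    · exact ⟨Z d m, Z_mem_GZ d m, hZZ c d hcd _ _⟩
  | algebraMap r =>
    exact ⟨algebraMap F Δ r, (GZ F Z).algebraMap_mem r, (Algebra.commutes _ _).symm⟩
  | add x y _ _ hx hy =>
    obtain ⟨x', hx', h1⟩ := hx
    obtain ⟨y', hy', h2⟩ := hy
    exact ⟨x' + y', (GZ F Z).add_mem hx' hy', by rw [mul_add, add_mul, h1, h2]⟩
  | mul x y _ _ hx hy =>
    obtain ⟨x', hx', h1⟩ := hx
    obtain ⟨y', hy', h2⟩ := hy
    exact ⟨x' * y', (GZ F Z).mul_mem hx' hy', by rw [← mul_assoc, h1, mul_assoc, h2, mul_assoc]⟩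

include hZZ hZ0 hbr hM1 hM hx in
/-- A simple faithful module on which the top generators are injective. -/
theorem exists_N (hsc : ∀ c, M c = 1 → ∃ μ : F, Z c 1 = algebraMap F Δ μ)
    (hcen : ∀ s ∈ GZ F Z, ∀ x ∈ GZ F Z, x ≠ 0 →
      (∀ c l, (s * x⁻¹) * Z c l = Z c l * (s * x⁻¹)) → ∃ μ : F, s = μ • x)
    (hrk : Module.rank F (GZ F Z) ≤ ℵ₀) :
    ∃ (N : Type) (_ : AddCommGroup N) (_ : Module (GZ F Z) N), IsSimpleModule (GZ F Z) N ∧
      (∀ g : GZ F Z, (∀ n : N, g • n = 0) → g = 0) ∧
      ∀ c, ∀ n : N, zg F Z c (M c) • n = 0 → n = 0 := by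
  classical
  have hprod : ∀ S : Finset C, ∃ x : GZ F Z, x ≠ 0 ∧ ∀ c ∈ S, ∀ (N : Type) [AddCommGroup N]
      [Module (GZ F Z) N], (∀ n : N, zg F Z c (M c) • n = 0) → ∀ n : N, x • n = 0 := by
    intro S
    induction S using Finset.induction_on with
    | empty => exact ⟨1, one_ne_zero, fun c hc => absurd hc (Finset.notMem_empty c)⟩
    | insert d S hd ih =>
      obtain ⟨x, hx0, hxS⟩ := ih
      refine ⟨zg F Z d (M d) * x, ?_, ?_⟩
      · intro h
        have h1 := congrArg Subtype.val h
        change Z d (M d) * (x : Δ) = 0 at h1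
        rcases mul_eq_zero.mp h1 with h2 | h2
        · exact hx d h2
        · exact hx0 (Subtype.ext h2)
      · intro c hc N _ _ h n
        rw [mul_smul]
        rcases Finset.mem_insert.mp hc with rfl | hc
        · exact h _
        · rw [hxS c hc N h n, smul_zero]
  obtain ⟨x, hx0, hxS⟩ := hprod Finset.univ
  obtain ⟨N, _, _, hN, n0, hn0⟩ := exists_simple_ne hrk (GZ F Z).val Subtype.val_injective hx0
  have htop : ∀ c, ∀ n : N, zg F Z c (M c) • n = 0 → n = 0 := by
    intro c
    let K : Submodule (GZ F Z) N :=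
      { carrier := {n | zg F Z c (M c) • n = 0}
        add_mem' := fun {a b} ha hb => by
          change _ = _ at ha hb ⊢
          rw [smul_add, ha, hb, add_zero]
        zero_mem' := smul_zero _
        smul_mem' := by
          rintro ⟨g, hg⟩ n hn
          change zg F Z c (M c) • n = 0 at hn
          change zg F Z c (M c) • (⟨g, hg⟩ : GZ F Z) • n = 0
          obtain ⟨g', hg', h⟩ := top_normal hZZ hZ0 hbr hM1 hM c hg
          have h1 : zg F Z c (M c) * (⟨g, hg⟩ : GZ F Z) = ⟨g', hg'⟩ * zg F Z c (M c) :=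
            Subtype.ext h
          rw [← mul_smul, h1, mul_smul, hn, smul_zero] }
    have hK : ∀ n, n ∈ K ↔ zg F Z c (M c) • n = 0 := fun n => Iff.rfl
    intro n hn
    rcases eq_bot_or_eq_top K with h | h
    · have : n ∈ K := hn
      rwa [h, Submodule.mem_bot] at this
    · exfalso
      apply hn0
      apply hxS c (Finset.mem_univ c) N
      intro n
      rw [← hK, h]
      trivial
  refine ⟨N, inferInstance, inferInstance, hN, ?_, htop⟩
  let I : Submodule F Δ :=
    { carrier := {v | ∃ h : v ∈ GZ F Z, ∀ n : N, (⟨v, h⟩ : GZ F Z) • n = 0}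
      add_mem' := by
        rintro a b ⟨ha, ha'⟩ ⟨hb, hb'⟩
        refine ⟨(GZ F Z).add_mem ha hb, fun n => ?_⟩
        have : (⟨a + b, (GZ F Z).add_mem ha hb⟩ : GZ F Z) = ⟨a, ha⟩ + ⟨b, hb⟩ := rfl
        rw [this, add_smul, ha', hb', add_zero]
      zero_mem' := ⟨(GZ F Z).zero_mem, fun n => zero_smul (GZ F Z) n⟩
      smul_mem' := by
        rintro r a ⟨ha, ha'⟩
        refine ⟨(GZ F Z).smul_mem ha r, fun n => ?_⟩
        have : (⟨r • a, (GZ F Z).smul_mem ha r⟩ : GZ F Z) = algebraMap F (GZ F Z) r * ⟨a, ha⟩ :=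
          Subtype.ext (Algebra.smul_def r a)
        rw [this, mul_smul, ha', smul_zero] }
  have hI : ∀ v, v ∈ I ↔ ∃ h : v ∈ GZ F Z, ∀ n : N, (⟨v, h⟩ : GZ F Z) • n = 0 := fun v => Iff.rfl
  have hIbot : I = ⊥ := by
    by_contra hI0
    obtain ⟨x, hxI, hxc⟩ := semi hZZ hZ0 hbr hM1 hM hx hsc hcen (I := I)
      (fun v hv => ((hI v).mp hv).choose)
      (by
        intro g hg v hv
        obtain ⟨h, h'⟩ := (hI v).mp hv
        refine (hI _).mpr ⟨(GZ F Z).mul_mem hg h, fun n => ?_⟩
        have : (⟨g * v, (GZ F Z).mul_mem hg h⟩ : GZ F Z) = ⟨g, hg⟩ * ⟨v, h⟩ := rfl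
        rw [this, mul_smul, h', smul_zero])
      (by
        intro g hg v hv
        obtain ⟨h, h'⟩ := (hI v).mp hv
        refine (hI _).mpr ⟨(GZ F Z).mul_mem h hg, fun n => ?_⟩
        have : (⟨v * g, (GZ F Z).mul_mem h hg⟩ : GZ F Z) = ⟨v, h⟩ * ⟨g, hg⟩ := rfl
        rw [this, mul_smul, h']) hI0
    have hcl : Submonoid.closure (Set.range fun c => Z c (M c)) ≤ (GZ F Z).toSubmonoid := by
      rw [Submonoid.closure_le]
      rintro _ ⟨c, rfl⟩
      exact Z_mem_GZ c _
    have hinj : ∀ h : x ∈ GZ F Z, ∀ n : N, (⟨x, h⟩ : GZ F Z) • n = 0 → n = 0 := by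
      clear hxI
      induction hxc using Submonoid.closure_induction with
      | mem y hy =>
        obtain ⟨c, rfl⟩ := hy
        intro h n hn
        exact htop c n hn
      | one =>
        intro h n hn
        have : (⟨1, h⟩ : GZ F Z) = 1 := rfl
        rwa [this, one_smul] at hn
      | mul y z hy hz ihy ihz =>
        intro h n hn
        have : (⟨y * z, h⟩ : GZ F Z) = ⟨y, hcl hy⟩ * ⟨z, hcl hz⟩ := rfl
        rw [this, mul_smul] at hn
        exact ihz _ n (ihy _ _ hn)
    obtain ⟨h, h'⟩ := (hI x).mp hxI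
    exact hn0 (by rw [hinj h n0 (h' n0), smul_zero])
  intro g hg
  have : (g : Δ) ∈ I := (hI _).mpr ⟨g.2, hg⟩
  rw [hIbot, Submodule.mem_bot] at this
  exact Subtype.ext this

end simple

end Pool.Agent.H392
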