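import Mathlib

/-!
Systems of commuting points: Weyl pairs `(D, T)` and truncated Witt algebras `Z`.
-/

set_option autoImplicit false
set_option linter.unusedSectionVars false

namespace Pool.Agent.H392

open Finset

section sys
variable {B B' : Type} [Ring B] [Ring B']

/-- Commuting points. -/
structure Sys (C : Type) (D T : C → B) (Z : C → ℕ → B) : Prop where
  DT : ∀ c, D c * T c = T c * D c + 1
  DT' : ∀ c d, c ≠ d → D c * T d = T d * D c
  DD : ∀ c d, D c * D d = D d * D c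
  TT : ∀ c d, T c * T d = T d * T c
  DZ : ∀ c d l, D c * Z d l = Z d l * D c
  TZ : ∀ c d l, T c * Z d l = Z d l * T c
  ZZ : ∀ c d, c ≠ d → ∀ l m, Z c l * Z d m = Z d m * Z c l
  Z0 : ∀ c, Z c 0 = 0
  br : ∀ c a b, 1 ≤ a → 1 ≤ b → Z c a * Z c b - Z c b * Z c a = ((b : ℤ) - a) • Z c (a + b - 1)
  fin : ∀ c, ∃ M, ∀ l, M ≤ l → Z c l = 0

lemma Sys.map {C : Type} {D T : C → B} {Z : C → ℕ → B} (h : Sys C D T Z) (f : B →+* B') :
    Sys C (fun c => f (D c)) (fun c => f (T c)) (fun c l => f (Z c l)) where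
  DT c := by rw [← map_mul, h.DT, map_add, map_mul, map_one]
  DT' c d hcd := by rw [← map_mul, h.DT' c d hcd, map_mul]
  DD c d := by rw [← map_mul, h.DD, map_mul]
  TT c d := by rw [← map_mul, h.TT, map_mul]
  DZ c d l := by rw [← map_mul, h.DZ, map_mul]
  TZ c d l := by rw [← map_mul, h.TZ, map_mul]
  ZZ c d hcd l m := by rw [← map_mul, h.ZZ c d hcd, map_mul]
  Z0 c := by rw [h.Z0, map_zero]
  br c a b ha hb := by rw [← map_mul, ← map_mul, ← map_sub, h.br c a b ha hb, map_zsmul]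
  fin c := by
    obtain ⟨M, hM⟩ := h.fin c
    exact ⟨M, fun l hl => by rw [hM l hl, map_zero]⟩

/-- The system in a product. -/
lemma Sys.prod {C : Type} {D T : C → B} {Z : C → ℕ → B} {D' T' : C → B'} {Z' : C → ℕ → B'}
    (h : Sys C D T Z) (h' : Sys C D' T' Z') :
    Sys C (fun c => (D c, D' c)) (fun c => (T c, T' c)) (fun c l => (Z c l, Z' c l)) where
  DT c := Prod.ext (h.DT c) (h'.DT c)
  DT' c d hcd := Prod.ext (h.DT' c d hcd) (h'.DT' c d hcd)
  DD c d := Prod.ext (h.DD c d) (h'.DD c d)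
  TT c d := Prod.ext (h.TT c d) (h'.TT c d)
  DZ c d l := Prod.ext (h.DZ c d l) (h'.DZ c d l)
  TZ c d l := Prod.ext (h.TZ c d l) (h'.TZ c d l)
  ZZ c d hcd l m := Prod.ext (h.ZZ c d hcd l m) (h'.ZZ c d hcd l m)
  Z0 c := Prod.ext (h.Z0 c) (h'.Z0 c)
  br c a b ha hb := Prod.ext (h.br c a b ha hb) (h'.br c a b ha hb)
  fin c := by
    obtain ⟨M, hM⟩ := h.fin c
    obtain ⟨M', hM'⟩ := h'.fin c
    exact ⟨max M M', fun l hl => Prod.ext (hM l (le_of_max_le_left hl))
      (hM' l (le_of_max_le_right hl))⟩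

/-- The vector field `t^n ∂` at a point. -/
def th (D T : B) (Z : ℕ → B) (n : ℕ) : B :=
  D * T ^ n + ∑ l ∈ range (n + 1), (n.choose l) • (T ^ (n - l) * Z l)

/-- The vector field `(t - b)^n ∂` at a point. -/
def Ef (D y : B) (Z : ℕ → B) (n : ℕ) : B :=
  (∑ j ∈ range n, (n.choose j) • (y ^ j * Z (n - j))) + D * y ^ n

/-- The vector fields. -/
def Th {C : Type} [Fintype C] (D T : C → B) (Z : C → ℕ → B) (n : ℕ) : B :=
  ∑ c, th (D c) (T c) (Z c) n

lemma map_th (f : B →+* B') (D T : B) (Z : ℕ → B) (n : ℕ) :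
    f (th D T Z n) = th (f D) (f T) (fun l => f (Z l)) n := by
  unfold th
  rw [map_add, map_mul, map_pow, map_sum]
  congr 1
  refine Finset.sum_congr rfl fun l _ => ?_
  rw [map_nsmul, map_mul, map_pow]

lemma map_Th {C : Type} [Fintype C] (f : B →+* B') (D T : C → B) (Z : C → ℕ → B) (n : ℕ) :
    f (Th D T Z n) = Th (fun c => f (D c)) (fun c => f (T c)) (fun c l => f (Z c l)) n := by
  unfold Th
  rw [map_sum]
  exact Finset.sum_congr rfl fun c _ => map_th f _ _ _ _

/-- Taylor's formula. -/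
lemma th_eq {b D y : B} {Z : ℕ → B} (h0 : Z 0 = 0) (hby : b * y = y * b) (hbD : b * D = D * b)
    (n : ℕ) : th D (b + y) Z n =
      ∑ i ∈ range (n + 1), (n.choose i) • (b ^ (n - i) * Ef D y Z i) := by
  have hc : Commute y b := hby.symm
  have h1 : ∀ i, Ef D y Z i = (∑ j ∈ range (i + 1), (i.choose j) • (y ^ j * Z (i - j))) +
      D * y ^ i := by
    intro i
    unfold Ef
    rw [Finset.sum_range_succ _ i, Nat.sub_self, h0, mul_zero, smul_zero, add_zero]
  unfold th
  have h2 : ∀ m : ℕ, (b + y) ^ m = ∑ i ∈ range (m + 1), (m.choose i) • (b ^ (m - i) * y ^ i) := by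
    intro m
    rw [add_comm, hc.add_pow]
    refine Finset.sum_congr rfl fun i _ => ?_
    rw [nsmul_eq_mul, (Nat.cast_commute _ _).eq, (hc.pow_pow i (m - i)).eq]
  have h3 : D * (b + y) ^ n = ∑ i ∈ range (n + 1), (n.choose i) • (b ^ (n - i) * (D * y ^ i)) := by
    rw [h2, Finset.mul_sum]
    refine Finset.sum_congr rfl fun i _ => ?_
    have h4 : D * b ^ (n - i) = b ^ (n - i) * D := (Commute.pow_right hbD.symm (n - i)).eq
    rw [mul_smul_comm, ← mul_assoc, h4, mul_assoc]
  set f : ℕ → ℕ → B := fun l m => (n.choose (l + m) * (l + m).choose m) •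
    (b ^ (n - (l + m)) * (y ^ m * Z l)) with hf
  have h5 : ∑ l ∈ range (n + 1), (n.choose l) • ((b + y) ^ (n - l) * Z l) =
      ∑ l ∈ range (n + 1), ∑ m ∈ range (n + 1 - l), f l m := by
    refine Finset.sum_congr rfl fun l hl => ?_
    have hl' := Finset.mem_range.mp hl
    rw [h2, Finset.sum_mul, Finset.smul_sum, show n + 1 - l = n - l + 1 by omega]
    refine Finset.sum_congr rfl fun m hm => ?_
    have hm' := Finset.mem_range.mp hm
    rw [hf]
    beta_reduce
    rw [smul_mul_assoc, smul_smul, mul_assoc, Nat.sub_sub]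
    congr 1
    have h6 := Nat.choose_mul (n := n) (k := l + m) (s := l)
    rw [Nat.add_sub_cancel_left] at h6
    rw [← h6 (by omega), show (l + m).choose l = (l + m).choose m from by
      rw [Nat.choose_symm_add]]
  have h6 : ∑ i ∈ range (n + 1), (n.choose i) • (b ^ (n - i) *
      ∑ j ∈ range (i + 1), (i.choose j) • (y ^ j * Z (i - j))) =
      ∑ l ∈ range (n + 1), ∑ m ∈ range (n + 1 - l), f l m := by
    rw [← Finset.sum_range_diag_flip]
    refine Finset.sum_congr rfl fun i hi => ?_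
    rw [Finset.mul_sum, Finset.smul_sum, ← Finset.sum_flip]
    refine Finset.sum_congr rfl fun j hj => ?_
    have hj' := Finset.mem_range.mp hj
    rw [hf]
    beta_reduce
    have h7 : j + (i - j) = i := by omega
    have h8 : i - (i - j) = j := by omega
    rw [h7, h8, mul_smul_comm, smul_smul]
  rw [h3, h5, ← h6, ← Finset.sum_add_distrib]
  refine Finset.sum_congr rfl fun i _ => ?_
  rw [h1, mul_add, smul_add, add_comm]

end sys

end Pool.Agent.H392
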