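import Pool.Graph.R_seed8.R693.R.Main
import Pool.Graph.R_seed8.R693.C.Final

/-!
The translation homomorphism `t^m ∂ ↦ (1 + t)^m ∂`, with the grading recorded by a variable `s`:
`x m ↦ ∑ j, (m choose j) s^(j-1) x j`, from the enveloping algebra of the Witt algebra to Laurent
series over a quotient of the enveloping algebra of `W_{≥ -1}`.
-/

set_option autoImplicit false
set_option linter.unusedSectionVars false

namespace Pool.Agent.H392.Tr

open Pool.Agent.R693.W
open Pool.Agent.R693.Vir (Quo quo quo_surj quo_eq_zero)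

lemma bc_mul (n : ℤ) (b : ℕ) :
    ((b + 1 : ℕ) : ℤ) * Ring.choose n (b + 1) = n * Ring.choose (n - 1) b := by
  have h := Ring.choose_smul_choose n (n := b + 1) (k := 1) (by omega)
  rw [Nat.choose_one_right, Ring.choose_one_right, nsmul_eq_mul, Nat.add_sub_cancel] at h
  simpa using h

lemma bc_half (m n : ℤ) (c : ℕ) :
    ∑ p ∈ Finset.HasAntidiagonal.antidiagonal (c + 1), (p.2 : ℤ) * (Ring.choose m p.1 * Ring.choose n p.2) =
      n * Ring.choose (m + n - 1) c := by
  rw [Finset.Nat.sum_antidiagonal_succ']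
  simp only [Nat.cast_zero, zero_mul, zero_add]
  have h1 : m + n - 1 = m + (n - 1) := by ring
  rw [h1, Ring.add_choose_eq c (Commute.all m (n - 1)), Finset.mul_sum]
  refine Finset.sum_congr rfl fun p _ => ?_
  have := bc_mul n p.2
  linear_combination (Ring.choose m p.1) * this

lemma bc_sum (m n : ℤ) (c : ℕ) :
    ∑ p ∈ Finset.HasAntidiagonal.antidiagonal (c + 1), ((p.2 : ℤ) - p.1) * (Ring.choose m p.1 * Ring.choose n p.2) =
      (n - m) * Ring.choose (m + n - 1) c := by
  have h1 := bc_half m n c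
  have h2 := bc_half n m c
  rw [← Finset.Nat.sum_antidiagonal_swap] at h2
  have h3 : n + m - 1 = m + n - 1 := by ring
  rw [h3] at h2
  rw [sub_mul, ← h1, ← h2, ← Finset.sum_sub_distrib]
  refine Finset.sum_congr rfl fun p _ => ?_
  simp only [Prod.fst_swap, Prod.snd_swap]
  ring

section series
variable {F : Type} [Field F] [CharZero F] {R : Type} [Ring R] [Algebra F R]

variable (F) in
/-- The power series `∑ (m choose j) x j s^j`. -/
noncomputable def XX (x : ℕ → R) (m : ℤ) : PowerSeries R :=
  PowerSeries.mk fun j => ((Ring.choose m j : ℤ) : F) • x j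

lemma XX_br {x : ℕ → R} (hx : IsW F x) (m n : ℤ) :
    XX F x m * XX F x n - XX F x n * XX F x m =
      PowerSeries.X * (((n - m : ℤ) : F) • XX F x (m + n - 1)) := by
  ext c
  rw [map_sub, PowerSeries.coeff_mul, PowerSeries.coeff_mul]
  have h1 : ∑ p ∈ Finset.HasAntidiagonal.antidiagonal c, PowerSeries.coeff p.1 (XX F x n) *
      PowerSeries.coeff p.2 (XX F x m) = ∑ p ∈ Finset.HasAntidiagonal.antidiagonal c,
        PowerSeries.coeff p.2 (XX F x n) * PowerSeries.coeff p.1 (XX F x m) := by
    rw [← Finset.Nat.sum_antidiagonal_swap]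
    rfl
  rw [h1, ← Finset.sum_sub_distrib]
  have h2 : ∀ p ∈ Finset.HasAntidiagonal.antidiagonal c, PowerSeries.coeff p.1 (XX F x m) *
      PowerSeries.coeff p.2 (XX F x n) -
        PowerSeries.coeff p.2 (XX F x n) * PowerSeries.coeff p.1 (XX F x m) =
      ((Ring.choose m p.1 * Ring.choose n p.2 : ℤ) : F) • (x p.1 * x p.2 - x p.2 * x p.1) := by
    intro p _
    unfold XX
    rw [PowerSeries.coeff_mk, PowerSeries.coeff_mk, smul_mul_smul_comm, smul_mul_smul_comm,
      mul_comm ((Ring.choose n p.2 : ℤ) : F), ← smul_sub]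
    push_cast
    rfl
  rw [Finset.sum_congr rfl h2]
  rcases c with _ | c
  · rw [Finset.HasAntidiagonal.antidiagonal_zero, Finset.sum_singleton, sub_self, smul_zero,
      PowerSeries.coeff_zero_X_mul]
  · rw [PowerSeries.coeff_succ_X_mul]
    have h3 : ∀ p ∈ Finset.HasAntidiagonal.antidiagonal (c + 1),
        ((Ring.choose m p.1 * Ring.choose n p.2 : ℤ) : F) • (x p.1 * x p.2 - x p.2 * x p.1) =
        (((((p.2 : ℤ) - p.1) * (Ring.choose m p.1 * Ring.choose n p.2) : ℤ)) : F) • x c := by
      intro p hp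
      have h4 := Finset.HasAntidiagonal.mem_antidiagonal.mp hp
      rw [hx p.1 p.2 c h4, smul_smul]
      congr 1
      have h5 : ∀ k : ℕ, (Lab.c k : ℤ) = k := fun k => rfl
      rw [h5, h5]
      push_cast
      ring
    rw [Finset.sum_congr rfl h3, ← Finset.sum_smul, ← Int.cast_sum, bc_sum]
    have h6 : PowerSeries.coeff c (((n - m : ℤ) : F) • XX F x (m + n - 1)) =
        ((n - m : ℤ) : F) • (((Ring.choose (m + n - 1) c : ℤ) : F) • x c) := by
      unfold XX
      have h7 : ∀ (a : F) (f : PowerSeries R), PowerSeries.coeff c (a • f) =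
          a • PowerSeries.coeff c f := fun a f => by
        rw [PowerSeries.coeff_def (s := Finsupp.single () c) (by simp)]
        rfl
      rw [h7, PowerSeries.coeff_mk]
    rw [h6, smul_smul]
    push_cast
    rfl

end series

end Pool.Agent.H392.Tr
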