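import Pool.Agent.H392.Tr1

/-!
The translation homomorphism, continued: the Laurent series.
-/

set_option autoImplicit false
set_option linter.unusedSectionVars false

namespace Pool.Agent.H392.Tr

open Pool.Agent.R693.W
open Pool.Agent.R693.Vir (Quo quo quo_surj quo_eq_zero)
open HahnSeries (single)

section laurent
variable {F : Type} [Field F] [CharZero F] {R : Type} [Ring R] [Algebra F R]

variable (R) in
/-- The inverse of the variable. -/
noncomputable def S : HahnSeries ℤ R := single (-1) 1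

lemma S_comm (f : HahnSeries ℤ R) : S R * f = f * S R := by
  ext i
  unfold S
  rw [HahnSeries.coeff_single_mul, HahnSeries.coeff_mul_single, one_mul, mul_one]

lemma S_inv : S R * single 1 1 = 1 := by
  unfold S
  rw [HahnSeries.single_mul_single, neg_add_cancel, one_mul]
  first | done | rfl

lemma S_coeff (f : HahnSeries ℤ R) (i : ℤ) : (S R * f).coeff i = f.coeff (i + 1) := by
  unfold S
  rw [HahnSeries.coeff_single_mul, one_mul]
  congr 1

variable (F) in
/-- Power series as Laurent series. -/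
noncomputable def OP : PowerSeries R →ₐ[F] HahnSeries ℤ R := HahnSeries.ofPowerSeriesAlg ℤ F

lemma OP_eq (f : PowerSeries R) : OP F f = HahnSeries.ofPowerSeries ℤ R f := rfl

lemma OP_X : OP F (PowerSeries.X : PowerSeries R) = single 1 1 := by
  rw [OP_eq, HahnSeries.ofPowerSeries_X]

lemma OP_nat (f : PowerSeries R) (n : ℕ) : (OP F f).coeff (n : ℤ) = PowerSeries.coeff n f := by
  rw [OP_eq]
  exact HahnSeries.ofPowerSeries_apply_coeff f n

lemma OP_neg (f : PowerSeries R) {i : ℤ} (hi : i < 0) : (OP F f).coeff i = 0 := by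
  rw [OP_eq, HahnSeries.ofPowerSeries_apply]
  apply HahnSeries.embDomain_of_notMem_range
  rintro ⟨n, hn⟩
  have : ((n : ℕ) : ℤ) = i := hn
  omega

variable (F) in
/-- The image of `x m`. -/
noncomputable def YY (x : ℕ → R) (m : ℤ) : HahnSeries ℤ R := S R * OP F (XX F x m)

lemma YY_isW {x : ℕ → R} (hx : IsW F x) : IsW F (YY F x) := by
  intro m n j hmn
  have h1 : (Lab.one : ℤ) = 1 := rfl
  have h2 : ∀ k : ℤ, (Lab.c k : ℤ) = k := fun k => rfl
  rw [h1] at hmn
  have hj : j = m + n - 1 := by omega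
  rw [h2, h2, hj]
  unfold YY
  have h3 : ∀ f g : HahnSeries ℤ R, (S R * f) * (S R * g) = S R * (S R * (f * g)) := by
    intro f g
    rw [mul_assoc, ← mul_assoc f, ← S_comm f, mul_assoc, ← mul_assoc]
  rw [h3, h3, ← mul_sub, ← mul_sub, ← map_mul, ← map_mul, ← map_sub, XX_br hx, map_mul, OP_X,
    map_smul, ← mul_assoc (S R) (single 1 1), S_inv, one_mul, mul_smul_comm]

lemma YY_nat (x : ℕ → R) (m : ℤ) (j : ℕ) :
    (YY F x m).coeff ((j : ℤ) - 1) = ((Ring.choose m j : ℤ) : F) • x j := by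
  unfold YY
  rw [S_coeff, sub_add_cancel, OP_nat]
  unfold XX
  rw [PowerSeries.coeff_mk]

lemma YY_neg (x : ℕ → R) (m : ℤ) {i : ℤ} (hi : i < -1) : (YY F x m).coeff i = 0 := by
  unfold YY
  rw [S_coeff, OP_neg _ (by omega)]

lemma coeff_mul' (f g : HahnSeries ℤ R) (i : ℤ) : ∃ t : Finset (ℤ × ℤ),
    (∀ p ∈ t, p.1 + p.2 = i) ∧ (f * g).coeff i = ∑ p ∈ t, f.coeff p.1 * g.coeff p.2 ∧
    ∀ a b, a + b = i → f.coeff a ≠ 0 → g.coeff b ≠ 0 → (a, b) ∈ t := by
  refine ⟨_, ?_, HahnSeries.coeff_mul, ?_⟩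
  · intro p hp
    rw [Finset.mem_antidiagonal] at hp
    exact hp.2.2
  · intro a b hab ha hb
    rw [Finset.mem_antidiagonal]
    exact ⟨ha, hb, hab⟩

/-- Weights. -/
def Wt (x1 : R) (f : HahnSeries ℤ R) : Prop := ∀ i, x1 * f.coeff i - f.coeff i * x1 = i • f.coeff i

lemma Wt.mul {x1 : R} {f g : HahnSeries ℤ R} (hf : Wt x1 f) (hg : Wt x1 g) : Wt x1 (f * g) := by
  intro i
  obtain ⟨t, ht, h1, -⟩ := coeff_mul' f g i
  rw [h1, Finset.mul_sum, Finset.sum_mul, ← Finset.sum_sub_distrib, Finset.smul_sum]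
  refine Finset.sum_congr rfl fun p hp => ?_
  have h2 : x1 * (f.coeff p.1 * g.coeff p.2) - f.coeff p.1 * g.coeff p.2 * x1 =
      (x1 * f.coeff p.1 - f.coeff p.1 * x1) * g.coeff p.2 +
      f.coeff p.1 * (x1 * g.coeff p.2 - g.coeff p.2 * x1) := by noncomm_ring
  rw [h2, hf, hg, smul_mul_assoc, mul_smul_comm, ← add_smul, ht p hp]

lemma YY_wt {x : ℕ → R} (hx : IsW F x) (m : ℤ) : Wt (x 1) (YY F x m) := by
  intro i
  by_cases hi : i < -1
  · rw [YY_neg x m hi, mul_zero, zero_mul, sub_zero, smul_zero]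
  · obtain ⟨j, rfl⟩ : ∃ j : ℕ, i = (j : ℤ) - 1 := ⟨(i + 1).toNat, by omega⟩
    rw [YY_nat, mul_smul_comm, smul_mul_assoc, ← smul_sub, hx 1 j j (by
      have : (Lab.one : ℕ) = 1 := rfl
      rw [this]; omega), smul_comm]
    have h5 : ∀ k : ℕ, (Lab.c k : ℤ) = k := fun k => rfl
    rw [h5, h5, Int.cast_smul_eq_zsmul]
    simp

/-- Top coefficients. -/
def Top (w : ℤ) (u : R) (f : HahnSeries ℤ R) : Prop := f.coeff w = u ∧ ∀ i, w < i → f.coeff i = 0

lemma Top.mul {w w' : ℤ} {u u' : R} {f g : HahnSeries ℤ R} (hf : Top w u f) (hg : Top w' u' g) :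
    Top (w + w') (u * u') (f * g) := by
  constructor
  · obtain ⟨t, ht, h1, h2⟩ := coeff_mul' f g (w + w')
    rw [h1, Finset.sum_eq_single (w, w')]
    · rw [hf.1, hg.1]
    · rintro ⟨a, b⟩ hp hne
      have h3 : a + b = w + w' := ht _ hp
      rcases lt_trichotomy a w with h | h | h
      · change f.coeff a * g.coeff b = 0
        rw [hg.2 b (by omega), mul_zero]
      · exfalso
        apply hne
        rw [h, show b = w' by omega]
      · change f.coeff a * g.coeff b = 0
        rw [hf.2 a h, zero_mul]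
    · intro hn
      by_contra hne
      apply hn
      apply h2 _ _ rfl
      · exact left_ne_zero_of_mul hne
      · exact right_ne_zero_of_mul hne
  · intro i hi
    obtain ⟨t, ht, h1, h2⟩ := coeff_mul' f g i
    rw [h1]
    refine Finset.sum_eq_zero fun p hp => ?_
    have h3 : p.1 + p.2 = i := ht _ hp
    by_cases h : w < p.1
    · rw [hf.2 _ h, zero_mul]
    · rw [hg.2 _ (by omega), mul_zero]

lemma YY_top (x : ℕ → R) (m : ℕ) : Top ((m : ℤ) - 1) (x m) (YY F x m) := by
  constructor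
  · rw [YY_nat, Ring.choose_natCast, Nat.choose_self]
    simp
  · intro i hi
    obtain ⟨j, rfl⟩ : ∃ j : ℕ, i = (j : ℤ) - 1 := ⟨(i + 1).toNat, by omega⟩
    rw [YY_nat, Ring.choose_natCast, Nat.choose_eq_zero_of_lt (by omega)]
    simp

/-- The recurrence for the coefficients. -/
def Recu (x0 : R) (w : ℤ) (f : HahnSeries ℤ R) : Prop :=
  ∀ i, (w - i) • f.coeff i = x0 * f.coeff (i + 1) - f.coeff (i + 1) * x0

lemma Recu.mul {x0 : R} {w w' : ℤ} {f g : HahnSeries ℤ R} (hf : Recu x0 w f) (hg : Recu x0 w' g) :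
    Recu x0 (w + w') (f * g) := by
  -- `D f = w f - i f` on coefficients
  set c0 : HahnSeries ℤ R := single 0 x0 with hc0
  have hc : ∀ (f : HahnSeries ℤ R) i, (c0 * f - f * c0).coeff i =
      x0 * f.coeff i - f.coeff i * x0 := by
    intro f i
    rw [HahnSeries.coeff_sub, hc0, HahnSeries.coeff_single_zero_mul,
      HahnSeries.coeff_mul_single_zero]
  intro i
  have e1 : x0 * (f * g).coeff (i + 1) - (f * g).coeff (i + 1) * x0 =
      ((S R * (c0 * f - f * c0)) * g + f * (S R * (c0 * g - g * c0))).coeff i := by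
    rw [← hc, ← S_coeff]
    congr 1
    have h2 : f * (S R * (c0 * g - g * c0)) = S R * (f * (c0 * g - g * c0)) := by
      rw [← mul_assoc, ← S_comm, mul_assoc]
    rw [h2, mul_assoc (S R) (c0 * f - f * c0) g, ← mul_add]
    congr 1
    noncomm_ring
  have hf' : ∀ i, (S R * (c0 * f - f * c0)).coeff i = (w - i) • f.coeff i := by
    intro i
    rw [S_coeff, hc, hf]
  have hg' : ∀ i, (S R * (c0 * g - g * c0)).coeff i = (w' - i) • g.coeff i := by
    intro i
    rw [S_coeff, hc, hg]
  rw [e1, HahnSeries.coeff_add]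
  obtain ⟨t, ht, h1, h2⟩ := coeff_mul' f g i
  have e2 : ((S R * (c0 * f - f * c0)) * g).coeff i =
      ∑ p ∈ t, ((w - p.1) • f.coeff p.1) * g.coeff p.2 := by
    obtain ⟨t', ht', h1', h2'⟩ := coeff_mul' (S R * (c0 * f - f * c0)) g i
    rw [h1']
    classical
    have h3 : ∑ p ∈ t', (S R * (c0 * f - f * c0)).coeff p.1 * g.coeff p.2 =
        ∑ p ∈ t ∪ t', (S R * (c0 * f - f * c0)).coeff p.1 * g.coeff p.2 := by
      apply Finset.sum_subset Finset.subset_union_right
      intro p hp hp'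
      by_contra hne
      apply hp'
      apply h2' p.1 p.2
      · rcases Finset.mem_union.mp hp with h | h
        · exact ht p h
        · exact ht' p h
      · exact left_ne_zero_of_mul hne
      · exact right_ne_zero_of_mul hne
    rw [h3]
    symm
    rw [Finset.sum_congr rfl (fun p _ => by rw [← hf'] : ∀ p ∈ t,
      ((w - p.1) • f.coeff p.1) * g.coeff p.2 =
        (S R * (c0 * f - f * c0)).coeff p.1 * g.coeff p.2)]
    apply Finset.sum_subset Finset.subset_union_left
    intro p hp hp'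
    by_contra hne
    apply hp'
    apply h2 p.1 p.2
    · rcases Finset.mem_union.mp hp with h | h
      · exact ht p h
      · exact ht' p h
    · intro h
      apply hne
      rw [hf', h, smul_zero, zero_mul]
    · exact right_ne_zero_of_mul hne
  have e3 : (f * (S R * (c0 * g - g * c0))).coeff i =
      ∑ p ∈ t, f.coeff p.1 * ((w' - p.2) • g.coeff p.2) := by
    obtain ⟨t', ht', h1', h2'⟩ := coeff_mul' f (S R * (c0 * g - g * c0)) i
    rw [h1']
    classical
    have h3 : ∑ p ∈ t', f.coeff p.1 * (S R * (c0 * g - g * c0)).coeff p.2 =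
        ∑ p ∈ t ∪ t', f.coeff p.1 * (S R * (c0 * g - g * c0)).coeff p.2 := by
      apply Finset.sum_subset Finset.subset_union_right
      intro p hp hp'
      by_contra hne
      apply hp'
      apply h2' p.1 p.2
      · rcases Finset.mem_union.mp hp with h | h
        · exact ht p h
        · exact ht' p h
      · exact left_ne_zero_of_mul hne
      · exact right_ne_zero_of_mul hne
    rw [h3]
    symm
    rw [Finset.sum_congr rfl (fun p _ => by rw [← hg'] : ∀ p ∈ t,
      f.coeff p.1 * ((w' - p.2) • g.coeff p.2) =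
        f.coeff p.1 * (S R * (c0 * g - g * c0)).coeff p.2)]
    apply Finset.sum_subset Finset.subset_union_left
    intro p hp hp'
    by_contra hne
    apply hp'
    apply h2 p.1 p.2
    · rcases Finset.mem_union.mp hp with h | h
      · exact ht p h
      · exact ht' p h
    · exact left_ne_zero_of_mul hne
    · intro h
      apply hne
      rw [hg', h, smul_zero, mul_zero]
  rw [e2, e3, h1, Finset.smul_sum, ← Finset.sum_add_distrib]
  refine Finset.sum_congr rfl fun p hp => ?_
  rw [smul_mul_assoc, mul_smul_comm, ← add_smul]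
  congr 1
  have := ht p hp
  omega

lemma YY_recu {x : ℕ → R} (hx : IsW F x) (m : ℤ) : Recu (x 0) (m - 1) (YY F x m) := by
  intro i
  by_cases hi : i < -1
  · rw [YY_neg x m hi, smul_zero]
    by_cases hi' : i + 1 < -1
    · rw [YY_neg x m hi', mul_zero, zero_mul, sub_zero]
    · have h1 : i + 1 = ((0 : ℕ) : ℤ) - 1 := by push_cast; omega
      rw [h1, YY_nat, mul_smul_comm, smul_mul_assoc, sub_self]
  · obtain ⟨j, rfl⟩ : ∃ j : ℕ, i = (j : ℤ) - 1 := ⟨(i + 1).toNat, by omega⟩
    have h1 : (j : ℤ) - 1 + 1 = ((j + 1 : ℕ) : ℤ) - 1 := by push_cast; ring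
    rw [h1, YY_nat, YY_nat, mul_smul_comm, smul_mul_assoc, ← smul_sub, hx 0 (j + 1) j (by
      have : (Lab.one : ℕ) = 1 := rfl
      rw [this]; omega), smul_smul]
    have h5 : ∀ k : ℕ, (Lab.c k : ℤ) = k := fun k => rfl
    rw [h5, h5, ← Int.cast_smul_eq_zsmul F, smul_smul]
    congr 1
    have h6 := Ring.choose_smul_choose m (n := j + 1) (k := j) (by omega)
    rw [Nat.choose_succ_self_right, nsmul_eq_mul, Nat.add_sub_cancel_left,
      Ring.choose_one_right] at h6
    have h7 : ((m - 1 - ((j : ℤ) - 1) : ℤ) : F) * ((Ring.choose m j : ℤ) : F) =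
        ((((j + 1 : ℕ) : ℤ) * Ring.choose m (j + 1) : ℤ) : F) := by
      rw [h6, ← Int.cast_mul]
      congr 1
      ring
    rw [h7]
    push_cast
    ring

end laurent

end Pool.Agent.H392.Tr
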